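import Pool.Agent.Lib.MP_dbccd7_gt.Defs

/-!
# Energy density, tension vector, orthogonal energies; the twisted metric; comparison functions
-/

open scoped Manifold ContDiff Matrix

namespace Pool.Agent.Lib.MPdbccd7

/-! ## General maps `u : E n → E n` (into hyperbolic space) -/

section general

variable {n : ℕ}

/-- A matrix field which near `y` is a smooth metric. -/
structure MetAt (g : MF n) (y : E n) : Prop where
  smooth : ∀ i j, ContDiffAt ℝ ∞ (fun z => g z i j) y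
  posDef : ∀ᶠ z in nhds y, (g z).PosDef

/-- `Γ(f, h) = ∑ g^{ij} ∂_i f ∂_j h`. -/
noncomputable def gam (g : MF n) (f h : E n → ℝ) (y : E n) : ℝ :=
  ∑ i, ∑ j, (g y)⁻¹ i j * pd i f y * pd j h y

/-- `⟨∂_i u, ∂_j u⟩` (Lorentz product of the derivatives of `(u₀, u)`). -/
noncomputable def fI (u : E n → E n) (y : E n) (i j : Fin n) : ℝ :=
  (∑ k, pd i (fun z => u z k) y * pd j (fun z => u z k) y)
    - (∑ k, u y k * pd i (fun z => u z k) y) * (∑ k, u y k * pd j (fun z => u z k) y)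
      / y0 (u y) ^ 2

/-- The energy density `|du|²`. -/
noncomputable def en (g : MF n) (u : E n → E n) (y : E n) : ℝ :=
  ∑ i, ∑ j, (g y)⁻¹ i j * fI u y i j

/-- `⟨∂_i u, p⟩` (Lorentz product), `p` a point of `H^n`. -/
noncomputable def pr (u : E n → E n) (p : E n) (y : E n) (i : Fin n) : ℝ :=
  (∑ k, pd i (fun z => u z k) y * p k)
    - (∑ k, u y k * pd i (fun z => u z k) y) / y0 (u y) * y0 p

/-- The part of the energy density of `u` orthogonal to the direction of `p`. -/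
noncomputable def perp (g : MF n) (u : E n → E n) (p : E n) (y : E n) : ℝ :=
  en g u y - (∑ i, ∑ j, (g y)⁻¹ i j * pr u p y i * pr u p y j) / (q (u y) p ^ 2 - 1)

/-- The (spatial part of the) tension vector `Δ_g v - |dv|² v`. -/
noncomputable def tv (g : MF n) (v : E n → E n) (k : Fin n) (y : E n) : ℝ :=
  lap g (fun z => v z k) y - en g v y * v y k

/-- The hyperbolic norm at the point `p` of the tangent vector with spatial part `X`. -/
noncomputable def hn (p : E n) (X : Fin n → ℝ) : ℝ :=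
  Real.sqrt ((∑ k, X k ^ 2) - (∑ k, p k * X k) ^ 2 / y0 p ^ 2)

/-- The norm of the tension vector. -/
noncomputable def tn (g : MF n) (v : E n → E n) (y : E n) : ℝ := hn (v y) fun k => tv g v k y

end general

/-! ## The twisted metric, dimension `m + 3` -/

section twist

variable {m : ℕ}

/-- The rotation field in the plane of the coordinates `1, 2`. -/
noncomputable def Jv (y : E (m + 3)) (i : Fin (m + 3)) : ℝ :=
  if i = 1 then - y 2 else if i = 2 then y 1 else 0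

/-- `|w|² = y₁² + y₂²`. -/
noncomputable def wsq (y : E (m + 3)) : ℝ := y 1 ^ 2 + y 2 ^ 2

/-- `t = z / y₀`. -/
noncomputable def tk (y : E (m + 3)) : ℝ := y 0 / y0 y

/-- `ρ = log y₀`. -/
noncomputable def rk (y : E (m + 3)) : ℝ := Real.log (y0 y)

/-- The gradient of `t`. -/
noncomputable def dtk (y : E (m + 3)) (i : Fin (m + 3)) : ℝ :=
  (if i = 0 then 1 else 0) / y0 y - y 0 * y i / y0 y ^ 3

/-- The two functions defining the twist. -/
structure Tw where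
  /-- the angle -/
  tau : ℝ → ℝ
  /-- the cutoff -/
  lam : ℝ → ℝ

/-- The conditions on the twist. -/
structure TwOK (T : Tw) (C ε κ r1 r2 : ℝ) : Prop where
  hε : 0 < ε ∧ ε ≤ 1 / 8
  hκ : 0 < κ ∧ κ ≤ 1
  hC : 1 ≤ C
  hr : 0 ≤ r1 ∧ r1 < r2
  tsm : ContDiff ℝ ∞ T.tau
  lsm : ContDiff ℝ ∞ T.lam
  tneg : ∀ t ≤ -ε, T.tau t = 2 * Real.pi
  tpos : ∀ t, ε ≤ t → T.tau t = 0
  t1 : ∀ t, |deriv T.tau t| ≤ C / ε
  t2 : ∀ t, |deriv (deriv T.tau) t| ≤ C / ε ^ 2
  t3 : ∀ t, |deriv (deriv (deriv T.tau)) t| ≤ C / ε ^ 3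
  l01 : ∀ r, 0 ≤ T.lam r ∧ T.lam r ≤ 1
  lone : ∀ r ≤ r1, T.lam r = 1
  lzero : ∀ r, r2 ≤ r → T.lam r = 0
  l1 : ∀ r, |deriv T.lam r| ≤ κ
  l2 : ∀ r, |deriv (deriv T.lam) r| ≤ κ

/-- The one-form `A = λ(ρ) d(τ(t))`. -/
noncomputable def Av (T : Tw) (y : E (m + 3)) (i : Fin (m + 3)) : ℝ :=
  T.lam (rk y) * deriv T.tau (tk y) * dtk y i

/-- The twisted metric `g_A(X, X) = |X + A(X) J|²`. -/
noncomputable def gA (T : Tw) (y : E (m + 3)) : Matrix (Fin (m + 3)) (Fin (m + 3)) ℝ :=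
  Matrix.of fun i j => gH y i j + Av T y i * Jv y j + Jv y i * Av T y j
    + wsq y * Av T y i * Av T y j

/-- `b = λ τ' / y₀`. -/
noncomputable def bb (T : Tw) (y : E (m + 3)) : ℝ :=
  T.lam (rk y) * deriv T.tau (tk y) / y0 y

/-- `|A|² = b² (1 - t²)`. -/
noncomputable def Nn (T : Tw) (y : E (m + 3)) : ℝ := bb T y ^ 2 * (1 - tk y ^ 2)

/-- The divergence of `A`. -/
noncomputable def dA (T : Tw) (y : E (m + 3)) : ℝ :=
  T.lam (rk y) * (deriv (deriv T.tau) (tk y) * (1 - tk y ^ 2)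
      - 2 * deriv T.tau (tk y) * tk y) / y0 y ^ 2
    + deriv T.lam (rk y) * deriv T.tau (tk y) * tk y / y0 y ^ 2

/-- The derivative along `J`. -/
noncomputable def Jd (f : E (m + 3) → ℝ) (y : E (m + 3)) : ℝ := ∑ i, Jv y i * pd i f y

/-- The hyperbolic Laplacian `∑ (δ_ij + y_i y_j) ∂_i ∂_j f + n ∑ y_i ∂_i f`. -/
noncomputable def lap0 (f : E (m + 3) → ℝ) (y : E (m + 3)) : ℝ :=
  (∑ i, ∑ j, ((if i = j then 1 else 0) + y i * y j) * pd i (fun z => pd j f z) y)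
    + (m + 3) * ∑ i, y i * pd i f y

/-- `⟨df, dh⟩` for the hyperbolic metric. -/
noncomputable def gam0 (f h : E (m + 3) → ℝ) (y : E (m + 3)) : ℝ :=
  (∑ i, pd i f y * pd i h y) + (∑ i, y i * pd i f y) * (∑ i, y i * pd i h y)

/-- The Euler derivative `D f = ∑ y_i ∂_i f`. -/
noncomputable def Dd (f : E (m + 3) → ℝ) (y : E (m + 3)) : ℝ := ∑ i, y i * pd i f y

/-- The Laplacian of `gA`. -/
noncomputable def LA (T : Tw) (f : E (m + 3) → ℝ) (y : E (m + 3)) : ℝ :=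
  lap0 f y - 2 * bb T y * pd 0 (Jd f) y - dA T y * Jd f y + Nn T y * Jd (Jd f) y

/-- `P = λ² τ'² (1 - t²) |w|² / (y₀² (n-1))`. -/
noncomputable def Pf (T : Tw) (y : E (m + 3)) : ℝ := Nn T y * wsq y / (m + 2)

/-- `α = (1+P)^{-1/2}`. -/
noncomputable def al (T : Tw) (y : E (m + 3)) : ℝ := (Real.sqrt (1 + Pf T y))⁻¹

/-- The comparison map `v = α y`. -/
noncomputable def vA (T : Tw) (y : E (m + 3)) : E (m + 3) := al T y • y

/-- The rotation by the angle `θ` in the plane of the coordinates `1, 2`. -/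
noncomputable def rotE (θ : ℝ) (y : E (m + 3)) : E (m + 3) :=
  WithLp.toLp 2 fun i => if i = 1 then Real.cos θ * y 1 - Real.sin θ * y 2
    else if i = 2 then Real.sin θ * y 1 + Real.cos θ * y 2 else y i

/-- The gauge map `y ↦` rotation of `y` by the angle `c τ(t(y))`. -/
noncomputable def Phi (T : Tw) (c : ℝ) (y : E (m + 3)) : E (m + 3) :=
  rotE (c * T.tau (tk y)) y

/-- The involution `ρ`: `(y₁, y₂) ↦ (-y₁, -y₂)`. -/
noncomputable def rh (y : E (m + 3)) : E (m + 3) :=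
  WithLp.toLp 2 fun i => if i = 1 ∨ i = 2 then - y i else y i

/-- The explicit harmonic function of the band. -/
noncomputable def Hb (ε : ℝ) (y : E (m + 3)) : ℝ :=
  ∫ x in ((y 0 - 2 * ε * y0 y) / Real.sqrt (1 - 4 * ε ^ 2))..((y 0 + 2 * ε * y0 y)
    / Real.sqrt (1 - 4 * ε ^ 2)), (Real.sqrt (1 + x ^ 2))⁻¹ ^ (m + 3)

/-- The barrier `S = δ + B (s - c)² s^m`, `s = 1 / y₀`. -/
noncomputable def Sb (δ B c : ℝ) (y : E (m + 3)) : ℝ :=
  δ + B * ((y0 y)⁻¹ - c) ^ 2 * (y0 y)⁻¹ ^ m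

end twist

end Pool.Agent.Lib.MPdbccd7
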