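import Pool.Agent.Lib.MP_dbccd7_gt.SpecA
import Pool.Agent.Lib.MP_dbccd7_gt.DefsB

section
/-!
# HYP: the hyperbolic metric in graph coordinates

Calculus rules for `pd`, the Christoffel symbols `Γ^k_{ij} = - y_k g_{ij}` of `gH`, its curvature
tensor, invariance under Lorentz matrices.
-/
open scoped Manifold ContDiff Matrix

namespace Pool.Agent.Lib.MPdbccd7

variable {n : ℕ}

namespace HypM

/-! ### Rules for `pd` -/

theorem pd_const (i : Fin n) (c : ℝ) (y : E n) : pd i (fun _ => c) y = 0 := by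
  simp [pd]

theorem pd_add {f g : E n → ℝ} {y : E n} (i : Fin n) (hf : DifferentiableAt ℝ f y)
    (hg : DifferentiableAt ℝ g y) :
    pd i (fun z => f z + g z) y = pd i f y + pd i g y := by
  simp only [pd]
  rw [fderiv_fun_add hf hg]
  rfl

theorem pd_sub {f g : E n → ℝ} {y : E n} (i : Fin n) (hf : DifferentiableAt ℝ f y)
    (hg : DifferentiableAt ℝ g y) :
    pd i (fun z => f z - g z) y = pd i f y - pd i g y := by
  simp only [pd]
  rw [fderiv_fun_sub hf hg]
  rfl

theorem pd_neg {f : E n → ℝ} {y : E n} (i : Fin n) :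
    pd i (fun z => - f z) y = - pd i f y := by
  simp only [pd]
  rw [fderiv_fun_neg]
  rfl

theorem pd_mul {f g : E n → ℝ} {y : E n} (i : Fin n) (hf : DifferentiableAt ℝ f y)
    (hg : DifferentiableAt ℝ g y) :
    pd i (fun z => f z * g z) y = pd i f y * g y + f y * pd i g y := by
  simp only [pd]
  rw [fderiv_fun_mul hf hg]
  simp only [_root_.add_apply, _root_.smul_apply, smul_eq_mul]
  ring

theorem pd_const_mul {f : E n → ℝ} {y : E n} (i : Fin n) (c : ℝ)
    (hf : DifferentiableAt ℝ f y) :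
    pd i (fun z => c * f z) y = c * pd i f y := by
  rw [pd_mul i (differentiableAt_const c) hf, pd_const]
  ring

theorem pd_sum {ι : Type*} (s : Finset ι) {f : ι → E n → ℝ} {y : E n} (i : Fin n)
    (hf : ∀ a ∈ s, DifferentiableAt ℝ (f a) y) :
    pd i (fun z => ∑ a ∈ s, f a z) y = ∑ a ∈ s, pd i (f a) y := by
  simp only [pd]
  rw [fderiv_fun_sum hf]
  simp

/-- Composition with a function of one real variable. -/
theorem pd_comp {f : E n → ℝ} {φ : ℝ → ℝ} {φ' : ℝ} {y : E n} (i : Fin n)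
    (hφ : HasDerivAt φ φ' (f y)) (hf : DifferentiableAt ℝ f y) :
    pd i (fun z => φ (f z)) y = φ' * pd i f y := by
  have h : HasFDerivAt (fun z => φ (f z)) (φ' • fderiv ℝ f y) y :=
    hφ.comp_hasFDerivAt y hf.hasFDerivAt
  simp only [pd]
  rw [h.fderiv]
  simp

theorem contDiff_coord (j : Fin n) {m : WithTop ℕ∞} : ContDiff ℝ m (fun z : E n => z j) :=
  (EuclideanSpace.proj j : E n →L[ℝ] ℝ).contDiff

theorem diff_coord (j : Fin n) (y : E n) : DifferentiableAt ℝ (fun z : E n => z j) y :=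
  (EuclideanSpace.proj j : E n →L[ℝ] ℝ).differentiableAt

theorem pd_coord (i j : Fin n) (y : E n) :
    pd i (fun z => z j) y = if i = j then 1 else 0 := by
  have h : fderiv ℝ (fun z : E n => z j) y = (EuclideanSpace.proj j : E n →L[ℝ] ℝ) :=
    (EuclideanSpace.proj j : E n →L[ℝ] ℝ).fderiv
  simp only [pd]
  rw [h]
  simp [eq_comm]

/-! ### The function `y₀` -/

theorem one_add_pos (y : E n) : 0 < 1 + ∑ i, y i ^ 2 := by positivity

theorem y0_sq (y : E n) : y0 y ^ 2 = 1 + ∑ i, y i ^ 2 :=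
  Real.sq_sqrt (one_add_pos y).le

theorem y0_pos (y : E n) : 0 < y0 y := Real.sqrt_pos.2 (one_add_pos y)

theorem one_le_y0 (y : E n) : 1 ≤ y0 y := by
  have h : 0 ≤ ∑ i, y i ^ 2 := by positivity
  have := y0_sq y
  nlinarith [y0_pos y]

theorem contDiff_normSq {m : WithTop ℕ∞} : ContDiff ℝ m (fun z : E n => 1 + ∑ i, z i ^ 2) :=
  contDiff_const.add (ContDiff.sum fun i _ => (contDiff_coord i).pow 2)

theorem contDiff_y0 {m : WithTop ℕ∞} : ContDiff ℝ m (y0 (n := n)) :=
  contDiff_normSq.sqrt fun y => (one_add_pos y).ne'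

theorem diff_y0 (y : E n) : DifferentiableAt ℝ (y0 (n := n)) y :=
  (contDiff_y0 (m := 1)).differentiable one_ne_zero y

theorem pd_y0sq (i : Fin n) (y : E n) : pd i (fun z => y0 z ^ 2) y = 2 * y i := by
  have h : (fun z : E n => y0 z ^ 2) = fun z => 1 + ∑ j, z j * z j := by
    funext z
    rw [y0_sq]
    simp [pow_two]
  rw [h, pd_add i (differentiableAt_const _)
    (DifferentiableAt.fun_sum fun j _ => (diff_coord j y).fun_mul (diff_coord j y)),
    pd_const, pd_sum _ _ fun j _ => (diff_coord j y).fun_mul (diff_coord j y)]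
  simp only [pd_mul i (diff_coord _ y) (diff_coord _ y), pd_coord, ite_mul, one_mul, zero_mul,
    mul_ite, mul_one, mul_zero, Finset.sum_add_distrib, Finset.sum_ite_eq, Finset.mem_univ, if_true]
  ring

theorem pd_y0 (i : Fin n) (y : E n) : pd i (y0 (n := n)) y = y i / y0 y := by
  have h := pd_y0sq i y
  have h2 : (fun z : E n => y0 z ^ 2) = fun z => y0 z * y0 z := by
    funext z; ring
  rw [h2, pd_mul i (diff_y0 y) (diff_y0 y)] at h
  have := y0_pos y
  field_simp
  linarith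

/-! ### The matrix of the metric and its inverse -/

theorem gH_apply (y : E n) (i j : Fin n) :
    gH y i j = (if i = j then 1 else 0) - y i * y j / y0 y ^ 2 := rfl

theorem gH_symm (y : E n) (i j : Fin n) : gH y i j = gH y j i := by
  rw [gH_apply, gH_apply]
  simp only [eq_comm (a := i) (b := j)]
  ring

theorem contDiff_gH (i j : Fin n) {m : WithTop ℕ∞} : ContDiff ℝ m (fun y => gH y i j) := by
  have h : (fun y : E n => gH y i j)
      = fun y => (if i = j then 1 else 0) - y i * y j / y0 y ^ 2 := rfl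
  rw [h]
  exact contDiff_const.sub (((contDiff_coord i).mul (contDiff_coord j)).div (contDiff_y0.pow 2)
    fun y => (pow_pos (y0_pos y) 2).ne')

theorem diff_gH (i j : Fin n) (y : E n) : DifferentiableAt ℝ (fun y => gH y i j) y :=
  (contDiff_gH i j (m := 1)).differentiable one_ne_zero y

/-- The inverse of `gH`. -/
noncomputable def GH (y : E n) : Matrix (Fin n) (Fin n) ℝ :=
  Matrix.of fun i j => (if i = j then 1 else 0) + y i * y j

theorem sum_gH_mul (y : E n) (i : Fin n) : ∑ m, gH y i m * y m = y i / y0 y ^ 2 := by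
  have h0 : ∑ m, gH y i m * y m = y i - y i * (∑ m, y m ^ 2) / y0 y ^ 2 := by
    simp only [gH_apply, sub_mul, Finset.sum_sub_distrib]
    congr 1
    · simp
    · rw [Finset.mul_sum, Finset.sum_div]
      refine Finset.sum_congr rfl fun m _ => ?_
      ring
  have h1 : ∑ m, y m ^ 2 = y0 y ^ 2 - 1 := by rw [y0_sq]; ring
  have := y0_pos y
  rw [h0, h1]
  field_simp
  ring

theorem gH_mul_GH (y : E n) : gH y * GH y = 1 := by
  ext i j
  rw [Matrix.mul_apply]
  have h : ∀ m, gH y i m * GH y m j = (if m = j then gH y i m else 0) + gH y i m * y m * y j := by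
    intro m
    simp only [GH, Matrix.of_apply]
    split_ifs <;> ring
  simp only [h, Finset.sum_add_distrib]
  rw [← Finset.sum_mul, sum_gH_mul]
  simp only [Finset.sum_ite_eq', Finset.mem_univ, if_true, Matrix.one_apply, gH_apply]
  ring

theorem inv_gH (y : E n) : (gH y)⁻¹ = GH y := Matrix.inv_eq_right_inv (gH_mul_GH y)

theorem pd_gH (k i j : Fin n) (y : E n) :
    pd k (fun z => gH z i j) y =
      - ((if k = i then 1 else 0) * y j + y i * (if k = j then 1 else 0)) / y0 y ^ 2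
        + 2 * y i * y j * y k / y0 y ^ 4 := by
  have hy := y0_pos y
  have h : (fun z : E n => gH z i j)
      = fun z => (if i = j then 1 else 0) - z i * z j * (y0 z ^ 2)⁻¹ := by
    funext z
    rw [gH_apply, div_eq_mul_inv]
  have hd2 : DifferentiableAt ℝ (fun z : E n => y0 z ^ 2) y := (diff_y0 y).pow 2
  have hd3 : DifferentiableAt ℝ (fun z : E n => (y0 z ^ 2)⁻¹) y := hd2.inv (by positivity)
  rw [h, pd_sub k (differentiableAt_const _) (((diff_coord i y).fun_mul (diff_coord j y)).fun_mul hd3),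
    pd_const, pd_mul k ((diff_coord i y).fun_mul (diff_coord j y)) hd3,
    pd_mul k (diff_coord i y) (diff_coord j y), pd_coord, pd_coord,
    pd_comp (φ := fun t => t⁻¹) k (hasDerivAt_inv (by positivity)) hd2, pd_y0sq]
  field_simp
  ring

/-- The Christoffel symbols of the hyperbolic metric. -/
theorem chr_gH (k i j : Fin n) (y : E n) : chr gH k i j y = - y k * gH y i j := by
  have hy := y0_pos y
  unfold chr
  have h : ∀ l, (gH y)⁻¹ k l *
      (pd i (fun z => gH z j l) y + pd j (fun z => gH z i l) y - pd l (fun z => gH z i j) y)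
      = (-2 * gH y i j / y0 y ^ 2) * (GH y k l * y l) := by
    intro l
    rw [inv_gH, pd_gH, pd_gH, pd_gH, gH_apply]
    simp only [eq_comm (a := l) (b := i), eq_comm (a := l) (b := j), eq_comm (a := j) (b := i)]
    field_simp
    ring
  simp only [h]
  rw [← Finset.mul_sum]
  have h2 : ∑ l, GH y k l * y l = y k * y0 y ^ 2 := by
    simp only [GH, Matrix.of_apply, add_mul, Finset.sum_add_distrib]
    have h3 : ∑ x, y k * y x * y x = y k * ∑ x, y x ^ 2 := by
      rw [Finset.mul_sum]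
      refine Finset.sum_congr rfl fun m _ => ?_
      ring
    rw [h3, y0_sq]
    simp
    ring
  rw [h2]
  field_simp

theorem riem_gH (l k i j : Fin n) (y : E n) :
    riem gH l k i j y
      = - (if i = l then 1 else 0) * gH y j k + (if j = l then 1 else 0) * gH y i k := by
  have hy := y0_pos y
  have hc : ∀ a b c : Fin n, chr (gH (n := n)) a b c = fun z => - z a * gH z b c := by
    intro a b c
    funext z
    exact chr_gH a b c z
  have hp : ∀ a b c d : Fin n, pd a (fun z => - z b * gH z c d) y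
      = - (if a = b then 1 else 0) * gH y c d - y b * pd a (fun z => gH z c d) y := by
    intro a b c d
    rw [pd_mul a (diff_coord b y).fun_neg (diff_gH c d y)]
    have : pd a (fun z : E n => - z b) y = - (if a = b then 1 else 0) := by
      rw [pd_neg (f := fun z : E n => z b), pd_coord]
    rw [this]
    ring
  unfold riem
  simp only [hc, hp]
  have hs : ∑ m, (-y l * gH y i m * (-y m * gH y j k) - -y l * gH y j m * (-y m * gH y i k))
      = y l * gH y j k * (y i / y0 y ^ 2) - y l * gH y i k * (y j / y0 y ^ 2) := by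
    rw [← sum_gH_mul y i, ← sum_gH_mul y j, Finset.mul_sum, Finset.mul_sum,
      ← Finset.sum_sub_distrib]
    refine Finset.sum_congr rfl fun m _ => ?_
    ring
  rw [hs, pd_gH, pd_gH]
  simp only [gH_apply, eq_comm (a := j) (b := i)]
  field_simp
  ring

theorem secNum_gH (y : E n) (X Y : Fin n → ℝ) :
    secNum gH y X Y = - (ip gH y X X * ip gH y Y Y - ip gH y X Y ^ 2) := by
  have h1 : ∀ i j k, ∑ l, ∑ m, gH y l m * riem gH l k i j y * X i * Y j * Y k * X m
      = - (X i * (∑ m, gH y i m * X m)) * (gH y j k * Y j * Y k)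
        + (Y j * ∑ m, gH y j m * X m) * (gH y i k * X i * Y k) := by
    intro i j k
    have h2 : ∀ l, ∑ m, gH y l m * riem gH l k i j y * X i * Y j * Y k * X m
        = (if i = l then - (∑ m, gH y l m * X m) * X i * Y j * Y k * gH y j k else 0)
          + (if j = l then (∑ m, gH y l m * X m) * X i * Y j * Y k * gH y i k else 0) := by
      intro l
      have h3 : ∑ m, gH y l m * riem gH l k i j y * X i * Y j * Y k * X m
          = (∑ m, gH y l m * X m) * (riem gH l k i j y * X i * Y j * Y k) := by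
        rw [Finset.sum_mul]
        refine Finset.sum_congr rfl fun m _ => ?_
        ring
      rw [h3, riem_gH]
      split_ifs <;> ring
    simp only [h2, Finset.sum_add_distrib, Finset.sum_ite_eq, Finset.mem_univ, if_true]
    ring
  unfold secNum
  simp only [h1]
  have h4 : ∀ Z W : Fin n → ℝ, ∑ i, (Z i * ∑ m, gH y i m * W m) = ip gH y Z W := by
    intro Z W
    unfold ip
    refine Finset.sum_congr rfl fun i _ => ?_
    rw [Finset.mul_sum]
    refine Finset.sum_congr rfl fun m _ => ?_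
    ring
  have h5 : ∑ i, ∑ j, ∑ k, (- (X i * (∑ m, gH y i m * X m)) * (gH y j k * Y j * Y k)
        + (Y j * ∑ m, gH y j m * X m) * (gH y i k * X i * Y k))
      = - ((∑ i, (X i * ∑ m, gH y i m * X m)) * (∑ j, ∑ k, gH y j k * Y j * Y k))
        + (∑ j, (Y j * ∑ m, gH y j m * X m)) * (∑ i, ∑ k, gH y i k * X i * Y k) := by
    simp only [Finset.sum_add_distrib]
    congr 1
    · have h9 : ∀ a b : Fin n → ℝ, ∀ c : Fin n → Fin n → ℝ,
          ∑ i : Fin n, ∑ j : Fin n, ∑ k : Fin n, - (a i * b i) * c j k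
            = - ((∑ i, a i * b i) * ∑ j, ∑ k, c j k) := by
        intro a b c
        rw [Finset.sum_mul, ← Finset.sum_neg_distrib]
        refine Finset.sum_congr rfl fun i _ => ?_
        rw [Finset.mul_sum, ← Finset.sum_neg_distrib]
        refine Finset.sum_congr rfl fun j _ => ?_
        rw [Finset.mul_sum, ← Finset.sum_neg_distrib]
        refine Finset.sum_congr rfl fun k _ => ?_
        ring
      exact h9 X (fun i => ∑ m, gH y i m * X m) (fun j k => gH y j k * Y j * Y k)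
    · have h8 : ∀ a b : Fin n → ℝ, ∀ c : Fin n → Fin n → ℝ,
          ∑ i : Fin n, ∑ j : Fin n, ∑ k : Fin n, (a j * b j) * c i k
            = (∑ j, a j * b j) * ∑ i, ∑ k, c i k := by
        intro a b c
        rw [Finset.sum_comm, Finset.sum_mul]
        refine Finset.sum_congr rfl fun j _ => ?_
        rw [Finset.mul_sum]
        refine Finset.sum_congr rfl fun i _ => ?_
        rw [Finset.mul_sum]
      exact h8 Y (fun j => ∑ m, gH y j m * X m) (fun i k => gH y i k * X i * Y k)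
  rw [h5, h4, h4]
  have h6 : ip gH y Y X = ip gH y X Y := by
    unfold ip
    rw [Finset.sum_comm]
    refine Finset.sum_congr rfl fun i _ => Finset.sum_congr rfl fun j _ => ?_
    rw [gH_symm y j i]
    ring
  have h7 : ∀ Z W : Fin n → ℝ, ∑ j, ∑ k, gH y j k * Z j * W k = ip gH y Z W := fun Z W => rfl
  rw [h7, h7, h6]
  ring

/-! ### Positivity, sectional curvature -/

theorem ip_gH (y : E n) (X Y : Fin n → ℝ) :
    ip gH y X Y = ∑ i, X i * Y i - (∑ i, y i * X i) * (∑ i, y i * Y i) / y0 y ^ 2 := by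
  unfold ip
  have h : ∀ i, ∑ j, gH y i j * X i * Y j
      = X i * Y i - (y i * X i) * (∑ j, y j * Y j) / y0 y ^ 2 := by
    intro i
    have h1 : ∀ j, gH y i j * X i * Y j
        = (if i = j then X i * Y j else 0) - (y i * X i / y0 y ^ 2) * (y j * Y j) := by
      intro j
      rw [gH_apply]
      split_ifs <;> ring
    simp only [h1, Finset.sum_sub_distrib, Finset.sum_ite_eq, Finset.mem_univ, if_true]
    rw [← Finset.mul_sum]
    ring
  simp only [h, Finset.sum_sub_distrib]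
  rw [← Finset.sum_div, ← Finset.sum_mul]

theorem ip_gH_pos (y : E n) {X : Fin n → ℝ} (hX : X ≠ 0) : 0 < ip gH y X X := by
  have hy := y0_pos y
  have h1 : (∑ i, y i * X i) ^ 2 ≤ (∑ i, y i ^ 2) * ∑ i, X i ^ 2 :=
    Finset.sum_mul_sq_le_sq_mul_sq _ _ _
  have h2 : 0 < ∑ i, X i ^ 2 := by
    obtain ⟨i, hi⟩ := Function.ne_iff.1 hX
    refine Finset.sum_pos' (fun j _ => sq_nonneg _) ⟨i, Finset.mem_univ _, ?_⟩
    have : X i ≠ 0 := hi
    positivity
  have h3 : ∑ i, y i ^ 2 = y0 y ^ 2 - 1 := by rw [y0_sq]; ring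
  rw [h3] at h1
  have h4 : ∑ i, X i * X i = ∑ i, X i ^ 2 := Finset.sum_congr rfl fun i _ => (pow_two _).symm
  rw [ip_gH, h4, sub_pos, div_lt_iff₀ (by positivity)]
  nlinarith

theorem ip_eq_dot (g : MF n) (y : E n) (X Y : Fin n → ℝ) : ip g y X Y = X ⬝ᵥ (g y *ᵥ Y) := by
  simp only [ip, dotProduct, Matrix.mulVec, Finset.mul_sum]
  refine Finset.sum_congr rfl fun i _ => Finset.sum_congr rfl fun j _ => ?_
  ring

theorem posDef_gH (y : E n) : (gH y).PosDef := by
  rw [Matrix.posDef_iff_dotProduct_mulVec]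
  refine ⟨?_, fun {X} hX => ?_⟩
  · ext i j
    simp only [Matrix.conjTranspose_apply, star_trivial]
    exact gH_symm y j i
  · have := ip_gH_pos y hX
    rw [ip_eq_dot] at this
    simpa using this

/-- Strict Cauchy-Schwarz for a positive definite form. -/
theorem gram_pos {g : MF n} {y : E n} (hg : (g y).PosDef) {X Y : Fin n → ℝ}
    (h : LinearIndependent ℝ ![X, Y]) : 0 < ip g y X X * ip g y Y Y - ip g y X Y ^ 2 := by
  rw [Matrix.posDef_iff_dotProduct_mulVec] at hg
  have hpos : ∀ Z : Fin n → ℝ, Z ≠ 0 → 0 < ip g y Z Z := by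
    intro Z hZ
    rw [ip_eq_dot]
    simpa using hg.2 hZ
  have hsymm : ip g y Y X = ip g y X Y := by
    unfold ip
    rw [Finset.sum_comm]
    refine Finset.sum_congr rfl fun i _ => Finset.sum_congr rfl fun j _ => ?_
    have : g y j i = g y i j := by
      have := congrFun (congrFun hg.1 i) j
      simpa using this
    rw [this]
    ring
  have hY : Y ≠ 0 := h.ne_zero 1
  have hb := hpos Y hY
  set a := ip g y X X
  set b := ip g y Y Y with hbdef
  set c := ip g y X Y with hc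
  have hZ : (fun i => b * X i - c * Y i) ≠ 0 := by
    intro h0
    have h1 := LinearIndependent.pair_iff.1 h b (-c) (by
      funext i
      have := congrFun h0 i
      simp only [Pi.add_apply, Pi.smul_apply, smul_eq_mul, Pi.zero_apply] at this ⊢
      linarith)
    exact hb.ne' h1.1
  have h2 := hpos _ hZ
  have h3 : ip g y (fun i => b * X i - c * Y i) (fun i => b * X i - c * Y i)
      = b ^ 2 * ip g y X X - b * c * ip g y X Y - c * b * ip g y Y X + c ^ 2 * ip g y Y Y := by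
    unfold ip
    simp only [Finset.mul_sum, ← Finset.sum_sub_distrib, ← Finset.sum_add_distrib]
    refine Finset.sum_congr rfl fun i _ => Finset.sum_congr rfl fun j _ => ?_
    ring
  rw [h3, hsymm, ← hbdef, ← hc] at h2
  change 0 < b ^ 2 * a - b * c * c - c * b * c + c ^ 2 * b at h2
  have h4 : b ^ 2 * a - b * c * c - c * b * c + c ^ 2 * b = b * (a * b - c ^ 2) := by ring
  rw [h4] at h2
  exact (pos_iff_pos_of_mul_pos h2).1 hb

theorem sec_gH (y : E n) {X Y : Fin n → ℝ} (h : LinearIndependent ℝ ![X, Y]) :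
    sec gH y X Y = -1 := by
  have := gram_pos (posDef_gH y) h
  unfold sec
  rw [secNum_gH, neg_div, div_self this.ne']

theorem secInE_gH : SecInE (gH (n := n)) {-1} := fun y _ _ h => sec_gH y h

end HypM

end Pool.Agent.Lib.MPdbccd7
end

section
/-!
# Calculus of the hyperbolic metric in graph coordinates (section 0 of the proof text)

`eul f = ∑ y_i ∂_i f`, `gr0 f h = ⟨df, dh⟩₀`, `lpn f = Δ₀ f` in all dimensions (`lap0`, `gam0`, `Dd` of `DefsB.lean` for
`n = m + 3`: last section), product and chain rules, values for the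
coordinates, `y₀`, the Klein functions `y_i / y₀` and `log y₀`.
-/
open scoped Manifold ContDiff Matrix Topology

namespace Pool.Agent.Lib.MPdbccd7

variable {n : ℕ}

namespace C0

open HypM

/-- The Euler field `∑ y_i ∂_i f`. -/
noncomputable def eul (f : E n → ℝ) (y : E n) : ℝ := ∑ i, y i * pd i f y

/-- `⟨df, dh⟩₀ = ∑ ∂_i f ∂_i h + (eul f) (eul h)`. -/
noncomputable def gr0 (f h : E n → ℝ) (y : E n) : ℝ :=
  ∑ i, pd i f y * pd i h y + eul f y * eul h y

/-- `Δ₀ f = ∑ (δ_ij + y_i y_j) ∂_i ∂_j f + n eul f`. -/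
noncomputable def lpn (f : E n → ℝ) (y : E n) : ℝ :=
  ∑ i, ∑ j, ((if i = j then 1 else 0) + y i * y j) * pd i (pd j f) y + n * eul f y

variable {f g h : E n → ℝ} {y : E n}

theorem pd_congr (i : Fin n) (h : f =ᶠ[𝓝 y] g) : pd i f y = pd i g y := by
  simp only [pd]
  rw [h.fderiv_eq]

theorem pd_eventuallyEq (i : Fin n) (h : f =ᶠ[𝓝 y] g) : pd i f =ᶠ[𝓝 y] pd i g := by
  have := h.fderiv (𝕜 := ℝ)
  filter_upwards [this] with z hz
  simp only [pd]
  rw [hz]

theorem contDiffAt_pd (i : Fin n) {m k : WithTop ℕ∞} (hf : ContDiffAt ℝ k f y) (hm : m + 1 ≤ k) :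
    ContDiffAt ℝ m (pd i f) y :=
  (hf.fderiv_right hm).clm_apply contDiffAt_const

theorem contDiff_pd (i : Fin n) (hf : ContDiff ℝ ∞ f) : ContDiff ℝ ∞ (pd i f) :=
  contDiff_iff_contDiffAt.2 fun _ => contDiffAt_pd i hf.contDiffAt (by simp)

theorem diff_pd (i : Fin n) (hf : ContDiffAt ℝ 2 f y) : DifferentiableAt ℝ (pd i f) y :=
  (contDiffAt_pd i hf (m := 1) (by norm_num)).differentiableAt one_ne_zero

theorem diff_of (hf : ContDiffAt ℝ 2 f y) : DifferentiableAt ℝ f y :=
  hf.differentiableAt two_ne_zero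

theorem ev_diff (hf : ContDiffAt ℝ 2 f y) : ∀ᶠ z in 𝓝 y, DifferentiableAt ℝ f z :=
  (hf.eventually (by simp)).mono fun _ hz => hz.differentiableAt two_ne_zero

theorem pd_pd_comm (i j : Fin n) (hf : ContDiffAt ℝ 2 f y) :
    pd i (pd j f) y = pd j (pd i f) y := by
  have h1 : DifferentiableAt ℝ (fderiv ℝ f) y :=
    (hf.fderiv_right (m := 1) (by norm_num)).differentiableAt one_ne_zero
  have h2 : ∀ a b : Fin n, pd a (pd b f) y
      = fderiv ℝ (fderiv ℝ f) y (EuclideanSpace.single a 1) (EuclideanSpace.single b 1) := by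
    intro a b
    change fderiv ℝ (fun z => fderiv ℝ f z (EuclideanSpace.single b 1)) y
      (EuclideanSpace.single a 1) = _
    have : fderiv ℝ (fun z => fderiv ℝ f z (EuclideanSpace.single b 1)) y
        = (fderiv ℝ (fderiv ℝ f) y).flip (EuclideanSpace.single b 1) := by
      rw [fderiv_clm_apply h1 (differentiableAt_const _)]
      simp
    rw [this]
    rfl
  rw [h2, h2]
  exact (hf.isSymmSndFDerivAt (by simp)).eq _ _

theorem pd_pd_add (i j : Fin n) (hf : ContDiffAt ℝ 2 f y) (hg : ContDiffAt ℝ 2 g y) :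
    pd i (pd j (fun z => f z + g z)) y = pd i (pd j f) y + pd i (pd j g) y := by
  have h1 : pd j (fun z => f z + g z) =ᶠ[𝓝 y] fun z => pd j f z + pd j g z := by
    filter_upwards [ev_diff hf, ev_diff hg] with z h1 h2
    exact pd_add j h1 h2
  rw [pd_congr i h1, pd_add i (diff_pd j hf) (diff_pd j hg)]

theorem pd_pd_sub (i j : Fin n) (hf : ContDiffAt ℝ 2 f y) (hg : ContDiffAt ℝ 2 g y) :
    pd i (pd j (fun z => f z - g z)) y = pd i (pd j f) y - pd i (pd j g) y := by
  have h1 : pd j (fun z => f z - g z) =ᶠ[𝓝 y] fun z => pd j f z - pd j g z := by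
    filter_upwards [ev_diff hf, ev_diff hg] with z h1 h2
    exact pd_sub j h1 h2
  rw [pd_congr i h1, pd_sub i (diff_pd j hf) (diff_pd j hg)]

theorem pd_pd_mul (i j : Fin n) (hf : ContDiffAt ℝ 2 f y) (hg : ContDiffAt ℝ 2 g y) :
    pd i (pd j (fun z => f z * g z)) y
      = pd i (pd j f) y * g y + pd j f y * pd i g y + (pd i f y * pd j g y
        + f y * pd i (pd j g) y) := by
  have h1 : pd j (fun z => f z * g z) =ᶠ[𝓝 y] fun z => pd j f z * g z + f z * pd j g z := by
    filter_upwards [ev_diff hf, ev_diff hg] with z h1 h2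
    exact pd_mul j h1 h2
  rw [pd_congr i h1, pd_add i ((diff_pd j hf).fun_mul (diff_of hg))
    ((diff_of hf).fun_mul (diff_pd j hg)), pd_mul i (diff_pd j hf) (diff_of hg),
    pd_mul i (diff_of hf) (diff_pd j hg)]

/-- Second derivatives of `φ ∘ f`. -/
theorem pd_pd_comp (i j : Fin n) {φ φ' : ℝ → ℝ} {φ'' : ℝ}
    (h1 : ∀ᶠ z in 𝓝 y, HasDerivAt φ (φ' (f z)) (f z)) (h2 : HasDerivAt φ' φ'' (f y))
    (hf : ContDiffAt ℝ 2 f y) :
    pd i (pd j (fun z => φ (f z))) y
      = φ'' * pd i f y * pd j f y + φ' (f y) * pd i (pd j f) y := by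
  have h3 : pd j (fun z => φ (f z)) =ᶠ[𝓝 y] fun z => φ' (f z) * pd j f z := by
    filter_upwards [ev_diff hf, h1] with z h4 h5
    exact pd_comp j h5 h4
  have h4 : DifferentiableAt ℝ (fun z => φ' (f z)) y :=
    (h2.differentiableAt.comp y (diff_of hf) :)
  rw [pd_congr i h3, pd_mul i h4 (diff_pd j hf), pd_comp i h2 (diff_of hf)]

/-! ### `eul` -/

theorem eul_const (c : ℝ) (y : E n) : eul (fun _ => c) y = 0 := by
  simp [eul, pd_const]

theorem eul_add (hf : DifferentiableAt ℝ f y) (hg : DifferentiableAt ℝ g y) :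
    eul (fun z => f z + g z) y = eul f y + eul g y := by
  simp only [eul, pd_add _ hf hg, mul_add, Finset.sum_add_distrib]

theorem eul_sub (hf : DifferentiableAt ℝ f y) (hg : DifferentiableAt ℝ g y) :
    eul (fun z => f z - g z) y = eul f y - eul g y := by
  simp only [eul, pd_sub _ hf hg, mul_sub, Finset.sum_sub_distrib]

theorem eul_mul (hf : DifferentiableAt ℝ f y) (hg : DifferentiableAt ℝ g y) :
    eul (fun z => f z * g z) y = eul f y * g y + f y * eul g y := by
  simp only [eul, pd_mul _ hf hg, mul_add, Finset.sum_add_distrib, Finset.sum_mul,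
    Finset.mul_sum]
  congr 1 <;> refine Finset.sum_congr rfl fun i _ => ?_ <;> ring

theorem eul_const_mul (c : ℝ) (hf : DifferentiableAt ℝ f y) :
    eul (fun z => c * f z) y = c * eul f y := by
  rw [eul_mul (differentiableAt_const c) hf, eul_const]
  ring

theorem eul_comp {φ : ℝ → ℝ} {φ' : ℝ} (hφ : HasDerivAt φ φ' (f y))
    (hf : DifferentiableAt ℝ f y) : eul (fun z => φ (f z)) y = φ' * eul f y := by
  simp only [eul, pd_comp _ hφ hf, Finset.mul_sum]
  refine Finset.sum_congr rfl fun i _ => ?_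
  ring

theorem eul_congr (h : f =ᶠ[𝓝 y] g) : eul f y = eul g y := by
  simp only [eul, pd_congr _ h]

/-! ### `gr0` -/

theorem gr0_comm (f h : E n → ℝ) (y : E n) : gr0 f h y = gr0 h f y := by
  simp only [gr0, mul_comm]

theorem gr0_const_left (c : ℝ) (h : E n → ℝ) (y : E n) : gr0 (fun _ => c) h y = 0 := by
  simp [gr0, pd_const, eul_const]

theorem gr0_add_left (h : E n → ℝ) (hf : DifferentiableAt ℝ f y) (hg : DifferentiableAt ℝ g y) :
    gr0 (fun z => f z + g z) h y = gr0 f h y + gr0 g h y := by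
  simp only [gr0, pd_add _ hf hg, eul_add hf hg, add_mul, Finset.sum_add_distrib]
  ring

theorem gr0_sub_left (h : E n → ℝ) (hf : DifferentiableAt ℝ f y) (hg : DifferentiableAt ℝ g y) :
    gr0 (fun z => f z - g z) h y = gr0 f h y - gr0 g h y := by
  simp only [gr0, pd_sub _ hf hg, eul_sub hf hg, sub_mul, Finset.sum_sub_distrib]
  ring

theorem gr0_mul_left (h : E n → ℝ) (hf : DifferentiableAt ℝ f y) (hg : DifferentiableAt ℝ g y) :
    gr0 (fun z => f z * g z) h y = g y * gr0 f h y + f y * gr0 g h y := by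
  simp only [gr0, pd_mul _ hf hg, eul_mul hf hg]
  have : ∑ i, (pd i f y * g y + f y * pd i g y) * pd i h y
      = g y * ∑ i, pd i f y * pd i h y + f y * ∑ i, pd i g y * pd i h y := by
    rw [Finset.mul_sum, Finset.mul_sum, ← Finset.sum_add_distrib]
    refine Finset.sum_congr rfl fun i _ => ?_
    ring
  rw [this]
  ring

theorem gr0_const_mul_left (c : ℝ) (h : E n → ℝ) (hf : DifferentiableAt ℝ f y) :
    gr0 (fun z => c * f z) h y = c * gr0 f h y := by
  rw [gr0_mul_left h (differentiableAt_const c) hf, gr0_const_left]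
  ring

theorem gr0_comp_left {φ : ℝ → ℝ} {φ' : ℝ} (h : E n → ℝ) (hφ : HasDerivAt φ φ' (f y))
    (hf : DifferentiableAt ℝ f y) : gr0 (fun z => φ (f z)) h y = φ' * gr0 f h y := by
  simp only [gr0, pd_comp _ hφ hf, eul_comp hφ hf]
  have : ∑ i, φ' * pd i f y * pd i h y = φ' * ∑ i, pd i f y * pd i h y := by
    rw [Finset.mul_sum]
    refine Finset.sum_congr rfl fun i _ => ?_
    ring
  rw [this]
  ring

theorem gr0_add_right (h : E n → ℝ) (hf : DifferentiableAt ℝ f y) (hg : DifferentiableAt ℝ g y) :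
    gr0 h (fun z => f z + g z) y = gr0 h f y + gr0 h g y := by
  rw [gr0_comm, gr0_add_left h hf hg, gr0_comm f, gr0_comm g]

theorem gr0_sub_right (h : E n → ℝ) (hf : DifferentiableAt ℝ f y) (hg : DifferentiableAt ℝ g y) :
    gr0 h (fun z => f z - g z) y = gr0 h f y - gr0 h g y := by
  rw [gr0_comm, gr0_sub_left h hf hg, gr0_comm f, gr0_comm g]

theorem gr0_mul_right (h : E n → ℝ) (hf : DifferentiableAt ℝ f y) (hg : DifferentiableAt ℝ g y) :
    gr0 h (fun z => f z * g z) y = g y * gr0 h f y + f y * gr0 h g y := by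
  rw [gr0_comm, gr0_mul_left h hf hg, gr0_comm f, gr0_comm g]

theorem gr0_const_mul_right (c : ℝ) (h : E n → ℝ) (hf : DifferentiableAt ℝ f y) :
    gr0 h (fun z => c * f z) y = c * gr0 h f y := by
  rw [gr0_comm, gr0_const_mul_left c h hf, gr0_comm f]

theorem gr0_comp_right {φ : ℝ → ℝ} {φ' : ℝ} (h : E n → ℝ) (hφ : HasDerivAt φ φ' (f y))
    (hf : DifferentiableAt ℝ f y) : gr0 h (fun z => φ (f z)) y = φ' * gr0 h f y := by
  rw [gr0_comm, gr0_comp_left h hφ hf, gr0_comm f]

theorem gr0_nonneg (f : E n → ℝ) (y : E n) : 0 ≤ gr0 f f y := by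
  unfold gr0
  have : 0 ≤ ∑ i, pd i f y * pd i f y := Finset.sum_nonneg fun i _ => mul_self_nonneg _
  nlinarith [mul_self_nonneg (eul f y)]

/-- Cauchy-Schwarz. -/
theorem gr0_sq_le (f h : E n → ℝ) (y : E n) : gr0 f h y ^ 2 ≤ gr0 f f y * gr0 h h y := by
  have hq : ∀ s : ℝ, 0 ≤ gr0 f f y * (s * s) + (2 * gr0 f h y) * s + gr0 h h y := by
    intro s
    have h1 : gr0 f f y * (s * s) + (2 * gr0 f h y) * s + gr0 h h y
        = ∑ i, (s * pd i f y + pd i h y) * (s * pd i f y + pd i h y)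
          + (s * eul f y + eul h y) * (s * eul f y + eul h y) := by
      simp only [gr0]
      have h2 : ∑ i, (s * pd i f y + pd i h y) * (s * pd i f y + pd i h y)
          = s * s * ∑ i, pd i f y * pd i f y + 2 * s * ∑ i, pd i f y * pd i h y
            + ∑ i, pd i h y * pd i h y := by
        rw [Finset.mul_sum, Finset.mul_sum, ← Finset.sum_add_distrib, ← Finset.sum_add_distrib]
        refine Finset.sum_congr rfl fun i _ => ?_
        ring
      rw [h2]
      ring
    rw [h1]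
    have : 0 ≤ ∑ i, (s * pd i f y + pd i h y) * (s * pd i f y + pd i h y) :=
      Finset.sum_nonneg fun i _ => mul_self_nonneg _
    nlinarith [mul_self_nonneg (s * eul f y + eul h y)]
  have := discrim_le_zero hq
  unfold discrim at this
  nlinarith

/-! ### `lpn` -/

theorem sum_form (a b : Fin n → ℝ) (y : E n) :
    ∑ i, ∑ j, ((if i = j then 1 else 0) + y i * y j) * (a i * b j)
      = ∑ i, a i * b i + (∑ i, y i * a i) * ∑ j, y j * b j := by
  have h1 : ∀ i, ∑ j, ((if i = j then 1 else 0) + y i * y j) * (a i * b j)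
      = a i * b i + (y i * a i) * ∑ j, y j * b j := by
    intro i
    have h2 : ∀ j, ((if i = j then 1 else 0) + y i * y j) * (a i * b j)
        = (if i = j then a i * b j else 0) + (y i * a i) * (y j * b j) := by
      intro j
      split_ifs <;> ring
    simp only [h2, Finset.sum_add_distrib, Finset.sum_ite_eq, Finset.mem_univ, if_true]
    rw [← Finset.mul_sum]
  simp only [h1, Finset.sum_add_distrib]
  rw [← Finset.sum_mul]

theorem sum_form_gr0 (f h : E n → ℝ) (y : E n) :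
    ∑ i, ∑ j, ((if i = j then 1 else 0) + y i * y j) * (pd i f y * pd j h y) = gr0 f h y := by
  rw [sum_form]
  rfl

theorem sum_form_gr0' (f h : E n → ℝ) (y : E n) :
    ∑ i, ∑ j, ((if i = j then 1 else 0) + y i * y j) * (pd j f y * pd i h y) = gr0 f h y := by
  rw [gr0_comm, ← sum_form_gr0]
  refine Finset.sum_congr rfl fun i _ => Finset.sum_congr rfl fun j _ => ?_
  ring

theorem pd_const_fun (j : Fin n) (c : ℝ) : pd j (fun _ : E n => c) = fun _ => 0 := by
  funext z
  exact pd_const j c z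

theorem lpn_const (c : ℝ) (y : E n) : lpn (fun _ => c) y = 0 := by
  simp [lpn, pd_const_fun, eul_const, pd_const]

theorem lpn_congr (h : f =ᶠ[𝓝 y] g) : lpn f y = lpn g y := by
  simp only [lpn, eul_congr h]
  congr 1
  refine Finset.sum_congr rfl fun i _ => Finset.sum_congr rfl fun j _ => ?_
  rw [pd_congr i (pd_eventuallyEq j h)]

theorem lpn_add (hf : ContDiffAt ℝ 2 f y) (hg : ContDiffAt ℝ 2 g y) :
    lpn (fun z => f z + g z) y = lpn f y + lpn g y := by
  simp only [lpn, pd_pd_add _ _ hf hg, eul_add (diff_of hf) (diff_of hg), mul_add,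
    Finset.sum_add_distrib]
  ring

theorem lpn_sub (hf : ContDiffAt ℝ 2 f y) (hg : ContDiffAt ℝ 2 g y) :
    lpn (fun z => f z - g z) y = lpn f y - lpn g y := by
  simp only [lpn, pd_pd_sub _ _ hf hg, eul_sub (diff_of hf) (diff_of hg), mul_sub,
    Finset.sum_sub_distrib]
  ring

theorem lpn_mul (hf : ContDiffAt ℝ 2 f y) (hg : ContDiffAt ℝ 2 g y) :
    lpn (fun z => f z * g z) y = g y * lpn f y + f y * lpn g y + 2 * gr0 f g y := by
  have h1 : ∑ i, ∑ j, ((if i = j then 1 else 0) + y i * y j) *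
        pd i (pd j (fun z => f z * g z)) y
      = g y * (∑ i, ∑ j, ((if i = j then 1 else 0) + y i * y j) * pd i (pd j f) y)
        + f y * (∑ i, ∑ j, ((if i = j then 1 else 0) + y i * y j) * pd i (pd j g) y)
        + (∑ i, ∑ j, ((if i = j then 1 else 0) + y i * y j) * (pd j f y * pd i g y))
        + (∑ i, ∑ j, ((if i = j then 1 else 0) + y i * y j) * (pd i f y * pd j g y)) := by
    simp only [Finset.mul_sum, ← Finset.sum_add_distrib]
    refine Finset.sum_congr rfl fun i _ => Finset.sum_congr rfl fun j _ => ?_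
    rw [pd_pd_mul i j hf hg]
    ring
  unfold lpn
  rw [h1, sum_form_gr0, sum_form_gr0', eul_mul (diff_of hf) (diff_of hg)]
  ring

theorem lpn_const_mul (c : ℝ) (hf : ContDiffAt ℝ 2 f y) :
    lpn (fun z => c * f z) y = c * lpn f y := by
  rw [lpn_mul contDiffAt_const hf, lpn_const, gr0_const_left]
  ring

theorem lpn_comp {φ φ' : ℝ → ℝ} {φ'' : ℝ}
    (h1 : ∀ᶠ z in 𝓝 y, HasDerivAt φ (φ' (f z)) (f z)) (h2 : HasDerivAt φ' φ'' (f y))
    (hf : ContDiffAt ℝ 2 f y) :
    lpn (fun z => φ (f z)) y = φ' (f y) * lpn f y + φ'' * gr0 f f y := by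
  have h3 : ∑ i, ∑ j, ((if i = j then 1 else 0) + y i * y j) *
        pd i (pd j (fun z => φ (f z))) y
      = φ' (f y) * (∑ i, ∑ j, ((if i = j then 1 else 0) + y i * y j) * pd i (pd j f) y)
        + φ'' * (∑ i, ∑ j, ((if i = j then 1 else 0) + y i * y j) * (pd i f y * pd j f y)) := by
    simp only [Finset.mul_sum, ← Finset.sum_add_distrib]
    refine Finset.sum_congr rfl fun i _ => Finset.sum_congr rfl fun j _ => ?_
    rw [pd_pd_comp i j h1 h2 hf]
    ring
  unfold lpn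
  rw [h3, sum_form_gr0, eul_comp h1.self_of_nhds (diff_of hf)]
  ring

/-! ### Coordinates -/

theorem cd_coord (k : Fin n) {m : WithTop ℕ∞} (y : E n) :
    ContDiffAt ℝ m (fun z : E n => z k) y := (contDiff_coord k).contDiffAt

theorem pd_coord_fun (j k : Fin n) :
    pd j (fun z : E n => z k) = fun _ => if j = k then 1 else 0 := by
  funext z
  exact pd_coord j k z

theorem pd_pd_coord (i j k : Fin n) (y : E n) : pd i (pd j (fun z : E n => z k)) y = 0 := by
  rw [pd_coord_fun, pd_const]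

theorem eul_coord (k : Fin n) (y : E n) : eul (fun z : E n => z k) y = y k := by
  simp [eul, pd_coord]

theorem lpn_coord (k : Fin n) (y : E n) : lpn (fun z : E n => z k) y = n * y k := by
  simp [lpn, pd_pd_coord, eul_coord]

theorem gr0_coord (i j : Fin n) (y : E n) :
    gr0 (fun z : E n => z i) (fun z => z j) y = (if i = j then 1 else 0) + y i * y j := by
  simp only [gr0, pd_coord, eul_coord]
  congr 1
  simp [eq_comm]

theorem gr0_coord_left (i : Fin n) (f : E n → ℝ) (y : E n) :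
    gr0 (fun z : E n => z i) f y = pd i f y + y i * eul f y := by
  simp [gr0, pd_coord, eul_coord]

/-! ### `y₀` -/

theorem cd_y0 {m : WithTop ℕ∞} (y : E n) : ContDiffAt ℝ m (y0 (n := n)) y :=
  contDiff_y0.contDiffAt

theorem sum_sq (y : E n) : ∑ i, y i * y i = y0 y ^ 2 - 1 := by
  rw [y0_sq]
  simp [pow_two]

theorem eul_y0 (y : E n) : eul (y0 (n := n)) y = (y0 y ^ 2 - 1) / y0 y := by
  simp only [eul, pd_y0]
  have : ∀ i, y i * (y i / y0 y) = (y i * y i) / y0 y := fun i => by ring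
  simp only [this]
  rw [← Finset.sum_div, sum_sq]

theorem pd_pd_y0 (i j : Fin n) (y : E n) :
    pd i (pd j (y0 (n := n))) y = ((if i = j then 1 else 0) - y i * y j / y0 y ^ 2) / y0 y := by
  have hy := y0_pos y
  have h : pd j (y0 (n := n)) = fun z => z j * (y0 z)⁻¹ := by
    funext z
    rw [pd_y0, div_eq_mul_inv]
  rw [h, pd_mul i (diff_coord j y) ((diff_y0 y).fun_inv hy.ne'), pd_coord,
    pd_comp (φ := fun t => t⁻¹) i (hasDerivAt_inv hy.ne') (diff_y0 y), pd_y0]
  field_simp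
  ring

theorem gr0_coord_y0 (i : Fin n) (y : E n) : gr0 (fun z : E n => z i) y0 y = y i * y0 y := by
  have hy := y0_pos y
  rw [gr0_coord_left, pd_y0, eul_y0]
  field_simp
  ring

theorem gr0_y0 (y : E n) : gr0 (y0 (n := n)) y0 y = y0 y ^ 2 - 1 := by
  have hy := y0_pos y
  have : ∑ i, pd i y0 y * pd i y0 y = (y0 y ^ 2 - 1) / y0 y ^ 2 := by
    rw [← sum_sq, Finset.sum_div]
    refine Finset.sum_congr rfl fun i _ => ?_
    rw [pd_y0]
    field_simp
  unfold gr0
  rw [this, eul_y0]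
  field_simp
  ring

theorem lpn_y0 (y : E n) : lpn (y0 (n := n)) y = n * y0 y := by
  have hy := y0_pos y
  unfold lpn
  have h1 : ∀ i j, ((if i = j then 1 else 0) + y i * y j) * pd i (pd j (y0 (n := n))) y
      = (if i = j then (1 + y i * y j - y i * y j / y0 y ^ 2) / y0 y else 0)
        - (y i * y i) * (y j * y j) / y0 y ^ 3 := by
    intro i j
    rw [pd_pd_y0]
    split_ifs with h
    · subst h
      field_simp
      ring
    · field_simp
      ring
  simp only [h1, Finset.sum_sub_distrib, Finset.sum_ite_eq, Finset.mem_univ, if_true]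
  have h2 : ∑ i, (1 + y i * y i - y i * y i / y0 y ^ 2) / y0 y
      = (n + (y0 y ^ 2 - 1) - (y0 y ^ 2 - 1) / y0 y ^ 2) / y0 y := by
    rw [← Finset.sum_div, Finset.sum_sub_distrib, Finset.sum_add_distrib, ← Finset.sum_div, sum_sq]
    simp
  have h3 : ∑ i, ∑ j, (y i * y i) * (y j * y j) / y0 y ^ 3
      = (y0 y ^ 2 - 1) * (y0 y ^ 2 - 1) / y0 y ^ 3 := by
    simp only [← Finset.sum_div, ← Finset.mul_sum, ← Finset.sum_mul, sum_sq]
  rw [h2, h3, eul_y0]
  field_simp
  ring

/-! ### Linear functions `a₀ y₀ + ∑ a_i y_i` -/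

/-- The linear function with coefficients `a₀`, `a`. -/
noncomputable def lin (a0 : ℝ) (a : Fin n → ℝ) (y : E n) : ℝ := a0 * y0 y + ∑ i, a i * y i

theorem cd_lin (a0 : ℝ) (a : Fin n → ℝ) {m : WithTop ℕ∞} : ContDiff ℝ m (lin a0 a) :=
  (contDiff_const.mul contDiff_y0).add
    (ContDiff.sum fun i _ => contDiff_const.mul (contDiff_coord i))

theorem pd_lin (a0 : ℝ) (a : Fin n → ℝ) (i : Fin n) (y : E n) :
    pd i (lin a0 a) y = a0 * (y i / y0 y) + a i := by
  have h : lin a0 a = fun z : E n => a0 * y0 z + ∑ j, a j * z j := rfl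
  rw [h, pd_add i ((diff_y0 y).const_mul a0)
    (DifferentiableAt.fun_sum fun j _ => (diff_coord j y).const_mul (a j)),
    pd_const_mul i a0 (diff_y0 y), pd_y0,
    pd_sum _ i fun j _ => (diff_coord j y).const_mul (a j)]
  congr 1
  simp only [pd_const_mul i (a _) (diff_coord _ y), pd_coord]
  simp

theorem eul_lin (a0 : ℝ) (a : Fin n → ℝ) (y : E n) :
    eul (lin a0 a) y = lin a0 a y - a0 / y0 y := by
  have hy := y0_pos y
  simp only [eul, pd_lin, mul_add, Finset.sum_add_distrib, lin]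
  have h1 : ∑ i, y i * (a0 * (y i / y0 y)) = a0 * (y0 y ^ 2 - 1) / y0 y := by
    rw [← sum_sq, Finset.mul_sum, Finset.sum_div]
    refine Finset.sum_congr rfl fun i _ => ?_
    field_simp
  have h2 : ∑ i, y i * a i = ∑ i, a i * y i := Finset.sum_congr rfl fun i _ => mul_comm _ _
  rw [h1, h2]
  field_simp
  ring

theorem gr0_lin (a0 b0 : ℝ) (a b : Fin n → ℝ) (y : E n) :
    gr0 (lin a0 a) (lin b0 b) y
      = ∑ i, a i * b i - a0 * b0 + lin a0 a y * lin b0 b y := by
  have hy := y0_pos y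
  have h1 : ∑ i, pd i (lin a0 a) y * pd i (lin b0 b) y
      = a0 * b0 * (y0 y ^ 2 - 1) / y0 y ^ 2 + a0 * (∑ i, b i * y i) / y0 y
        + b0 * (∑ i, a i * y i) / y0 y + ∑ i, a i * b i := by
    rw [← sum_sq, Finset.mul_sum, Finset.mul_sum, Finset.mul_sum, Finset.sum_div, Finset.sum_div,
      Finset.sum_div, ← Finset.sum_add_distrib, ← Finset.sum_add_distrib,
      ← Finset.sum_add_distrib]
    refine Finset.sum_congr rfl fun i _ => ?_
    rw [pd_lin, pd_lin]
    field_simp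
    ring
  have h2 : ∑ i, a i * y i = lin a0 a y - a0 * y0 y := by simp [lin]
  have h3 : ∑ i, b i * y i = lin b0 b y - b0 * y0 y := by simp [lin]
  unfold gr0
  rw [h1, eul_lin, eul_lin, h2, h3]
  field_simp
  ring

theorem lpn_sum {ι : Type*} (s : Finset ι) {F : ι → E n → ℝ} {y : E n}
    (hF : ∀ a ∈ s, ContDiffAt ℝ 2 (F a) y) :
    lpn (fun z => ∑ a ∈ s, F a z) y = ∑ a ∈ s, lpn (F a) y := by
  classical
  induction s using Finset.induction_on with
  | empty => simp [lpn_const]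
  | insert a s ha ih =>
    have h1 : ∀ b ∈ s, ContDiffAt ℝ 2 (F b) y := fun b hb => hF b (Finset.mem_insert_of_mem hb)
    simp only [Finset.sum_insert ha]
    rw [lpn_add (hF a (Finset.mem_insert_self a s)) (ContDiffAt.sum h1), ih h1]

theorem lpn_lin (a0 : ℝ) (a : Fin n → ℝ) (y : E n) :
    lpn (lin a0 a) y = n * lin a0 a y := by
  have h : lin a0 a = fun z : E n => a0 * y0 z + ∑ j, a j * z j := rfl
  rw [h, lpn_add (contDiffAt_const.mul (cd_y0 y))
    (ContDiffAt.sum fun j _ => contDiffAt_const.mul (cd_coord j y)),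
    lpn_const_mul a0 (cd_y0 y), lpn_y0,
    lpn_sum _ fun j _ => contDiffAt_const.mul (cd_coord j y)]
  simp only [lpn_const_mul (a _) (cd_coord _ y), lpn_coord]
  have : ∑ x, a x * (n * y x) = n * ∑ x, a x * y x := by
    rw [Finset.mul_sum]
    refine Finset.sum_congr rfl fun i _ => ?_
    ring
  rw [this]
  ring

/-! ### Klein functions `k_i = y_i / y₀` -/

/-- The Klein function `k_i = y_i / y₀`. -/
noncomputable def kl (i : Fin n) (y : E n) : ℝ := y i / y0 y

/-- `log y₀`. -/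
noncomputable def lg (y : E n) : ℝ := Real.log (y0 y)

theorem cd_kl (i : Fin n) {m : WithTop ℕ∞} : ContDiff ℝ m (kl (n := n) i) :=
  (contDiff_coord i).div contDiff_y0 fun y => (y0_pos y).ne'

theorem cd_lg {m : WithTop ℕ∞} : ContDiff ℝ m (lg (n := n)) :=
  contDiff_y0.log fun y => (y0_pos y).ne'

theorem diff_kl (i : Fin n) (y : E n) : DifferentiableAt ℝ (kl (n := n) i) y :=
  (cd_kl i (m := 1)).differentiable one_ne_zero y

theorem diff_lg (y : E n) : DifferentiableAt ℝ (lg (n := n)) y :=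
  (cd_lg (m := 1)).differentiable one_ne_zero y

theorem kl_eq (i : Fin n) : kl (n := n) i = fun y => y i * (y0 y)⁻¹ := by
  funext y
  exact div_eq_mul_inv _ _

theorem kl_abs_lt (i : Fin n) (y : E n) : |kl i y| < 1 := by
  have hy := y0_pos y
  have h1 : y i ^ 2 ≤ ∑ j, y j ^ 2 :=
    Finset.single_le_sum (f := fun j => y j ^ 2) (fun j _ => sq_nonneg _) (Finset.mem_univ i)
  have h2 := y0_sq y
  have h3 : |y i| < y0 y := by
    refine abs_lt_of_sq_lt_sq ?_ hy.le
    linarith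
  rw [kl, abs_div, abs_of_pos hy, div_lt_one hy]
  exact h3

theorem lg_nonneg (y : E n) : 0 ≤ lg y := Real.log_nonneg (one_le_y0 y)

theorem exp_lg (y : E n) : Real.exp (lg y) = y0 y := Real.exp_log (y0_pos y)

theorem pd_kl (i j : Fin n) (y : E n) :
    pd i (kl j) y = (if i = j then 1 else 0) / y0 y - y i * y j / y0 y ^ 3 := by
  have hy := y0_pos y
  rw [kl_eq, pd_mul i (diff_coord j y) ((diff_y0 y).fun_inv hy.ne'), pd_coord,
    pd_comp (φ := fun t => t⁻¹) i (hasDerivAt_inv hy.ne') (diff_y0 y), pd_y0]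
  field_simp
  ring

theorem pd_lg (i : Fin n) (y : E n) : pd i (lg (n := n)) y = y i / y0 y ^ 2 := by
  have hy := y0_pos y
  have h : lg (n := n) = fun z => Real.log (y0 z) := rfl
  rw [h, pd_comp i (Real.hasDerivAt_log hy.ne') (diff_y0 y), pd_y0]
  field_simp

theorem eul_kl (i : Fin n) (y : E n) : eul (kl i) y = kl i y / y0 y ^ 2 := by
  have hy := y0_pos y
  rw [kl_eq, eul_mul (diff_coord i y) ((diff_y0 y).fun_inv hy.ne'), eul_coord,
    eul_comp (φ := fun t => t⁻¹) (hasDerivAt_inv hy.ne') (diff_y0 y), eul_y0]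
  field_simp
  ring

theorem eul_lg (y : E n) : eul (lg (n := n)) y = 1 - 1 / y0 y ^ 2 := by
  have hy := y0_pos y
  have h : lg (n := n) = fun z => Real.log (y0 z) := rfl
  rw [h, eul_comp (Real.hasDerivAt_log hy.ne') (diff_y0 y), eul_y0]
  field_simp

theorem gr0_y0_kl (i : Fin n) (y : E n) : gr0 (y0 (n := n)) (kl i) y = kl i y / y0 y := by
  have hy := y0_pos y
  rw [kl_eq, gr0_mul_right _ (diff_coord i y) ((diff_y0 y).fun_inv hy.ne'), gr0_comm,
    gr0_coord_y0, gr0_comp_right (φ := fun t => t⁻¹) _ (hasDerivAt_inv hy.ne') (diff_y0 y),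
    gr0_y0]
  field_simp
  ring

theorem gr0_coord_kl (i j : Fin n) (y : E n) :
    gr0 (fun z : E n => z i) (kl j) y = (if i = j then 1 else 0) / y0 y := by
  have hy := y0_pos y
  rw [kl_eq, gr0_mul_right _ (diff_coord j y) ((diff_y0 y).fun_inv hy.ne'), gr0_coord,
    gr0_comp_right (φ := fun t => t⁻¹) _ (hasDerivAt_inv hy.ne') (diff_y0 y), gr0_coord_y0]
  field_simp
  ring

theorem gr0_kl (i j : Fin n) (y : E n) :
    gr0 (kl i) (kl j) y = ((if i = j then 1 else 0) - kl i y * kl j y) / y0 y ^ 2 := by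
  have hy := y0_pos y
  have h1 : gr0 (kl i) (kl j) y = gr0 (fun z : E n => z i * (y0 z)⁻¹) (kl j) y := by
    rw [kl_eq i]
  rw [h1, gr0_mul_left _ (diff_coord i y) ((diff_y0 y).fun_inv hy.ne'), gr0_coord_kl,
    gr0_comp_left (φ := fun t => t⁻¹) _ (hasDerivAt_inv hy.ne') (diff_y0 y), gr0_y0_kl]
  simp only [kl]
  field_simp
  ring

theorem ev_inv_y0 (y : E n) :
    ∀ᶠ z in 𝓝 y, HasDerivAt (fun t : ℝ => t⁻¹) ((fun t : ℝ => -(t ^ 2)⁻¹) (y0 z)) (y0 z) :=
  Filter.Eventually.of_forall fun z => hasDerivAt_inv (y0_pos z).ne'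

theorem hasDerivAt_neg_inv_sq {s : ℝ} (hs : s ≠ 0) :
    HasDerivAt (fun t : ℝ => -(t ^ 2)⁻¹) (2 / s ^ 3) s := by
  have h1 : HasDerivAt (fun t : ℝ => t ^ 2) (2 * s) s := by simpa using hasDerivAt_pow 2 s
  have h2 := (h1.inv (pow_ne_zero 2 hs)).neg
  have h3 : -(-(2 * s) / (s ^ 2) ^ 2) = 2 / s ^ 3 := by
    field_simp
  rw [h3] at h2
  exact h2

theorem lpn_inv_y0 (y : E n) :
    lpn (fun z : E n => (y0 z)⁻¹) y = (2 - n) / y0 y - 2 / y0 y ^ 3 := by
  have hy := y0_pos y
  rw [lpn_comp (φ := fun t => t⁻¹) (ev_inv_y0 y) (hasDerivAt_neg_inv_sq hy.ne') (cd_y0 y),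
    lpn_y0, gr0_y0]
  field_simp
  ring

theorem cd_inv_y0 {m : WithTop ℕ∞} (y : E n) : ContDiffAt ℝ m (fun z : E n => (y0 z)⁻¹) y :=
  (cd_y0 y).inv (y0_pos y).ne'

theorem lpn_kl (i : Fin n) (y : E n) : lpn (kl i) y = -2 * kl i y / y0 y ^ 2 := by
  have hy := y0_pos y
  rw [kl_eq, lpn_mul (cd_coord i y) (cd_inv_y0 y), lpn_coord, lpn_inv_y0,
    gr0_comp_right (φ := fun t => t⁻¹) _ (hasDerivAt_inv hy.ne') (diff_y0 y), gr0_coord_y0]
  field_simp
  ring

theorem gr0_lg_left (f : E n → ℝ) (y : E n) : gr0 lg f y = gr0 y0 f y / y0 y := by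
  have hy := y0_pos y
  have h : lg (n := n) = fun z => Real.log (y0 z) := rfl
  rw [h, gr0_comp_left f (Real.hasDerivAt_log hy.ne') (diff_y0 y)]
  field_simp

theorem gr0_lg (y : E n) : gr0 (lg (n := n)) lg y = 1 - 1 / y0 y ^ 2 := by
  have hy := y0_pos y
  rw [gr0_lg_left, gr0_comm, gr0_lg_left, gr0_y0]
  field_simp

theorem gr0_lg_kl (i : Fin n) (y : E n) : gr0 (lg (n := n)) (kl i) y = kl i y / y0 y ^ 2 := by
  have hy := y0_pos y
  rw [gr0_lg_left, gr0_y0_kl]
  field_simp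

theorem lpn_lg (y : E n) : lpn (lg (n := n)) y = n - 1 + 1 / y0 y ^ 2 := by
  have hy := y0_pos y
  have h : lg (n := n) = fun z => Real.log (y0 z) := rfl
  have h2 : HasDerivAt (fun t : ℝ => t⁻¹) (-(y0 y ^ 2)⁻¹) (y0 y) := hasDerivAt_inv hy.ne'
  rw [h, lpn_comp (φ' := fun t => t⁻¹)
    (Filter.Eventually.of_forall fun z => Real.hasDerivAt_log (y0_pos z).ne') h2 (cd_y0 y),
    lpn_y0, gr0_y0]
  field_simp
  ring

/-! ### `lap gH = lpn` -/

theorem det_gH (y : E n) : (gH y).det = 1 / y0 y ^ 2 := by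
  have hy := y0_pos y
  have h1 : gH y = 1 + Matrix.replicateCol Unit (fun i => - y i)
      * Matrix.replicateRow Unit (fun j => y j / y0 y ^ 2) := by
    ext i j
    simp only [Matrix.add_apply, Matrix.one_apply, Matrix.mul_apply, Matrix.replicateCol_apply,
      Matrix.replicateRow_apply, Finset.univ_unique, Finset.sum_singleton, gH_apply]
    ring
  rw [h1, Matrix.det_one_add_replicateCol_mul_replicateRow]
  simp only [dotProduct]
  have h2 : ∑ i, y i / y0 y ^ 2 * - y i = - (y0 y ^ 2 - 1) / y0 y ^ 2 := by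
    rw [← sum_sq, ← Finset.sum_neg_distrib, Finset.sum_div]
    refine Finset.sum_congr rfl fun i _ => ?_
    ring
  rw [h2]
  field_simp
  ring

theorem sqrt_det_gH (y : E n) : Real.sqrt (gH y).det = (y0 y)⁻¹ := by
  have hy := y0_pos y
  rw [det_gH, Real.sqrt_div zero_le_one, Real.sqrt_one, Real.sqrt_sq hy.le, one_div]

theorem lap_gH (hf : ContDiffAt ℝ 2 f y) : lap gH f y = lpn f y := by
  have hy := y0_pos y
  have h1 : ∀ i j, pd i (fun z => Real.sqrt (gH z).det * (gH z)⁻¹ i j * pd j f z) y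
      = (y0 y)⁻¹ * (((if i = j then 1 else 0) + y i * y j) * pd i (pd j f) y)
        + (- (y i * y i) * y j / y0 y ^ 3 + (y0 y)⁻¹ * y j
          + (if i = j then - y i / y0 y ^ 3 + (y0 y)⁻¹ * y i else 0)) * pd j f y := by
    intro i j
    have h2 : (fun z : E n => Real.sqrt (gH z).det * (gH z)⁻¹ i j * pd j f z)
        = fun z => ((y0 z)⁻¹ * ((if i = j then 1 else 0) + z i * z j)) * pd j f z := by
      funext z
      rw [sqrt_det_gH, inv_gH]
      rfl
    have hc : DifferentiableAt ℝ (fun z : E n => (if i = j then (1 : ℝ) else 0) + z i * z j) y :=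
      (differentiableAt_const _).fun_add ((diff_coord i y).fun_mul (diff_coord j y))
    have hi : DifferentiableAt ℝ (fun z : E n => (y0 z)⁻¹) y := (diff_y0 y).fun_inv hy.ne'
    rw [h2, pd_mul i (hi.fun_mul hc) (diff_pd j hf), pd_mul i hi hc,
      pd_comp (φ := fun t => t⁻¹) i (hasDerivAt_inv hy.ne') (diff_y0 y), pd_y0,
      pd_add i (differentiableAt_const _) ((diff_coord i y).fun_mul (diff_coord j y)), pd_const,
      pd_mul i (diff_coord i y) (diff_coord j y), pd_coord, pd_coord]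
    by_cases h : i = j
    · subst h
      simp only [if_true]
      field_simp
      ring
    · simp only [h, if_false, if_true]
      field_simp
      ring
  unfold lap
  simp only [h1]
  rw [sqrt_det_gH, inv_inv]
  simp only [Finset.sum_add_distrib, add_mul]
  have h3 : ∀ j, ∑ i, (- (y i * y i) * y j / y0 y ^ 3 * pd j f y)
      = - (y0 y ^ 2 - 1) / y0 y ^ 3 * (y j * pd j f y) := by
    intro j
    rw [← sum_sq, ← Finset.sum_neg_distrib, Finset.sum_div, Finset.sum_mul]
    refine Finset.sum_congr rfl fun i _ => ?_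
    ring
  have h4 : ∑ i, ∑ j, (- (y i * y i) * y j / y0 y ^ 3 * pd j f y)
      = - (y0 y ^ 2 - 1) / y0 y ^ 3 * eul f y := by
    rw [Finset.sum_comm]
    simp only [h3, ← Finset.mul_sum]
    rfl
  have h5 : ∑ i : Fin n, ∑ j, ((y0 y)⁻¹ * y j * pd j f y) = n * ((y0 y)⁻¹ * eul f y) := by
    simp only [eul, Finset.mul_sum, Finset.sum_const, Finset.card_univ, Fintype.card_fin,
      nsmul_eq_mul]
    refine Finset.sum_congr rfl fun i _ => ?_
    ring
  have h6 : ∑ i, ∑ j, ((if i = j then - y i / y0 y ^ 3 + (y0 y)⁻¹ * y i else 0) * pd j f y)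
      = (- 1 / y0 y ^ 3 + (y0 y)⁻¹) * eul f y := by
    simp only [ite_mul, zero_mul, Finset.sum_ite_eq, Finset.mem_univ, if_true, eul,
      Finset.mul_sum]
    refine Finset.sum_congr rfl fun i _ => ?_
    ring
  rw [h4, h5, h6]
  simp only [lpn, ← Finset.mul_sum, add_mul]
  field_simp
  ring

/-! ### The names of `DefsB.lean` (dimension `m + 3`) -/

section names

variable {m : ℕ} {f g h : E (m + 3) → ℝ} {y : E (m + 3)}

theorem lap0_eq (f : E (m + 3) → ℝ) (y : E (m + 3)) : lap0 f y = lpn f y := by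
  simp only [lap0, lpn, eul]
  push_cast
  rfl

theorem gam0_eq (f h : E (m + 3) → ℝ) (y : E (m + 3)) : gam0 f h y = gr0 f h y := rfl

theorem Dd_eq (f : E (m + 3) → ℝ) (y : E (m + 3)) : Dd f y = eul f y := rfl

theorem cd2 {f : E n → ℝ} {y : E n} (hf : ContDiff ℝ ∞ f) : ContDiffAt ℝ 2 f y :=
  hf.contDiffAt.of_le (by norm_cast)

theorem cd2At {f : E n → ℝ} {y : E n} (hf : ContDiffAt ℝ ∞ f y) : ContDiffAt ℝ 2 f y :=
  hf.of_le (by norm_cast)

theorem diffAt {f : E n → ℝ} {y : E n} (hf : ContDiff ℝ ∞ f) : DifferentiableAt ℝ f y :=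
  hf.differentiable (by simp) y

end names

end C0

/-! ### Rules in the names of `DefsB.lean` -/

namespace K0

open HypM C0

variable {m : ℕ} {f g h : E (m + 3) → ℝ} {y : E (m + 3)}

/-! `Dd` -/

theorem Dd_const (c : ℝ) (y : E (m + 3)) : Dd (fun _ => c) y = 0 := eul_const c y

theorem Dd_add (hf : DifferentiableAt ℝ f y) (hg : DifferentiableAt ℝ g y) :
    Dd (fun z => f z + g z) y = Dd f y + Dd g y := eul_add hf hg

theorem Dd_sub (hf : DifferentiableAt ℝ f y) (hg : DifferentiableAt ℝ g y) :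
    Dd (fun z => f z - g z) y = Dd f y - Dd g y := eul_sub hf hg

theorem Dd_mul (hf : DifferentiableAt ℝ f y) (hg : DifferentiableAt ℝ g y) :
    Dd (fun z => f z * g z) y = Dd f y * g y + f y * Dd g y := eul_mul hf hg

theorem Dd_const_mul (c : ℝ) (hf : DifferentiableAt ℝ f y) :
    Dd (fun z => c * f z) y = c * Dd f y := eul_const_mul c hf

theorem Dd_comp {φ : ℝ → ℝ} {φ' : ℝ} (hφ : HasDerivAt φ φ' (f y))
    (hf : DifferentiableAt ℝ f y) : Dd (fun z => φ (f z)) y = φ' * Dd f y := eul_comp hφ hf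

/-! `gam0` -/

theorem gam0_comm (f h : E (m + 3) → ℝ) (y : E (m + 3)) : gam0 f h y = gam0 h f y := gr0_comm f h y

theorem gam0_nonneg (f : E (m + 3) → ℝ) (y : E (m + 3)) : 0 ≤ gam0 f f y := gr0_nonneg f y

theorem gam0_sq_le (f h : E (m + 3) → ℝ) (y : E (m + 3)) :
    gam0 f h y ^ 2 ≤ gam0 f f y * gam0 h h y := gr0_sq_le f h y

theorem gam0_const_left (c : ℝ) (h : E (m + 3) → ℝ) (y : E (m + 3)) :
    gam0 (fun _ => c) h y = 0 := gr0_const_left c h y

theorem gam0_add_left (h : E (m + 3) → ℝ) (hf : DifferentiableAt ℝ f y)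
    (hg : DifferentiableAt ℝ g y) :
    gam0 (fun z => f z + g z) h y = gam0 f h y + gam0 g h y := gr0_add_left h hf hg

theorem gam0_sub_left (h : E (m + 3) → ℝ) (hf : DifferentiableAt ℝ f y)
    (hg : DifferentiableAt ℝ g y) :
    gam0 (fun z => f z - g z) h y = gam0 f h y - gam0 g h y := gr0_sub_left h hf hg

theorem gam0_mul_left (h : E (m + 3) → ℝ) (hf : DifferentiableAt ℝ f y)
    (hg : DifferentiableAt ℝ g y) :
    gam0 (fun z => f z * g z) h y = g y * gam0 f h y + f y * gam0 g h y := gr0_mul_left h hf hg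

theorem gam0_const_mul_left (c : ℝ) (h : E (m + 3) → ℝ) (hf : DifferentiableAt ℝ f y) :
    gam0 (fun z => c * f z) h y = c * gam0 f h y := gr0_const_mul_left c h hf

theorem gam0_comp_left {φ : ℝ → ℝ} {φ' : ℝ} (h : E (m + 3) → ℝ) (hφ : HasDerivAt φ φ' (f y))
    (hf : DifferentiableAt ℝ f y) : gam0 (fun z => φ (f z)) h y = φ' * gam0 f h y :=
  gr0_comp_left h hφ hf

theorem gam0_add_right (h : E (m + 3) → ℝ) (hf : DifferentiableAt ℝ f y)
    (hg : DifferentiableAt ℝ g y) :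
    gam0 h (fun z => f z + g z) y = gam0 h f y + gam0 h g y := gr0_add_right h hf hg

theorem gam0_sub_right (h : E (m + 3) → ℝ) (hf : DifferentiableAt ℝ f y)
    (hg : DifferentiableAt ℝ g y) :
    gam0 h (fun z => f z - g z) y = gam0 h f y - gam0 h g y := gr0_sub_right h hf hg

theorem gam0_mul_right (h : E (m + 3) → ℝ) (hf : DifferentiableAt ℝ f y)
    (hg : DifferentiableAt ℝ g y) :
    gam0 h (fun z => f z * g z) y = g y * gam0 h f y + f y * gam0 h g y := gr0_mul_right h hf hg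

theorem gam0_const_mul_right (c : ℝ) (h : E (m + 3) → ℝ) (hf : DifferentiableAt ℝ f y) :
    gam0 h (fun z => c * f z) y = c * gam0 h f y := gr0_const_mul_right c h hf

theorem gam0_comp_right {φ : ℝ → ℝ} {φ' : ℝ} (h : E (m + 3) → ℝ) (hφ : HasDerivAt φ φ' (f y))
    (hf : DifferentiableAt ℝ f y) : gam0 h (fun z => φ (f z)) y = φ' * gam0 h f y :=
  gr0_comp_right h hφ hf

/-! `lap0` -/

theorem lap0_congr (h : f =ᶠ[𝓝 y] g) : lap0 f y = lap0 g y := by
  rw [lap0_eq, lap0_eq, lpn_congr h]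

theorem lap0_const (c : ℝ) (y : E (m + 3)) : lap0 (fun _ => c) y = 0 := by
  rw [lap0_eq, lpn_const]

theorem lap0_add (hf : ContDiffAt ℝ 2 f y) (hg : ContDiffAt ℝ 2 g y) :
    lap0 (fun z => f z + g z) y = lap0 f y + lap0 g y := by
  rw [lap0_eq, lap0_eq, lap0_eq, lpn_add hf hg]

theorem lap0_sub (hf : ContDiffAt ℝ 2 f y) (hg : ContDiffAt ℝ 2 g y) :
    lap0 (fun z => f z - g z) y = lap0 f y - lap0 g y := by
  rw [lap0_eq, lap0_eq, lap0_eq, lpn_sub hf hg]

theorem lap0_mul (hf : ContDiffAt ℝ 2 f y) (hg : ContDiffAt ℝ 2 g y) :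
    lap0 (fun z => f z * g z) y = g y * lap0 f y + f y * lap0 g y + 2 * gam0 f g y := by
  rw [lap0_eq, lap0_eq, lap0_eq, gam0_eq, lpn_mul hf hg]

theorem lap0_const_mul (c : ℝ) (hf : ContDiffAt ℝ 2 f y) :
    lap0 (fun z => c * f z) y = c * lap0 f y := by
  rw [lap0_eq, lap0_eq, lpn_const_mul c hf]

theorem lap0_comp {φ φ' : ℝ → ℝ} {φ'' : ℝ}
    (h1 : ∀ᶠ z in 𝓝 y, HasDerivAt φ (φ' (f z)) (f z)) (h2 : HasDerivAt φ' φ'' (f y))
    (hf : ContDiffAt ℝ 2 f y) :
    lap0 (fun z => φ (f z)) y = φ' (f y) * lap0 f y + φ'' * gam0 f f y := by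
  rw [lap0_eq, lap0_eq, gam0_eq, lpn_comp h1 h2 hf]

/-- The chain rule for a smooth function of one variable. -/
theorem lap0_comp_smooth {φ : ℝ → ℝ} (hφ : ContDiff ℝ ∞ φ) (hf : ContDiffAt ℝ 2 f y) :
    lap0 (fun z => φ (f z)) y
      = deriv φ (f y) * lap0 f y + deriv (deriv φ) (f y) * gam0 f f y := by
  have h1 : ContDiff ℝ ∞ (deriv φ) := ((contDiff_infty_iff_deriv (𝕜 := ℝ)).1 hφ).2
  refine lap0_comp (φ' := deriv φ) (Filter.Eventually.of_forall fun z => ?_) ?_ hf
  · exact (hφ.differentiable (by simp) _).hasDerivAt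
  · exact (h1.differentiable (by simp) _).hasDerivAt

/-! ### Values -/

theorem lap0_coord (k : Fin (m + 3)) (y : E (m + 3)) :
    lap0 (fun z : E (m + 3) => z k) y = (m + 3) * y k := by
  rw [lap0_eq, lpn_coord]
  push_cast
  ring

theorem Dd_coord (k : Fin (m + 3)) (y : E (m + 3)) : Dd (fun z : E (m + 3) => z k) y = y k :=
  eul_coord k y

theorem gam0_coord (i j : Fin (m + 3)) (y : E (m + 3)) :
    gam0 (fun z : E (m + 3) => z i) (fun z => z j) y = (if i = j then 1 else 0) + y i * y j :=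
  gr0_coord i j y

theorem gam0_coord_left (i : Fin (m + 3)) (f : E (m + 3) → ℝ) (y : E (m + 3)) :
    gam0 (fun z : E (m + 3) => z i) f y = pd i f y + y i * Dd f y := gr0_coord_left i f y

theorem lap0_y0 (y : E (m + 3)) : lap0 y0 y = (m + 3) * y0 y := by
  rw [lap0_eq, lpn_y0]
  push_cast
  ring

theorem Dd_y0 (y : E (m + 3)) : Dd y0 y = (y0 y ^ 2 - 1) / y0 y := eul_y0 y

theorem gam0_y0 (y : E (m + 3)) : gam0 y0 y0 y = y0 y ^ 2 - 1 := gr0_y0 y

theorem gam0_coord_y0 (i : Fin (m + 3)) (y : E (m + 3)) :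
    gam0 (fun z : E (m + 3) => z i) y0 y = y i * y0 y := gr0_coord_y0 i y

theorem lap0_lin (a0 : ℝ) (a : Fin (m + 3) → ℝ) (y : E (m + 3)) :
    lap0 (lin a0 a) y = (m + 3) * lin a0 a y := by
  rw [lap0_eq, lpn_lin]
  push_cast
  ring

theorem gam0_lin (a0 b0 : ℝ) (a b : Fin (m + 3) → ℝ) (y : E (m + 3)) :
    gam0 (lin a0 a) (lin b0 b) y = ∑ i, a i * b i - a0 * b0 + lin a0 a y * lin b0 b y :=
  gr0_lin a0 b0 a b y

theorem lap0_kl (i : Fin (m + 3)) (y : E (m + 3)) : lap0 (kl i) y = -2 * kl i y / y0 y ^ 2 := by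
  rw [lap0_eq, lpn_kl]

theorem Dd_kl (i : Fin (m + 3)) (y : E (m + 3)) : Dd (kl i) y = kl i y / y0 y ^ 2 := eul_kl i y

theorem gam0_kl (i j : Fin (m + 3)) (y : E (m + 3)) :
    gam0 (kl i) (kl j) y = ((if i = j then 1 else 0) - kl i y * kl j y) / y0 y ^ 2 := gr0_kl i j y

/-- `t = k₀`. -/
theorem tk_eq : tk (m := m) = kl 0 := rfl

/-- `ρ = lg`. -/
theorem rk_eq : rk (m := m) = lg := rfl

theorem contDiff_tk : ContDiff ℝ ∞ (tk (m := m)) := cd_kl 0

theorem contDiff_rk : ContDiff ℝ ∞ (rk (m := m)) := cd_lg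

theorem tk_abs_lt (y : E (m + 3)) : |tk y| < 1 := kl_abs_lt 0 y

theorem pd_tk (i : Fin (m + 3)) (y : E (m + 3)) : pd i tk y = dtk y i := by
  rw [tk_eq, pd_kl, dtk]
  simp only [eq_comm (a := i) (b := 0)]
  ring

theorem pd_rk (i : Fin (m + 3)) (y : E (m + 3)) : pd i rk y = y i / y0 y ^ 2 := pd_lg i y

theorem lap0_tk (y : E (m + 3)) : lap0 tk y = -2 * tk y / y0 y ^ 2 := lap0_kl 0 y

theorem Dd_tk (y : E (m + 3)) : Dd tk y = tk y / y0 y ^ 2 := Dd_kl 0 y

theorem gam0_tk (y : E (m + 3)) : gam0 tk tk y = (1 - tk y ^ 2) / y0 y ^ 2 := by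
  rw [tk_eq, gam0_kl, if_pos rfl]
  ring

theorem lap0_rk (y : E (m + 3)) : lap0 rk y = m + 2 + 1 / y0 y ^ 2 := by
  rw [rk_eq, lap0_eq, lpn_lg]
  push_cast
  ring

theorem Dd_rk (y : E (m + 3)) : Dd rk y = 1 - 1 / y0 y ^ 2 := eul_lg y

theorem gam0_rk (y : E (m + 3)) : gam0 rk rk y = 1 - 1 / y0 y ^ 2 := gr0_lg y

theorem gam0_rk_tk (y : E (m + 3)) : gam0 rk tk y = tk y / y0 y ^ 2 := gr0_lg_kl 0 y

/-! The function `N = |w|² / y₀²`. -/

/-- `N = |w|² / y₀²`. -/
noncomputable def Nk (y : E (m + 3)) : ℝ := kl 1 y * kl 1 y + kl 2 y * kl 2 y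

theorem Nk_eq (y : E (m + 3)) : Nk y = wsq y / y0 y ^ 2 := by
  have hy := y0_pos y
  simp only [Nk, kl, wsq]
  field_simp

theorem contDiff_Nk : ContDiff ℝ ∞ (Nk (m := m)) :=
  ((cd_kl 1).mul (cd_kl 1)).add ((cd_kl 2).mul (cd_kl 2))

theorem Nk_nonneg (y : E (m + 3)) : 0 ≤ Nk y :=
  add_nonneg (mul_self_nonneg _) (mul_self_nonneg _)

theorem val1 : ((1 : Fin (m + 3)) : ℕ) = 1 := by
  change 1 % (m + 3) = 1
  exact Nat.mod_eq_of_lt (by omega)

theorem val2 : ((2 : Fin (m + 3)) : ℕ) = 2 := by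
  change 2 % (m + 3) = 2
  exact Nat.mod_eq_of_lt (by omega)

theorem fin01 : (0 : Fin (m + 3)) ≠ 1 := by
  intro h
  have := congrArg Fin.val h
  rw [val1] at this
  simp at this

theorem fin02 : (0 : Fin (m + 3)) ≠ 2 := by
  intro h
  have := congrArg Fin.val h
  rw [val2] at this
  simp at this

theorem fin12 : (1 : Fin (m + 3)) ≠ 2 := by
  intro h
  have := congrArg Fin.val h
  rw [val1, val2] at this
  omega

theorem sum_three_le (y : E (m + 3)) : y 0 ^ 2 + wsq y ≤ y0 y ^ 2 - 1 := by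
  have h1 : ∑ i ∈ ({0, 1, 2} : Finset (Fin (m + 3))), y i ^ 2 ≤ ∑ i, y i ^ 2 :=
    Finset.sum_le_sum_of_subset_of_nonneg (Finset.subset_univ _) fun _ _ _ => sq_nonneg _
  rw [Finset.sum_insert (by simp [fin02]), Finset.sum_insert (by simp [fin12]),
    Finset.sum_singleton] at h1
  have h2 := y0_sq y
  unfold wsq
  linarith

theorem Nk_add_tk_sq_le (y : E (m + 3)) : Nk y + tk y ^ 2 ≤ 1 - 1 / y0 y ^ 2 := by
  have hy := y0_pos y
  have h := sum_three_le y
  rw [Nk_eq, tk, div_pow, ← add_div, div_le_iff₀ (by positivity), sub_mul,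
    one_div_mul_cancel (by positivity)]
  linarith

theorem Dd_Nk (y : E (m + 3)) : Dd Nk y = 2 * Nk y / y0 y ^ 2 := by
  have h : Nk (m := m) = fun z => kl 1 z * kl 1 z + kl 2 z * kl 2 z := rfl
  rw [h, Dd_add ((diff_kl 1 y).fun_mul (diff_kl 1 y)) ((diff_kl 2 y).fun_mul (diff_kl 2 y)),
    Dd_mul (diff_kl 1 y) (diff_kl 1 y), Dd_mul (diff_kl 2 y) (diff_kl 2 y), Dd_kl, Dd_kl]
  ring

theorem gam0_kl_Nk (i : Fin (m + 3)) (y : E (m + 3)) :
    gam0 (kl i) Nk y = 2 * (kl 1 y * ((if i = 1 then 1 else 0) - kl i y * kl 1 y)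
      + kl 2 y * ((if i = 2 then 1 else 0) - kl i y * kl 2 y)) / y0 y ^ 2 := by
  have h : Nk (m := m) = fun z => kl 1 z * kl 1 z + kl 2 z * kl 2 z := rfl
  rw [h, gam0_add_right _ ((diff_kl 1 y).fun_mul (diff_kl 1 y))
    ((diff_kl 2 y).fun_mul (diff_kl 2 y)),
    gam0_mul_right _ (diff_kl 1 y) (diff_kl 1 y), gam0_mul_right _ (diff_kl 2 y) (diff_kl 2 y),
    gam0_kl, gam0_kl]
  ring

theorem gam0_tk_Nk (y : E (m + 3)) : gam0 tk Nk y = -2 * tk y * Nk y / y0 y ^ 2 := by
  rw [tk_eq, gam0_kl_Nk, if_neg fin01, if_neg fin02, Nk]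
  ring

theorem gam0_Nk (y : E (m + 3)) : gam0 Nk Nk y = 4 * Nk y * (1 - Nk y) / y0 y ^ 2 := by
  have h : Nk (m := m) = fun z => kl 1 z * kl 1 z + kl 2 z * kl 2 z := rfl
  have h1 : gam0 Nk Nk y = gam0 (fun z => kl 1 z * kl 1 z + kl 2 z * kl 2 z) Nk y := by
    rw [← h]
  rw [h1, gam0_add_left _ ((diff_kl 1 y).fun_mul (diff_kl 1 y))
    ((diff_kl 2 y).fun_mul (diff_kl 2 y)),
    gam0_mul_left _ (diff_kl 1 y) (diff_kl 1 y), gam0_mul_left _ (diff_kl 2 y) (diff_kl 2 y),
    gam0_kl_Nk, gam0_kl_Nk, if_pos rfl, if_pos rfl, if_neg fin12, if_neg fin12.symm, Nk]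
  ring

theorem gam0_rk_Nk (y : E (m + 3)) : gam0 rk Nk y = 2 * Nk y / y0 y ^ 2 := by
  have h : Nk (m := m) = fun z => kl 1 z * kl 1 z + kl 2 z * kl 2 z := rfl
  have h1 : ∀ i : Fin (m + 3), gam0 rk (kl i) y = kl i y / y0 y ^ 2 := fun i => gr0_lg_kl i y
  rw [h, gam0_add_right _ ((diff_kl 1 y).fun_mul (diff_kl 1 y))
    ((diff_kl 2 y).fun_mul (diff_kl 2 y)),
    gam0_mul_right _ (diff_kl 1 y) (diff_kl 1 y), gam0_mul_right _ (diff_kl 2 y) (diff_kl 2 y),
    h1, h1]
  ring

theorem lap0_Nk (y : E (m + 3)) : lap0 Nk y = (4 - 6 * Nk y) / y0 y ^ 2 := by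
  have h : Nk (m := m) = fun z => kl 1 z * kl 1 z + kl 2 z * kl 2 z := rfl
  have hc : ∀ i : Fin (m + 3), ContDiffAt ℝ 2 (kl i) y := fun i => (cd_kl i).contDiffAt
  rw [h, lap0_add ((hc 1).mul (hc 1)) ((hc 2).mul (hc 2)), lap0_mul (hc 1) (hc 1),
    lap0_mul (hc 2) (hc 2), lap0_kl, lap0_kl, gam0_kl, gam0_kl, if_pos rfl, if_pos rfl]
  ring

/-! ### `Jd` -/

theorem Jv0 (y : E (m + 3)) : Jv y 0 = 0 := by
  rw [Jv, if_neg fin01, if_neg fin02]

theorem Jv1 (y : E (m + 3)) : Jv y 1 = - y 2 := by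
  rw [Jv, if_pos rfl]

theorem Jv2 (y : E (m + 3)) : Jv y 2 = y 1 := by
  rw [Jv, if_neg fin12.symm, if_pos rfl]

theorem Jv_of_ne {i : Fin (m + 3)} (h1 : i ≠ 1) (h2 : i ≠ 2) (y : E (m + 3)) : Jv y i = 0 := by
  rw [Jv, if_neg h1, if_neg h2]

theorem sum_Jv (y : E (m + 3)) (a : Fin (m + 3) → ℝ) :
    ∑ i, Jv y i * a i = - y 2 * a 1 + y 1 * a 2 := by
  have h : ∀ i, Jv y i * a i
      = (if i = 1 then - y 2 * a 1 else 0) + (if i = 2 then y 1 * a 2 else 0) := by
    intro i
    by_cases h1 : i = 1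
    · subst h1
      rw [Jv1, if_pos rfl, if_neg fin12, add_zero]
    · by_cases h2 : i = 2
      · subst h2
        rw [Jv2, if_neg h1, if_pos rfl, zero_add]
      · rw [Jv_of_ne h1 h2, if_neg h1, if_neg h2]
        ring
  simp only [h, Finset.sum_add_distrib, Finset.sum_ite_eq', Finset.mem_univ, if_true]

theorem Jd_eq (f : E (m + 3) → ℝ) (y : E (m + 3)) :
    Jd f y = - y 2 * pd 1 f y + y 1 * pd 2 f y := sum_Jv y fun i => pd i f y

/-- `y · J = 0`. -/
theorem sum_y_Jv (y : E (m + 3)) : ∑ i, Jv y i * y i = 0 := by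
  rw [sum_Jv]
  ring

/-- `|J|² = |w|²`. -/
theorem sum_Jv_sq (y : E (m + 3)) : ∑ i, Jv y i * Jv y i = wsq y := by
  rw [sum_Jv, Jv1, Jv2, wsq]
  ring

theorem Jd_congr (h : f =ᶠ[𝓝 y] g) : Jd f y = Jd g y := by
  simp only [Jd, pd_congr _ h]

theorem Jd_const (c : ℝ) (y : E (m + 3)) : Jd (fun _ => c) y = 0 := by
  simp [Jd_eq, pd_const]

theorem Jd_add (hf : DifferentiableAt ℝ f y) (hg : DifferentiableAt ℝ g y) :
    Jd (fun z => f z + g z) y = Jd f y + Jd g y := by
  simp only [Jd_eq, pd_add _ hf hg]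
  ring

theorem Jd_sub (hf : DifferentiableAt ℝ f y) (hg : DifferentiableAt ℝ g y) :
    Jd (fun z => f z - g z) y = Jd f y - Jd g y := by
  simp only [Jd_eq, pd_sub _ hf hg]
  ring

theorem Jd_mul (hf : DifferentiableAt ℝ f y) (hg : DifferentiableAt ℝ g y) :
    Jd (fun z => f z * g z) y = Jd f y * g y + f y * Jd g y := by
  simp only [Jd_eq, pd_mul _ hf hg]
  ring

theorem Jd_const_mul (c : ℝ) (hf : DifferentiableAt ℝ f y) :
    Jd (fun z => c * f z) y = c * Jd f y := by
  rw [Jd_mul (differentiableAt_const c) hf, Jd_const]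
  ring

theorem Jd_comp {φ : ℝ → ℝ} {φ' : ℝ} (hφ : HasDerivAt φ φ' (f y))
    (hf : DifferentiableAt ℝ f y) : Jd (fun z => φ (f z)) y = φ' * Jd f y := by
  simp only [Jd_eq, pd_comp _ hφ hf]
  ring

theorem Jd_coord (k : Fin (m + 3)) (y : E (m + 3)) : Jd (fun z : E (m + 3) => z k) y = Jv y k := by
  simp only [Jd, pd_coord]
  simp

theorem Jd_y0 (y : E (m + 3)) : Jd y0 y = 0 := by
  rw [Jd_eq, pd_y0, pd_y0]
  ring

theorem Jd_kl (i : Fin (m + 3)) (y : E (m + 3)) : Jd (kl i) y = Jv y i / y0 y := by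
  have hy := y0_pos y
  rw [kl_eq, Jd_mul (diff_coord i y) ((diff_y0 y).fun_inv hy.ne'), Jd_coord,
    Jd_comp (φ := fun t => t⁻¹) (hasDerivAt_inv hy.ne') (diff_y0 y), Jd_y0]
  ring

theorem Jd_tk (y : E (m + 3)) : Jd tk y = 0 := by
  rw [tk_eq, Jd_kl, Jv0, zero_div]

theorem Jd_rk (y : E (m + 3)) : Jd rk y = 0 := by
  rw [Jd_eq, pd_rk, pd_rk]
  ring

theorem Jd_Nk (y : E (m + 3)) : Jd Nk y = 0 := by
  have h : Nk (m := m) = fun z => kl 1 z * kl 1 z + kl 2 z * kl 2 z := rfl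
  rw [h, Jd_add ((diff_kl 1 y).fun_mul (diff_kl 1 y)) ((diff_kl 2 y).fun_mul (diff_kl 2 y)),
    Jd_mul (diff_kl 1 y) (diff_kl 1 y), Jd_mul (diff_kl 2 y) (diff_kl 2 y), Jd_kl, Jd_kl, Jv1,
    Jv2, kl, kl]
  ring

theorem Jd_wsq (y : E (m + 3)) : Jd wsq y = 0 := by
  have h : wsq (m := m) = fun z => z 1 * z 1 + z 2 * z 2 := by
    funext z
    simp only [wsq]
    ring
  rw [h, Jd_add ((diff_coord 1 y).fun_mul (diff_coord 1 y))
    ((diff_coord 2 y).fun_mul (diff_coord 2 y)),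
    Jd_mul (diff_coord 1 y) (diff_coord 1 y), Jd_mul (diff_coord 2 y) (diff_coord 2 y),
    Jd_coord, Jd_coord, Jv1, Jv2]
  ring

theorem contDiff_wsq {k : WithTop ℕ∞} : ContDiff ℝ k (wsq (m := m)) :=
  ((contDiff_coord 1).pow 2).add ((contDiff_coord 2).pow 2)

end K0

end Pool.Agent.Lib.MPdbccd7
end
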