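import Pool.Agent.Lib.MP_dbccd7_gt.Defs
import Pool.Agent.Lib.MP_dbccd7_gt.Calc0

section
/-!
# Common facts: partial derivatives, the hyperboloid, Lorentz matrices

Everybody imports this file.
-/
open scoped Manifold ContDiff Matrix Topology

namespace Pool.Agent.Lib.MPdbccd7

variable {n : ℕ}

/-! ## Calculus of partial derivatives -/

theorem pd_def (i : Fin n) (f : E n → ℝ) (y : E n) :
    pd i f y = fderiv ℝ f y (EuclideanSpace.single i 1) := rfl

/-- The coordinate functions as continuous linear maps. -/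
noncomputable def prj (j : Fin n) : E n →L[ℝ] ℝ := EuclideanSpace.proj j

theorem prj_apply (j : Fin n) (y : E n) : prj j y = y j := rfl

theorem single_apply' (i j : Fin n) :
    (EuclideanSpace.single i (1 : ℝ) : E n) j = if j = i then 1 else 0 := by
  simp

theorem pd_of_hasFDerivAt {f : E n → ℝ} {f' : E n →L[ℝ] ℝ} {y : E n} (h : HasFDerivAt f f' y)
    (i : Fin n) : pd i f y = f' (EuclideanSpace.single i 1) := by
  rw [pd_def, h.fderiv]

/-- The value of the derivative in terms of the partial derivatives. -/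
theorem fderiv_eq_sum (f : E n → ℝ) (y v : E n) :
    fderiv ℝ f y v = ∑ i, pd i f y * v i := by
  have hv : v = ∑ i, v i • (EuclideanSpace.single i (1 : ℝ) : E n) := by
    ext j
    simp [Finset.sum_apply, Pi.single_apply]
  conv_lhs => rw [hv]
  rw [map_sum]
  refine Finset.sum_congr rfl fun i _ => ?_
  rw [map_smul, smul_eq_mul, mul_comm]
  rfl

theorem pd_add {f g : E n → ℝ} {y : E n} (hf : DifferentiableAt ℝ f y)
    (hg : DifferentiableAt ℝ g y) (i : Fin n) :
    pd i (fun z => f z + g z) y = pd i f y + pd i g y := by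
  exact pd_of_hasFDerivAt (hf.hasFDerivAt.add hg.hasFDerivAt) i

theorem pd_sub {f g : E n → ℝ} {y : E n} (hf : DifferentiableAt ℝ f y)
    (hg : DifferentiableAt ℝ g y) (i : Fin n) :
    pd i (fun z => f z - g z) y = pd i f y - pd i g y := by
  exact pd_of_hasFDerivAt (hf.hasFDerivAt.sub hg.hasFDerivAt) i

theorem pd_neg (f : E n → ℝ) (y : E n) (i : Fin n) :
    pd i (fun z => - f z) y = - pd i f y := by
  simp only [pd_def]
  rw [fderiv_fun_neg]
  rfl

theorem pd_mul {f g : E n → ℝ} {y : E n} (hf : DifferentiableAt ℝ f y)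
    (hg : DifferentiableAt ℝ g y) (i : Fin n) :
    pd i (fun z => f z * g z) y = pd i f y * g y + f y * pd i g y := by
  refine (pd_of_hasFDerivAt (hf.hasFDerivAt.mul hg.hasFDerivAt) i).trans ?_
  simp only [_root_.add_apply, _root_.smul_apply, smul_eq_mul, pd_def]
  ring

theorem pd_const (c : ℝ) (y : E n) (i : Fin n) : pd i (fun _ => c) y = 0 := by
  simp [pd_def]

theorem pd_const_mul {f : E n → ℝ} {y : E n} (hf : DifferentiableAt ℝ f y) (c : ℝ) (i : Fin n) :
    pd i (fun z => c * f z) y = c * pd i f y := by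
  rw [pd_mul (differentiableAt_const c) hf, pd_const, zero_mul, zero_add]

theorem pd_mul_const {f : E n → ℝ} {y : E n} (hf : DifferentiableAt ℝ f y) (c : ℝ) (i : Fin n) :
    pd i (fun z => f z * c) y = pd i f y * c := by
  rw [pd_mul hf (differentiableAt_const c), pd_const, mul_zero, add_zero]

theorem contDiff_coord (j : Fin n) {m : WithTop ℕ∞} : ContDiff ℝ m fun z : E n => z j :=
  (prj j).contDiff

theorem differentiable_coord (j : Fin n) : Differentiable ℝ fun z : E n => z j :=
  (prj j).differentiable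

theorem pd_coord (i j : Fin n) (y : E n) :
    pd i (fun z => z j) y = if i = j then 1 else 0 := by
  have h : HasFDerivAt (fun z : E n => z j) (prj j) y := (prj j).hasFDerivAt
  rw [pd_of_hasFDerivAt h i, prj_apply, single_apply']
  simp only [eq_comm]

theorem pd_sum {ι : Type*} {s : Finset ι} {f : ι → E n → ℝ} {y : E n}
    (hf : ∀ k ∈ s, DifferentiableAt ℝ (f k) y) (i : Fin n) :
    pd i (fun z => ∑ k ∈ s, f k z) y = ∑ k ∈ s, pd i (f k) y := by
  have h : HasFDerivAt (fun z => ∑ k ∈ s, f k z) (∑ k ∈ s, fderiv ℝ (f k) y) y :=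
    HasFDerivAt.fun_sum fun k hk => (hf k hk).hasFDerivAt
  rw [pd_of_hasFDerivAt h i, _root_.sum_apply]
  rfl

theorem pd_comp {φ : ℝ → ℝ} {f : E n → ℝ} {y : E n} (hφ : DifferentiableAt ℝ φ (f y))
    (hf : DifferentiableAt ℝ f y) (i : Fin n) :
    pd i (fun z => φ (f z)) y = deriv φ (f y) * pd i f y := by
  have h := hφ.hasDerivAt.comp_hasFDerivAt y hf.hasFDerivAt
  exact pd_of_hasFDerivAt h i

theorem pd_comp' {φ : ℝ → ℝ} {φ' : ℝ} {f : E n → ℝ} {y : E n} (hφ : HasDerivAt φ φ' (f y))
    (hf : DifferentiableAt ℝ f y) (i : Fin n) :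
    pd i (fun z => φ (f z)) y = φ' * pd i f y := by
  rw [pd_comp hφ.differentiableAt hf, hφ.deriv]

theorem pd_inv {f : E n → ℝ} {y : E n} (hf : DifferentiableAt ℝ f y) (h0 : f y ≠ 0) (i : Fin n) :
    pd i (fun z => (f z)⁻¹) y = - pd i f y / f y ^ 2 := by
  rw [pd_comp' (hasDerivAt_inv h0) hf]
  ring

theorem pd_div {f g : E n → ℝ} {y : E n} (hf : DifferentiableAt ℝ f y)
    (hg : DifferentiableAt ℝ g y) (h0 : g y ≠ 0) (i : Fin n) :
    pd i (fun z => f z / g z) y = (pd i f y * g y - f y * pd i g y) / g y ^ 2 := by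
  have h : (fun z => f z / g z) = fun z => f z * (g z)⁻¹ := by
    funext z
    rw [div_eq_mul_inv]
  rw [h, pd_mul (g := fun z => (g z)⁻¹) hf (hg.inv h0), pd_inv hg h0]
  field_simp
  ring

theorem pd_pow {f : E n → ℝ} {y : E n} (hf : DifferentiableAt ℝ f y) (k : ℕ) (i : Fin n) :
    pd i (fun z => f z ^ k) y = k * f y ^ (k - 1) * pd i f y :=
  pd_comp' (hasDerivAt_pow k (f y)) hf i

theorem pd_exp {f : E n → ℝ} {y : E n} (hf : DifferentiableAt ℝ f y) (i : Fin n) :
    pd i (fun z => Real.exp (f z)) y = Real.exp (f y) * pd i f y :=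
  pd_comp' (Real.hasDerivAt_exp (f y)) hf i

theorem pd_log {f : E n → ℝ} {y : E n} (hf : DifferentiableAt ℝ f y) (h0 : f y ≠ 0) (i : Fin n) :
    pd i (fun z => Real.log (f z)) y = pd i f y / f y := by
  rw [pd_comp' (Real.hasDerivAt_log h0) hf, inv_mul_eq_div]

theorem pd_sqrt {f : E n → ℝ} {y : E n} (hf : DifferentiableAt ℝ f y) (h0 : f y ≠ 0)
    (i : Fin n) : pd i (fun z => Real.sqrt (f z)) y = pd i f y / (2 * Real.sqrt (f y)) := by
  rw [pd_comp' (Real.hasDerivAt_sqrt h0) hf]
  ring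

/-- Chain rule. -/
theorem pd_chain {f : E n → ℝ} {F : E n → E n} {y : E n} (hf : DifferentiableAt ℝ f (F y))
    (hF : DifferentiableAt ℝ F y) (i : Fin n) :
    pd i (fun z => f (F z)) y = ∑ k, pd k f (F y) * pd i (fun z => F z k) y := by
  have h := hf.hasFDerivAt.comp y hF.hasFDerivAt
  refine (pd_of_hasFDerivAt h i).trans ?_
  rw [ContinuousLinearMap.comp_apply, fderiv_eq_sum]
  refine Finset.sum_congr rfl fun k _ => ?_
  congr 1
  have h2 : HasFDerivAt (fun z => F z k)
      ((prj k).comp (fderiv ℝ F y)) y :=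
    (prj k).hasFDerivAt.comp y hF.hasFDerivAt
  rw [pd_of_hasFDerivAt h2 i]
  rfl

theorem jac_apply (F : E n → E n) (y : E n) (i j : Fin n) :
    jac F y i j = pd j (fun z => F z i) y := rfl

/-- The derivative of a map in terms of its Jacobian matrix. -/
theorem fderiv_apply_eq {F : E n → E n} {y : E n} (hF : DifferentiableAt ℝ F y) (v : E n)
    (i : Fin n) : fderiv ℝ F y v i = ∑ j, jac F y i j * v j := by
  have h2 : HasFDerivAt (fun z => F z i)
      ((prj i).comp (fderiv ℝ F y)) y :=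
    (prj i).hasFDerivAt.comp y hF.hasFDerivAt
  have h3 := fderiv_eq_sum (fun z => F z i) y v
  rw [h2.fderiv] at h3
  exact h3

theorem jac_comp {F G : E n → E n} {y : E n} (hF : DifferentiableAt ℝ F (G y))
    (hG : DifferentiableAt ℝ G y) : jac (fun z => F (G z)) y = jac F (G y) * jac G y := by
  ext i j
  rw [jac_apply, Matrix.mul_apply]
  have h : DifferentiableAt ℝ (fun z => F z i) (G y) :=
    ((prj i).differentiableAt (x := F (G y))).comp
      (G y) hF
  exact pd_chain h hG j

theorem jac_id (y : E n) : jac (fun z => z) y = 1 := by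
  ext i j
  rw [jac_apply, pd_coord, Matrix.one_apply]
  simp only [eq_comm]

/-- Smoothness of the partial derivatives. -/
theorem contDiffAt_pd {f : E n → ℝ} {y : E n} (hf : ContDiffAt ℝ ∞ f y) (i : Fin n) :
    ContDiffAt ℝ ∞ (pd i f) y := by
  have h : ContDiffAt ℝ ∞ (fderiv ℝ f) y := hf.fderiv_right (m := ∞) le_rfl
  exact h.clm_apply contDiffAt_const

theorem contDiffAt_pd_nat {f : E n → ℝ} {y : E n} {k : ℕ} (hf : ContDiffAt ℝ (k + 1) f y)
    (i : Fin n) : ContDiffAt ℝ k (pd i f) y := by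
  have h : ContDiffAt ℝ k (fderiv ℝ f) y := hf.fderiv_right (m := k) le_rfl
  exact h.clm_apply contDiffAt_const

theorem contDiff_pd {f : E n → ℝ} (hf : ContDiff ℝ ∞ f) (i : Fin n) :
    ContDiff ℝ ∞ (pd i f) :=
  contDiff_iff_contDiffAt.2 fun _ => contDiffAt_pd hf.contDiffAt i

theorem differentiableAt_pd {f : E n → ℝ} {y : E n} (hf : ContDiffAt ℝ ∞ f y) (i : Fin n) :
    DifferentiableAt ℝ (pd i f) y :=
  (contDiffAt_pd hf i).differentiableAt (by simp)

/-- Symmetry of the second derivatives. -/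
theorem pd_pd_comm {f : E n → ℝ} {y : E n} (hf : ContDiffAt ℝ 2 f y) (i j : Fin n) :
    pd i (pd j f) y = pd j (pd i f) y := by
  have h1 : DifferentiableAt ℝ (fderiv ℝ f) y := by
    have h : ContDiffAt ℝ 1 (fderiv ℝ f) y := hf.fderiv_right (m := 1) (by norm_num)
    exact h.differentiableAt (by norm_num)
  have h2 : ∀ a b : Fin n, pd a (pd b f) y =
      fderiv ℝ (fderiv ℝ f) y (EuclideanSpace.single a 1) (EuclideanSpace.single b 1) := by
    intro a b
    have h3 : HasFDerivAt (pd b f) (((fderiv ℝ (fderiv ℝ f) y).flip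
        (EuclideanSpace.single b 1))) y := by
      have := h1.hasFDerivAt.clm_apply (hasFDerivAt_const (EuclideanSpace.single b (1 : ℝ)) y)
      refine this.congr_fderiv ?_
      ext v
      simp
    rw [pd_of_hasFDerivAt h3 a]
    rfl
  rw [h2, h2]
  have h4 : IsSymmSndFDerivAt ℝ f y := hf.isSymmSndFDerivAt (by simp)
  exact h4 _ _

theorem _root_.Filter.EventuallyEq.pd {f g : E n → ℝ} {y : E n} (h : f =ᶠ[𝓝 y] g) (i : Fin n) :
    pd i f =ᶠ[𝓝 y] pd i g := by
  filter_upwards [h.fderiv (𝕜 := ℝ)] with z hz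
  simp only [pd_def, hz]

theorem _root_.Filter.EventuallyEq.pd_eq {f g : E n → ℝ} {y : E n} (h : f =ᶠ[𝓝 y] g) (i : Fin n) :
    Pool.Agent.Lib.MPdbccd7.pd i f y = Pool.Agent.Lib.MPdbccd7.pd i g y :=
  (h.pd i).eq_of_nhds

/-! ## The hyperboloid -/

theorem one_add_sq_pos (y : E n) : 0 < 1 + ∑ i, y i ^ 2 := by
  have := Finset.sum_nonneg (s := Finset.univ) fun i (_ : i ∈ Finset.univ) => sq_nonneg (y i)
  linarith

theorem y0_sq (y : E n) : y0 y ^ 2 = 1 + ∑ i, y i ^ 2 := Real.sq_sqrt (one_add_sq_pos y).le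

theorem y0_pos (y : E n) : 0 < y0 y := Real.sqrt_pos.2 (one_add_sq_pos y)

theorem y0_ge_one (y : E n) : 1 ≤ y0 y := by
  have h := y0_sq y
  have h2 := Finset.sum_nonneg (s := Finset.univ) fun i (_ : i ∈ Finset.univ) => sq_nonneg (y i)
  nlinarith [y0_pos y]

theorem y0_ne (y : E n) : y0 y ≠ 0 := (y0_pos y).ne'

theorem y0_zero : y0 (0 : E n) = 1 := by simp [y0]

theorem y0_sq' (y : E n) : y0 y ^ 2 = 1 + ‖y‖ ^ 2 := by
  rw [y0_sq, EuclideanSpace.real_norm_sq_eq]

theorem norm_lt_y0 (y : E n) : ‖y‖ < y0 y := by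
  have h := y0_sq' y
  nlinarith [y0_pos y, norm_nonneg y]

theorem abs_coord_lt_y0 (y : E n) (i : Fin n) : |y i| < y0 y := by
  have h : |y i| ≤ ‖y‖ := by
    rw [← Real.norm_eq_abs]
    exact PiLp.norm_apply_le y i
  exact h.trans_lt (norm_lt_y0 y)

theorem contDiff_y0 {m : WithTop ℕ∞} : ContDiff ℝ m (y0 (n := n)) := by
  unfold y0
  refine ContDiff.sqrt ?_ fun y => (one_add_sq_pos y).ne'
  exact contDiff_const.add (ContDiff.sum fun i _ => (contDiff_coord i).pow 2)

theorem continuous_y0 : Continuous (y0 (n := n)) := (contDiff_y0 (m := 0)).continuous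

theorem differentiable_y0 : Differentiable ℝ (y0 (n := n)) :=
  (contDiff_y0 (m := 1)).differentiable (by norm_num)

theorem pd_y0 (i : Fin n) (y : E n) : pd i y0 y = y i / y0 y := by
  have hd : ∀ k ∈ (Finset.univ : Finset (Fin n)), DifferentiableAt ℝ (fun z : E n => z k ^ 2) y :=
    fun k _ => ((differentiable_coord k).pow 2) y
  have h1 : pd i (fun z : E n => 1 + ∑ k, z k ^ 2) y = 2 * y i := by
    rw [pd_add (differentiableAt_const 1) (DifferentiableAt.fun_sum hd), pd_const, pd_sum hd,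
      zero_add]
    rw [Finset.sum_eq_single i]
    · rw [pd_pow (differentiable_coord i y), pd_coord]
      simp
    · intro k _ hk
      rw [pd_pow (differentiable_coord k y), pd_coord, if_neg hk.symm, mul_zero]
    · intro h
      exact absurd (Finset.mem_univ i) h
  have h2 : DifferentiableAt ℝ (fun z : E n => 1 + ∑ k, z k ^ 2) y :=
    (differentiableAt_const 1).add (DifferentiableAt.fun_sum hd)
  have h3 : pd i y0 y = pd i (fun z : E n => Real.sqrt (1 + ∑ k, z k ^ 2)) y := rfl
  rw [h3, pd_sqrt h2 (one_add_sq_pos y).ne', h1]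
  change 2 * y i / (2 * y0 y) = _
  rw [mul_div_mul_left _ _ (two_ne_zero)]

theorem q_comm (x y : E n) : q x y = q y x := by
  unfold q
  rw [mul_comm (y0 x)]
  congr 1
  exact Finset.sum_congr rfl fun i _ => mul_comm _ _

theorem q_self (x : E n) : q x x = 1 := by
  unfold q
  have h := y0_sq x
  have h2 : ∑ i, x i * x i = ∑ i, x i ^ 2 := Finset.sum_congr rfl fun i _ => (sq _).symm
  rw [h2]
  linarith [sq (y0 x)]

theorem q_zero (y : E n) : q 0 y = y0 y := by
  unfold q
  simp [y0_zero]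

theorem q_zero_right (y : E n) : q y 0 = y0 y := by rw [q_comm, q_zero]

theorem q_eq_inner (x y : E n) : q x y = y0 x * y0 y - inner ℝ x y := by
  unfold q
  rw [PiLp.inner_apply]
  congr 1
  refine Finset.sum_congr rfl fun i _ => ?_
  simp [mul_comm]

/-- The basic identity: `2 y₀ x y₀ (q - 1) ≥ |x y₀ ...|²`; in fact
`(y₀ x y₀ y)² = (1 + x·y)² + |x - y|² + (|x|²|y|² - (x·y)²)`. -/
theorem q_key (x y : E n) :
    (1 + inner ℝ x y) ^ 2 + ‖x - y‖ ^ 2 ≤ (y0 x * y0 y) ^ 2 := by
  have h1 := y0_sq' x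
  have h2 := y0_sq' y
  have h3 : (inner ℝ x y) ^ 2 ≤ (‖x‖ * ‖y‖) ^ 2 := by
    have := abs_real_inner_le_norm x y
    exact sq_le_sq' (by linarith [abs_le.1 this]) (abs_le.1 this).2
  have h4 := norm_sub_sq_real x y
  rw [mul_pow, h1, h2, h4]
  nlinarith [h3]

theorem q_ge_one (x y : E n) : 1 ≤ q x y := by
  rw [q_eq_inner]
  have h := q_key x y
  have h0 : 0 < y0 x * y0 y := mul_pos (y0_pos x) (y0_pos y)
  have h1 : (1 + inner ℝ x y) ^ 2 ≤ (y0 x * y0 y) ^ 2 := by
    nlinarith [sq_nonneg ‖x - y‖]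
  have h2 := abs_le_of_sq_le_sq h1 h0.le
  linarith [(abs_le.1 h2).2]

theorem q_pos (x y : E n) : 0 < q x y := lt_of_lt_of_le one_pos (q_ge_one x y)

theorem eq_of_q_eq_one {x y : E n} (h : q x y = 1) : x = y := by
  rw [q_eq_inner] at h
  have h1 := q_key x y
  have h2 : y0 x * y0 y = 1 + inner ℝ x y := by linarith
  rw [h2] at h1
  have h3 : ‖x - y‖ ^ 2 ≤ 0 := by linarith
  have h4 : ‖x - y‖ = 0 := by
    have := sq_nonneg ‖x - y‖
    exact pow_eq_zero_iff (two_ne_zero) |>.1 (le_antisymm h3 this)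
  exact sub_eq_zero.1 (norm_eq_zero.1 h4)

theorem q_eq_one_iff {x y : E n} : q x y = 1 ↔ x = y :=
  ⟨eq_of_q_eq_one, fun h => h ▸ q_self x⟩

theorem one_lt_q {x y : E n} (h : x ≠ y) : 1 < q x y :=
  lt_of_le_of_ne (q_ge_one x y) fun h2 => h (eq_of_q_eq_one h2.symm)

theorem continuous_q : Continuous fun p : E n × E n => q p.1 p.2 := by
  unfold q
  refine ((continuous_y0.comp continuous_fst).mul (continuous_y0.comp continuous_snd)).sub ?_
  refine continuous_finsetSum _ fun i _ => ?_
  exact ((differentiable_coord i).continuous.comp continuous_fst).mul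
    ((differentiable_coord i).continuous.comp continuous_snd)

theorem contDiff_q_right (x : E n) {m : WithTop ℕ∞} : ContDiff ℝ m fun y => q x y := by
  unfold q
  exact (contDiff_const.mul contDiff_y0).sub
    (ContDiff.sum fun i _ => contDiff_const.mul (contDiff_coord i))

/-! ## Lorentz matrices -/

theorem emb_zero' (y : E n) : emb y 0 = y0 y := rfl

theorem emb_succ (y : E n) (i : Fin n) : emb y i.succ = y i := rfl

/-- The Lorentz form `-a₀b₀ + ∑ a_i b_i`. -/
def lf (a b : Fin (n + 1) → ℝ) : ℝ := a ⬝ᵥ (eta n *ᵥ b)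

theorem lf_eq (a b : Fin (n + 1) → ℝ) : lf a b = - (a 0 * b 0) + ∑ i : Fin n, a i.succ * b i.succ := by
  unfold lf eta
  rw [dotProduct, Fin.sum_univ_succ]
  simp [Matrix.mulVec_diagonal]

theorem q_eq_lf (x y : E n) : q x y = - lf (emb x) (emb y) := by
  rw [lf_eq]
  unfold q
  simp only [emb_zero', emb_succ]
  ring

theorem eta_mul_eta : eta n * eta n = 1 := by
  unfold eta
  rw [Matrix.diagonal_mul_diagonal, ← Matrix.diagonal_one]
  congr 1
  funext i
  refine Fin.cases ?_ (fun j => ?_) i <;> simp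

theorem eta_transpose : (eta n)ᵀ = eta n := by
  unfold eta
  rw [Matrix.diagonal_transpose]

theorem eta_zero_zero : eta n 0 0 = -1 := by
  simp [eta]

theorem IsLor.lf_eq {A : Matrix (Fin (n + 1)) (Fin (n + 1)) ℝ} (hA : IsLor A)
    (a b : Fin (n + 1) → ℝ) : lf (A *ᵥ a) (A *ᵥ b) = lf a b := by
  unfold lf
  rw [Matrix.mulVec_mulVec, Matrix.dotProduct_mulVec, Matrix.vecMul_mulVec,
    ← Matrix.dotProduct_mulVec]
  rw [← Matrix.mul_assoc, hA.1]

theorem IsLor.left_inv {A : Matrix (Fin (n + 1)) (Fin (n + 1)) ℝ} (hA : IsLor A) :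
    (eta n * Aᵀ * eta n) * A = 1 := by
  have : (eta n * Aᵀ * eta n) * A = eta n * (Aᵀ * eta n * A) := by
    simp only [Matrix.mul_assoc]
  rw [this, hA.1, eta_mul_eta]

theorem IsLor.inv_eq {A : Matrix (Fin (n + 1)) (Fin (n + 1)) ℝ} (hA : IsLor A) :
    A⁻¹ = eta n * Aᵀ * eta n := Matrix.inv_eq_left_inv hA.left_inv

theorem IsLor.inv_mul {A : Matrix (Fin (n + 1)) (Fin (n + 1)) ℝ} (hA : IsLor A) :
    A⁻¹ * A = 1 := by rw [hA.inv_eq, hA.left_inv]

theorem IsLor.mul_inv {A : Matrix (Fin (n + 1)) (Fin (n + 1)) ℝ} (hA : IsLor A) :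
    A * A⁻¹ = 1 := mul_eq_one_comm.1 hA.inv_mul

theorem IsLor.eta_right {A : Matrix (Fin (n + 1)) (Fin (n + 1)) ℝ} (hA : IsLor A) :
    A * eta n * Aᵀ = eta n := by
  have h := hA.mul_inv
  rw [hA.inv_eq] at h
  have h2 : A * (eta n * Aᵀ * eta n) * eta n = 1 * eta n := by rw [h]
  rw [one_mul] at h2
  have h3 : A * (eta n * Aᵀ * eta n) * eta n = A * eta n * Aᵀ * (eta n * eta n) := by
    simp only [Matrix.mul_assoc]
  rw [h3, eta_mul_eta, Matrix.mul_one] at h2
  exact h2

theorem IsLor.one : IsLor (1 : Matrix (Fin (n + 1)) (Fin (n + 1)) ℝ) :=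
  ⟨by simp, by simp⟩

theorem IsLor.inv {A : Matrix (Fin (n + 1)) (Fin (n + 1)) ℝ} (hA : IsLor A) : IsLor A⁻¹ := by
  constructor
  · rw [hA.inv_eq, Matrix.transpose_mul, Matrix.transpose_mul, Matrix.transpose_transpose,
      eta_transpose]
    have h3 : eta n * (A * eta n) * eta n * (eta n * Aᵀ * eta n) =
        eta n * (A * eta n * (eta n * eta n) * Aᵀ) * eta n := by
      simp only [Matrix.mul_assoc]
    rw [h3, eta_mul_eta, Matrix.mul_one, hA.eta_right, eta_mul_eta, Matrix.one_mul]
  · rw [hA.inv_eq]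
    have : (eta n * Aᵀ * eta n) 0 0 = A 0 0 := by
      unfold eta
      rw [Matrix.mul_diagonal, Matrix.diagonal_mul]
      simp
    rw [this]
    exact hA.2

/-- The rows of a Lorentz matrix are orthonormal. -/
theorem IsLor.row {A : Matrix (Fin (n + 1)) (Fin (n + 1)) ℝ} (hA : IsLor A)
    (i j : Fin (n + 1)) : lf (A i) (A j) = eta n i j := by
  have h := congrFun (congrFun hA.eta_right i) j
  rw [← h, Matrix.mul_assoc, Matrix.mul_apply]
  unfold lf
  rw [dotProduct]
  refine Finset.sum_congr rfl fun k _ => ?_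
  congr 1

theorem IsLor.row_zero {A : Matrix (Fin (n + 1)) (Fin (n + 1)) ℝ} (hA : IsLor A) :
    A 0 0 ^ 2 = 1 + ∑ j : Fin n, A 0 j.succ ^ 2 := by
  have h := hA.row 0 0
  rw [Pool.Agent.Lib.MPdbccd7.lf_eq, eta_zero_zero] at h
  have h2 : ∑ j : Fin n, A 0 j.succ * A 0 j.succ = ∑ j : Fin n, A 0 j.succ ^ 2 :=
    Finset.sum_congr rfl fun i _ => (sq _).symm
  rw [h2] at h
  linarith [sq (A 0 0)]

theorem IsLor.mulVec_zero_pos {A : Matrix (Fin (n + 1)) (Fin (n + 1)) ℝ} (hA : IsLor A) (y : E n) :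
    0 < (A *ᵥ emb y) 0 := by
  let x : E n := WithLp.toLp 2 fun j => - A 0 j.succ
  have hx : y0 x = A 0 0 := by
    have h1 : y0 x ^ 2 = A 0 0 ^ 2 := by
      rw [y0_sq, hA.row_zero]
      simp [x]
    exact (pow_left_inj₀ (y0_pos x).le hA.2.le two_ne_zero).1 h1
  have h2 : (A *ᵥ emb y) 0 = q x y := by
    unfold q
    rw [Matrix.mulVec, dotProduct, Fin.sum_univ_succ, hx]
    simp [x, emb_zero', emb_succ, Finset.sum_neg_distrib]
  rw [h2]
  exact q_pos x y

theorem emb_act {A : Matrix (Fin (n + 1)) (Fin (n + 1)) ℝ} (hA : IsLor A) (y : E n) :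
    emb (act A y) = A *ᵥ emb y := by
  funext i
  refine Fin.cases ?_ (fun j => ?_) i
  · rw [emb_zero']
    have h1 : y0 (act A y) ^ 2 = ((A *ᵥ emb y) 0) ^ 2 := by
      have h2 := hA.lf_eq (emb y) (emb y)
      have h3 : lf (emb y) (emb y) = -1 := by
        have := q_eq_lf y y
        rw [q_self] at this
        linarith
      rw [h3, Pool.Agent.Lib.MPdbccd7.lf_eq] at h2
      rw [y0_sq]
      have h4 : ∑ i, (act A y) i ^ 2 = ∑ i : Fin n, (A *ᵥ emb y) i.succ * (A *ᵥ emb y) i.succ :=
        Finset.sum_congr rfl fun i _ => sq _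
      rw [h4]
      linarith [sq ((A *ᵥ emb y) 0)]
    exact (pow_left_inj₀ (y0_pos _).le (hA.mulVec_zero_pos y).le two_ne_zero).1 h1
  · rfl

theorem y0_act {A : Matrix (Fin (n + 1)) (Fin (n + 1)) ℝ} (hA : IsLor A) (y : E n) :
    y0 (act A y) = (A *ᵥ emb y) 0 := by
  rw [← emb_act hA]
  rfl

theorem act_apply (A : Matrix (Fin (n + 1)) (Fin (n + 1)) ℝ) (y : E n) (i : Fin n) :
    act A y i = (A *ᵥ emb y) i.succ := rfl

theorem act_apply' (A : Matrix (Fin (n + 1)) (Fin (n + 1)) ℝ) (y : E n) (i : Fin n) :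
    act A y i = A i.succ 0 * y0 y + ∑ k : Fin n, A i.succ k.succ * y k := by
  rw [act_apply, Matrix.mulVec, dotProduct, Fin.sum_univ_succ]
  rfl

theorem emb_injective : Function.Injective (emb (n := n)) := by
  intro x y h
  ext i
  exact congrFun h i.succ

theorem act_mul {A B : Matrix (Fin (n + 1)) (Fin (n + 1)) ℝ} (hB : IsLor B) (y : E n) :
    act (A * B) y = act A (act B y) := by
  ext i
  rw [act_apply, act_apply, emb_act hB, Matrix.mulVec_mulVec]

theorem act_one (y : E n) : act 1 y = y := by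
  ext i
  rw [act_apply, Matrix.one_mulVec]
  rfl

theorem IsLor.mul {A B : Matrix (Fin (n + 1)) (Fin (n + 1)) ℝ} (hA : IsLor A) (hB : IsLor B) :
    IsLor (A * B) := by
  constructor
  · rw [Matrix.transpose_mul]
    have : Bᵀ * Aᵀ * eta n * (A * B) = Bᵀ * (Aᵀ * eta n * A) * B := by
      simp only [Matrix.mul_assoc]
    rw [this, hA.1, hB.1]
  · have h1 : emb (act B 0) = fun i => B i 0 := by
      rw [emb_act hB]
      funext i
      rw [Matrix.mulVec, dotProduct, Fin.sum_univ_succ, emb_zero', y0_zero]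
      simp [emb_succ]
    have h2 := hA.mulVec_zero_pos (act B 0)
    rw [h1] at h2
    exact h2

theorem emb_zero : emb (0 : E n) = Pi.single 0 1 := by
  funext i
  refine Fin.cases ?_ (fun j => ?_) i
  · rw [emb_zero', y0_zero, Pi.single_eq_same]
  · rw [emb_succ, Pi.single_eq_of_ne (Fin.succ_ne_zero j)]
    rfl

theorem act_zero_zero {A : Matrix (Fin (n + 1)) (Fin (n + 1)) ℝ} (hA : IsLor A) :
    y0 (act A 0) = A 0 0 := by
  rw [y0_act hA, emb_zero]
  simp

theorem act_inv_act {A : Matrix (Fin (n + 1)) (Fin (n + 1)) ℝ} (hA : IsLor A) (y : E n) :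
    act A⁻¹ (act A y) = y := by
  rw [← act_mul hA, hA.inv_mul, act_one]

theorem act_act_inv {A : Matrix (Fin (n + 1)) (Fin (n + 1)) ℝ} (hA : IsLor A) (y : E n) :
    act A (act A⁻¹ y) = y := by
  rw [← act_mul hA.inv, hA.mul_inv, act_one]

theorem act_injective {A : Matrix (Fin (n + 1)) (Fin (n + 1)) ℝ} (hA : IsLor A) :
    Function.Injective (act A) :=
  Function.LeftInverse.injective (act_inv_act hA)

theorem q_act {A : Matrix (Fin (n + 1)) (Fin (n + 1)) ℝ} (hA : IsLor A) (x y : E n) :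
    q (act A x) (act A y) = q x y := by
  rw [q_eq_lf, q_eq_lf, emb_act hA, emb_act hA, hA.lf_eq]

theorem contDiff_act (A : Matrix (Fin (n + 1)) (Fin (n + 1)) ℝ) {m : WithTop ℕ∞} :
    ContDiff ℝ m (act A) := by
  rw [contDiff_euclidean]
  intro i
  have : (fun y : E n => act A y i) =
      fun y : E n => A i.succ 0 * y0 y + ∑ k : Fin n, A i.succ k.succ * y k := by
    funext y
    exact act_apply' A y i
  rw [this]
  exact (contDiff_const.mul contDiff_y0).add
    (ContDiff.sum fun k _ => contDiff_const.mul (contDiff_coord k))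

theorem differentiable_act (A : Matrix (Fin (n + 1)) (Fin (n + 1)) ℝ) :
    Differentiable ℝ (act A) := (contDiff_act A (m := 1)).differentiable (by norm_num)

theorem continuous_act (A : Matrix (Fin (n + 1)) (Fin (n + 1)) ℝ) : Continuous (act A) :=
  (contDiff_act A (m := 0)).continuous

theorem jac_act (A : Matrix (Fin (n + 1)) (Fin (n + 1)) ℝ) (y : E n) (i j : Fin n) :
    jac (act A) y i j = A i.succ j.succ + A i.succ 0 * y j / y0 y := by
  rw [jac_apply]
  have : (fun y : E n => act A y i) =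
      fun y : E n => A i.succ 0 * y0 y + ∑ k : Fin n, A i.succ k.succ * y k := by
    funext y
    exact act_apply' A y i
  have hd : ∀ k ∈ (Finset.univ : Finset (Fin n)),
      DifferentiableAt ℝ (fun z : E n => A i.succ k.succ * z k) y :=
    fun k _ => ((differentiable_coord k) y).const_mul _
  rw [this, pd_add ((differentiable_y0 y).const_mul _) (DifferentiableAt.fun_sum hd),
    pd_const_mul (differentiable_y0 y), pd_y0, pd_sum hd]
  rw [Finset.sum_eq_single j]
  · rw [pd_const_mul (differentiable_coord j y), pd_coord, if_pos rfl]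
    ring
  · intro k _ hk
    rw [pd_const_mul (differentiable_coord k y), pd_coord, if_neg hk.symm, mul_zero]
  · intro h
    exact absurd (Finset.mem_univ j) h

/-- The derivative of `emb`, an `(n+1) × n`-matrix. -/
noncomputable def demb (y : E n) : Matrix (Fin (n + 1)) (Fin n) ℝ :=
  Matrix.of fun a j => Fin.cases (y j / y0 y) (fun i => if i = j then 1 else 0) a

theorem demb_zero (y : E n) (j : Fin n) : demb y 0 j = y j / y0 y := rfl

theorem demb_succ (y : E n) (i j : Fin n) : demb y i.succ j = if i = j then 1 else 0 := rfl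

theorem gH_apply (y : E n) (i j : Fin n) :
    gH y i j = (if i = j then 1 else 0) - y i * y j / y0 y ^ 2 := rfl

theorem gH_eq (y : E n) : gH y = (demb y)ᵀ * eta n * demb y := by
  ext i j
  rw [Matrix.mul_assoc, Matrix.mul_apply, Fin.sum_univ_succ, gH_apply]
  unfold eta
  simp only [Matrix.transpose_apply, Matrix.diagonal_mul, demb_zero, demb_succ, Fin.cons_zero,
    Fin.cons_succ]
  have h0 := y0_ne y
  have h1 : ∑ x : Fin n, (if x = i then (1 : ℝ) else 0) * (1 * if x = j then 1 else 0) =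
      if i = j then 1 else 0 := by
    rw [Finset.sum_eq_single i]
    · simp
    · intro b _ hb
      simp [hb]
    · intro h
      exact absurd (Finset.mem_univ i) h
  rw [h1]
  field_simp
  ring

theorem demb_act {A : Matrix (Fin (n + 1)) (Fin (n + 1)) ℝ} (hA : IsLor A) (y : E n) :
    demb (act A y) * jac (act A) y = A * demb y := by
  ext a j
  refine Fin.cases ?_ (fun i => ?_) a
  · rw [Matrix.mul_apply]
    simp only [demb_zero]
    have h1 := pd_chain (f := y0) (F := act A) (differentiable_y0 (act A y))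
      (differentiable_act A y) j
    have h2 : (fun z : E n => y0 (act A z)) =
        fun z : E n => A 0 0 * y0 z + ∑ k : Fin n, A 0 k.succ * z k := by
      funext z
      rw [y0_act hA, Matrix.mulVec, dotProduct, Fin.sum_univ_succ]
      rfl
    have hd : ∀ k ∈ (Finset.univ : Finset (Fin n)),
        DifferentiableAt ℝ (fun z : E n => A 0 k.succ * z k) y :=
      fun k _ => ((differentiable_coord k) y).const_mul _
    rw [h2, pd_add ((differentiable_y0 y).const_mul _) (DifferentiableAt.fun_sum hd),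
      pd_const_mul (differentiable_y0 y), pd_y0, pd_sum hd] at h1
    have h3 : ∑ k : Fin n, pd j (fun z : E n => A 0 k.succ * z k) y = A 0 j.succ := by
      rw [Finset.sum_eq_single j]
      · rw [pd_const_mul (differentiable_coord j y), pd_coord, if_pos rfl, mul_one]
      · intro k _ hk
        rw [pd_const_mul (differentiable_coord k y), pd_coord, if_neg hk.symm, mul_zero]
      · intro h
        exact absurd (Finset.mem_univ j) h
    rw [h3] at h1
    have h4 : ∑ k, pd k y0 (act A y) * pd j (fun z => act A z k) y =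
        ∑ x, act A y x / y0 (act A y) * jac (act A) y x j := by
      refine Finset.sum_congr rfl fun k _ => ?_
      rw [pd_y0, jac_apply]
    rw [← h4, ← h1, Matrix.mul_apply, Fin.sum_univ_succ]
    simp only [demb_zero, demb_succ]
    simp
  · rw [Matrix.mul_apply, Matrix.mul_apply, Fin.sum_univ_succ]
    simp only [demb_zero, demb_succ]
    simp only [ite_mul, one_mul, zero_mul, Finset.sum_ite_eq, Finset.mem_univ, if_true, mul_ite,
      mul_one, mul_zero, Finset.sum_ite_eq']
    rw [jac_act]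
    ring

/-- Lorentz matrices are isometries of `gH`. -/
theorem jac_act_gH {A : Matrix (Fin (n + 1)) (Fin (n + 1)) ℝ} (hA : IsLor A) (y : E n) :
    (jac (act A) y)ᵀ * gH (act A y) * jac (act A) y = gH y := by
  rw [gH_eq, gH_eq]
  have h1 : (jac (act A) y)ᵀ * ((demb (act A y))ᵀ * eta n * demb (act A y)) * jac (act A) y =
      (demb (act A y) * jac (act A) y)ᵀ * eta n * (demb (act A y) * jac (act A) y) := by
    rw [Matrix.transpose_mul]
    simp only [Matrix.mul_assoc]
  rw [h1, demb_act hA, Matrix.transpose_mul]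
  have h2 : (demb y)ᵀ * Aᵀ * eta n * (A * demb y) = (demb y)ᵀ * (Aᵀ * eta n * A) * demb y := by
    simp only [Matrix.mul_assoc]
  rw [h2, hA.1]

theorem jac_act_inv {A : Matrix (Fin (n + 1)) (Fin (n + 1)) ℝ} (hA : IsLor A) (y : E n) :
    jac (act A⁻¹) (act A y) * jac (act A) y = 1 := by
  rw [← jac_comp (differentiable_act A⁻¹ _) (differentiable_act A y), ← jac_id y]
  congr 1
  funext z
  exact act_inv_act hA z

theorem jac_act_det_ne {A : Matrix (Fin (n + 1)) (Fin (n + 1)) ℝ} (hA : IsLor A) (y : E n) :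
    (jac (act A) y).det ≠ 0 := by
  have h := congrArg Matrix.det (jac_act_inv hA y)
  rw [Matrix.det_mul, Matrix.det_one] at h
  exact right_ne_zero_of_mul_eq_one h

/-- The symmetric boost taking the base point to `y`. -/
noncomputable def boost (y : E n) : Matrix (Fin (n + 1)) (Fin (n + 1)) ℝ :=
  Matrix.of fun a b => Fin.cases (Fin.cases (y0 y) (fun j => y j) b)
    (fun i => Fin.cases (y i) (fun j => (if i = j then 1 else 0) + y i * y j / (1 + y0 y)) b) a

theorem boost_zero_zero (y : E n) : boost y 0 0 = y0 y := rfl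
theorem boost_zero_succ (y : E n) (j : Fin n) : boost y 0 j.succ = y j := rfl
theorem boost_succ_zero (y : E n) (i : Fin n) : boost y i.succ 0 = y i := rfl
theorem boost_succ_succ (y : E n) (i j : Fin n) :
    boost y i.succ j.succ = (if i = j then 1 else 0) + y i * y j / (1 + y0 y) := rfl

theorem isLor_boost (y : E n) : IsLor (boost y) := by
  refine ⟨?_, by rw [boost_zero_zero]; exact y0_pos y⟩
  have h0 : (1 + y0 y) ≠ 0 := by linarith [y0_pos y]
  have hs := y0_sq y
  have hsum : ∑ k : Fin n, y k * y k = y0 y ^ 2 - 1 := by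
    rw [hs]
    rw [add_sub_cancel_left]
    exact Finset.sum_congr rfl fun i _ => (sq _).symm
  have hsum1 : ∀ (i : Fin n), ∑ k : Fin n, y k * ((if k = i then 1 else 0) +
      y k * y i / (1 + y0 y)) = y i + (y0 y ^ 2 - 1) * y i / (1 + y0 y) := by
    intro i
    rw [← hsum, Finset.sum_mul, Finset.sum_div]
    have : y i = ∑ k : Fin n, y k * (if k = i then 1 else 0) := by simp
    conv_rhs => rw [this]
    rw [← Finset.sum_add_distrib]
    refine Finset.sum_congr rfl fun k _ => ?_
    simp only [Finset.sum_ite_eq', mul_ite, mul_one, mul_zero, Finset.mem_univ, if_true]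
    split_ifs <;> ring
  ext a b
  rw [Matrix.mul_assoc, Matrix.mul_apply, Fin.sum_univ_succ]
  unfold eta
  simp only [Matrix.transpose_apply, Matrix.diagonal_mul, Fin.cons_zero, Fin.cons_succ, one_mul]
  refine Fin.cases ?_ (fun i => ?_) a <;> refine Fin.cases ?_ (fun j => ?_) b
  · simp only [boost_zero_zero, boost_succ_zero, hsum]
    simp
    ring
  · simp only [boost_zero_zero, boost_succ_zero, boost_zero_succ, boost_succ_succ, hsum1]
    rw [Matrix.diagonal_apply_ne _ (Fin.succ_ne_zero j).symm]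
    field_simp
    ring
  · simp only [boost_zero_zero, boost_succ_zero, boost_zero_succ, boost_succ_succ]
    have : ∑ x : Fin n, ((if x = i then 1 else 0) + y x * y i / (1 + y0 y)) * y x =
        y i + (y0 y ^ 2 - 1) * y i / (1 + y0 y) := by
      rw [← hsum1]
      exact Finset.sum_congr rfl fun k _ => mul_comm _ _
    rw [this, Matrix.diagonal_apply_ne _ (Fin.succ_ne_zero i)]
    field_simp
    ring
  · simp only [boost_zero_succ, boost_succ_succ]
    have : ∑ x : Fin n, ((if x = i then 1 else 0) + y x * y i / (1 + y0 y)) *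
        ((if x = j then 1 else 0) + y x * y j / (1 + y0 y)) =
        (if i = j then 1 else 0) + 2 * (y i * y j) / (1 + y0 y) +
          (y0 y ^ 2 - 1) * (y i * y j) / (1 + y0 y) ^ 2 := by
      rw [← hsum, Finset.sum_mul, Finset.sum_div]
      have e1 : ∀ x : Fin n, ((if x = i then (1 : ℝ) else 0) + y x * y i / (1 + y0 y)) *
        ((if x = j then 1 else 0) + y x * y j / (1 + y0 y)) =
        (if x = i then (if x = j then 1 else 0) else 0) +
        (if x = i then y x * y j / (1 + y0 y) else 0) +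
        (if x = j then y x * y i / (1 + y0 y) else 0) +
        y x * y x * (y i * y j) / (1 + y0 y) ^ 2 := by
        intro x
        split_ifs <;> field_simp <;> ring
      rw [Finset.sum_congr rfl fun x _ => e1 x, Finset.sum_add_distrib, Finset.sum_add_distrib,
        Finset.sum_add_distrib]
      simp only [Finset.sum_ite_eq', Finset.mem_univ, if_true]
      ring
    rw [this]
    by_cases hij : i = j
    · subst hij
      rw [Matrix.diagonal_apply_eq]
      simp
      field_simp
      ring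
    · rw [Matrix.diagonal_apply_ne _ (fun h => hij (Fin.succ_injective _ h)), if_neg hij]
      field_simp
      ring

theorem act_boost_zero (y : E n) : act (boost y) 0 = y := by
  ext i
  rw [act_apply', y0_zero, boost_succ_zero]
  simp

theorem exists_boost (y : E n) :
    ∃ A : Matrix (Fin (n + 1)) (Fin (n + 1)) ℝ, IsLor A ∧ act A 0 = y :=
  ⟨boost y, isLor_boost y, act_boost_zero y⟩

/-- The quasi triangle inequality `cosh (a + b) ≤ 2 cosh a cosh b`. -/
theorem q_le (x y z : E n) : q x z ≤ 2 * q x y * q y z := by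
  have hL := isLor_boost y
  have h1 : ∀ w : E n, q w y = y0 (act (boost y)⁻¹ w) := by
    intro w
    have h := q_act hL.inv w y
    have h2 : act (boost y)⁻¹ y = 0 := by
      have := act_inv_act hL 0
      rwa [act_boost_zero] at this
    rw [h2, q_zero_right] at h
    exact h.symm
  rw [h1 x, q_comm y z, h1 z, ← q_act hL.inv x z, q_eq_inner]
  set a := act (boost y)⁻¹ x
  set b := act (boost y)⁻¹ z
  have h2 := abs_real_inner_le_norm a b
  have h3 : ‖a‖ * ‖b‖ ≤ y0 a * y0 b :=
    mul_le_mul (norm_lt_y0 a).le (norm_lt_y0 b).le (norm_nonneg _) (y0_pos a).le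
  have h4 := (abs_le.1 h2).1
  linarith

theorem y0_le_q (x y : E n) : y0 x ≤ 2 * y0 y * q x y := by
  have h := q_le 0 y x
  rwa [q_zero, q_zero, q_comm y x] at h

end Pool.Agent.Lib.MPdbccd7
end

section
/-!
# HYP: the hyperbolic metric
-/
open scoped Manifold ContDiff Matrix

namespace Pool.Agent.Lib.MPdbccd7

theorem specHyp : SpecHyp := by
  intro n _ D Γ hΓ
  refine ⟨⟨fun i j => HypM.contDiff_gH i j, fun y => HypM.posDef_gH y, ?_⟩, HypM.secInE_gH⟩
  intro γ hγ y
  exact (jac_act_gH (hΓ.lor γ hγ) y).symm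

end Pool.Agent.Lib.MPdbccd7
end
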