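import Pool.Agent.Lib.MP_dbccd7_gt.Defs

/-!
# The three main blocks
-/

open scoped Manifold ContDiff Matrix

namespace Pool.Agent.Lib.MPdbccd7

/-- LAT: existence of the lattice (congruence subgroups of `O(-√2 x₀² + ∑ x_i²; ℤ[√2])`). -/
def SpecLat : Prop :=
  ∀ n : ℕ, 3 ≤ n → ∀ D : ℝ, ∃ Γ : Subgroup (Matrix.GeneralLinearGroup (Fin (n + 1)) ℝ),
    GoodLattice n D Γ

/-- RED: quotient manifold, descent of metrics, lifting of maps. -/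
def SpecRed : Prop :=
  ∀ n : ℕ, 3 ≤ n → ∀ (D : ℝ) (Γ : Subgroup (Matrix.GeneralLinearGroup (Fin (n + 1)) ℝ)),
    GoodLattice n D Γ → ∀ g h : MF n, InvMetric n Γ g → InvMetric n Γ h →
    ∀ s t : Set ℝ, SecInE g s → SecInE h t → (∀ u : E n → E n, ¬ EqHarm n Γ g h u) →
    ∃ (M : Type) (_ : TopologicalSpace M) (_ : ChartedSpace (E n) M),
      IsManifold (𝓡 n) ∞ M ∧ T2Space M ∧ SecondCountableTopology M ∧ CompactSpace M ∧
      ConnectedSpace M ∧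
      ∃ g' h' : RMetric n M, g'.SecIn s ∧ h'.SecIn t ∧
        ∀ u : M → M, IsHarmonicMap g' h' u →
          (∃ hu : Continuous u, ContinuousMap.Homotopic ⟨u, hu⟩ (ContinuousMap.id M)) →
          ¬ ∃ Φ : M ≃ₘ^∞⟮𝓡 n, 𝓡 n⟯ M, (Φ : M → M) = u

/-- HYP: the hyperbolic metric (invariant under all Lorentz matrices, curvature `-1`). -/
def SpecHyp : Prop :=
  ∀ n : ℕ, 3 ≤ n → ∀ (D : ℝ) (Γ : Subgroup (Matrix.GeneralLinearGroup (Fin (n + 1)) ℝ)),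
    GoodLattice n D Γ → InvMetric n Γ (gH (n := n)) ∧ SecInE (gH (n := n)) {-1}

/-- UP: the analysis. -/
def SpecUp : Prop :=
  ∀ n : ℕ, 3 ≤ n → ∀ δ : ℝ, 0 < δ → ∃ D : ℝ,
    ∀ Γ : Subgroup (Matrix.GeneralLinearGroup (Fin (n + 1)) ℝ), GoodLattice n D Γ →
      ∃ g : MF n, InvMetric n Γ g ∧ SecInE g (Set.Ioo (-1 - δ) (-1 + δ)) ∧
        ∀ u : E n → E n, ¬ EqHarm n Γ g gH u

theorem main_of (hL : SpecLat) (hR : SpecRed) (hH : SpecHyp) (hU : SpecUp) : MainStatement := by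
  intro n hn δ hδ
  obtain ⟨D, hD⟩ := hU n hn δ hδ
  obtain ⟨Γ, hΓ⟩ := hL n hn D
  obtain ⟨g, hg, hs, hu⟩ := hD Γ hΓ
  obtain ⟨hh, ht⟩ := hH n hn D Γ hΓ
  exact hR n hn D Γ hΓ g gH hg hh _ _ hs ht hu

end Pool.Agent.Lib.MPdbccd7
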