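import Pool.Agent.Lib.MP_dbccd7_gt.DefsB
import Pool.Agent.Lib.MP_dbccd7_gt.SpecA

/-!
# Exact statements of the modules (analysis part)

Text: `/team-store/MP_dbccd7_gt_PROOF_h74.md`.  File of module `NAME`: `B/<Name>.lean`,
theorem `spec<Name> (hypotheses = other Specs) : Spec<Name>`.
-/

open scoped Manifold ContDiff Matrix

namespace Pool.Agent.Lib.MPdbccd7

/-! ## General geometry -/

/-- CAL: calculus of the Laplacian of a general metric. -/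
def SpecCal : Prop :=
  ∀ (n : ℕ) (g : MF n) (y : E n), MetAt g y →
    (∀ f : E n → ℝ, ∀ g' : MF n, g =ᶠ[nhds y] g' → lap g f y = lap g' f y) ∧
    (∀ f h : E n → ℝ, f =ᶠ[nhds y] h → lap g f y = lap g h y) ∧
    (∀ c : ℝ, lap g (fun _ => c) y = 0) ∧
    (∀ f h : E n → ℝ, ContDiffAt ℝ ∞ f y → ContDiffAt ℝ ∞ h y →
      lap g (fun z => f z + h z) y = lap g f y + lap g h y ∧
      lap g (fun z => f z - h z) y = lap g f y - lap g h y ∧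
      lap g (fun z => f z * h z) y = f y * lap g h y + h y * lap g f y + 2 * gam g f h y) ∧
    (∀ (c : ℝ) (f : E n → ℝ), ContDiffAt ℝ ∞ f y → lap g (fun z => c * f z) y = c * lap g f y) ∧
    (∀ (φ : ℝ → ℝ) (f : E n → ℝ), ContDiffAt ℝ ∞ f y → ContDiffAt ℝ ∞ φ (f y) →
      lap g (fun z => φ (f z)) y = deriv φ (f y) * lap g f y
        + deriv (deriv φ) (f y) * gam g f f y) ∧
    (∀ f : E n → ℝ, ContDiffAt ℝ ∞ f y → IsLocalMax f y → lap g f y ≤ 0)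

/-- HEQ: the tension field of a map to hyperbolic space (uses `chr_gH` of `Hyp.lean`). -/
def SpecHeq : Prop :=
  ∀ (n : ℕ) (g : MF n) (u : E n → E n) (k : Fin n) (y : E n),
    tension g gH u k y = tv g u k y

/-- LOR: Lorentzian algebra. `X` is a tangent vector at `p`, `Y` at `r` (spatial parts). -/
def SpecLor : Prop :=
  (∀ (n : ℕ) (p r : E n) (X Y : Fin n → ℝ), 1 < q p r →
    q p r * (q p r - 1) *
      ((∑ k, X k ^ 2) - (∑ k, p k * X k) ^ 2 / y0 p ^ 2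
          - ((∑ k, X k * r k) - (∑ k, p k * X k) / y0 p * y0 r) ^ 2 / (q p r ^ 2 - 1)
        + ((∑ k, Y k ^ 2) - (∑ k, r k * Y k) ^ 2 / y0 r ^ 2
          - ((∑ k, Y k * p k) - (∑ k, r k * Y k) / y0 r * y0 p) ^ 2 / (q p r ^ 2 - 1)))
    ≤ q p r ^ 2 * ((∑ k, X k ^ 2) - (∑ k, p k * X k) ^ 2 / y0 p ^ 2
          + ((∑ k, Y k ^ 2) - (∑ k, r k * Y k) ^ 2 / y0 r ^ 2))
      - 2 * q p r * ((∑ k, X k * Y k) - (∑ k, p k * X k) * (∑ k, r k * Y k) / (y0 p * y0 r))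
      - (((∑ k, X k * r k) - (∑ k, p k * X k) / y0 p * y0 r)
          + ((∑ k, Y k * p k) - (∑ k, r k * Y k) / y0 r * y0 p)) ^ 2) ∧
  (∀ (n : ℕ) (p r : E n) (X : Fin n → ℝ), 1 < q p r →
    0 ≤ (∑ k, X k ^ 2) - (∑ k, p k * X k) ^ 2 / y0 p ^ 2
          - ((∑ k, X k * r k) - (∑ k, p k * X k) / y0 p * y0 r) ^ 2 / (q p r ^ 2 - 1)) ∧
  (∀ (n : ℕ) (p r : E n) (Y : Fin n → ℝ),
    |(∑ k, Y k * p k) - (∑ k, r k * Y k) / y0 r * y0 p| ≤ Real.sqrt (q p r ^ 2 - 1) * hn r Y)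

/-- BOC: the inequality for `log q(u, v)`, `u` harmonic. -/
def SpecBoc : Prop :=
  ∀ (n : ℕ) (g : MF n) (u v : E n → E n) (y : E n), MetAt g y →
    ContDiffAt ℝ ∞ u y → ContDiffAt ℝ ∞ v y → (∀ k, tv g u k y = 0) → 1 < q (u y) (v y) →
    (1 - 1 / q (u y) (v y)) * (perp g u (v y) y + perp g v (u y) y) - tn g v y
      ≤ lap g (fun z => Real.log (q (u z) (v z))) y

/-- PERP: the orthogonal energy is nonnegative, and positive for immersions. -/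
def SpecPerp : Prop :=
  ∀ (n : ℕ) (g : MF n) (u : E n → E n) (p y : E n), MetAt g y → ContDiffAt ℝ ∞ u y →
    1 < q (u y) p →
    0 ≤ perp g u p y ∧ (2 ≤ n → Function.Injective (fderiv ℝ u y) → 0 < perp g u p y)

/-- NAT: naturality of the curvature under local diffeomorphisms. -/
def SpecNat : Prop :=
  ∀ (n : ℕ) (F : E n → E n) (y : E n) (g g' : MF n), ContDiffAt ℝ ∞ F y →
    (jac F y).det ≠ 0 → MetAt g' (F y) →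
    (∀ᶠ z in nhds y, g z = (jac F z)ᵀ * g' (F z) * jac F z) →
    ∀ X Y : Fin n → ℝ,
      ip g y X Y = ip g' (F y) (jac F y *ᵥ X) (jac F y *ᵥ Y) ∧
      secNum g y X Y = secNum g' (F y) (jac F y *ᵥ X) (jac F y *ᵥ Y) ∧
      sec g y X Y = sec g' (F y) (jac F y *ᵥ X) (jac F y *ᵥ Y) ∧
      (LinearIndependent ℝ ![X, Y] →
        LinearIndependent ℝ ![jac F y *ᵥ X, jac F y *ᵥ Y])

/-- JET: a metric whose 2-jet at `0` is close to the hyperbolic one. -/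
def SpecJet : Prop :=
  ∀ n : ℕ, ∃ C : ℝ, ∀ (g : MF n) (c : ℝ), 0 ≤ c → c ≤ 1 → MetAt g 0 → g 0 = 1 →
    (∀ i j k, |pd k (fun z => g z i j) 0| ≤ c) →
    (∀ i j k l, |pd k (pd l (fun z => g z i j)) 0 + (if i = k ∧ j = l then 1 else 0)
      + (if i = l ∧ j = k then 1 else 0)| ≤ c) →
    ∀ X Y : Fin n → ℝ, LinearIndependent ℝ ![X, Y] → |sec g 0 X Y + 1| ≤ C * c

/-! ## The twisted metric -/

/-- MAT: inverse, determinant, smoothness, positivity of `gA`. -/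
def SpecMat : Prop :=
  ∀ (m : ℕ) (T : Tw), ContDiff ℝ ∞ T.tau → ContDiff ℝ ∞ T.lam → ∀ y : E (m + 3),
    (∀ i j, (gA T y)⁻¹ i j = (if i = j then 1 else 0) + y i * y j
      - bb T y * (Jv y i * (if j = 0 then 1 else 0) + (if i = 0 then 1 else 0) * Jv y j)
      + Nn T y * Jv y i * Jv y j) ∧
    (gA T y).det = 1 / y0 y ^ 2 ∧
    (∀ i j, ContDiff ℝ ∞ fun z : E (m + 3) => gA T z i j) ∧
    (gA T y).PosDef

/-- LAPA: the Laplacian of `gA`. -/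
def SpecLapa : Prop :=
  ∀ (m : ℕ) (T : Tw), ContDiff ℝ ∞ T.tau → ContDiff ℝ ∞ T.lam → ∀ y : E (m + 3),
    (∀ f : E (m + 3) → ℝ, ContDiffAt ℝ ∞ f y → lap (gA T) f y = LA T f y) ∧
    (∀ f : E (m + 3) → ℝ, ContDiffAt ℝ ∞ f y → (∀ᶠ z in nhds y, Jd f z = 0) →
      lap (gA T) f y = lap0 f y ∧ gam (gA T) f f y = gam0 f f y) ∧
    (∀ k, lap (gA T) (fun z => z k) y = (m + 3) * y k - dA T y * Jv y k
      - Nn T y * (if k = 1 ∨ k = 2 then y k else 0))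

/-- PBD: bounds for `P`. -/
def SpecPbd : Prop :=
  ∀ (m : ℕ) (C : ℝ), ∃ C1 : ℝ, 1 ≤ C1 ∧ ∀ (T : Tw) (ε κ r1 r2 : ℝ), TwOK T C ε κ r1 r2 →
    ContDiff ℝ ∞ (Pf T (m := m)) ∧ ∀ y : E (m + 3), Jd (Pf T) y = 0 ∧ 0 ≤ Pf T y ∧
      1 + Pf T y ≤ C1 / ε ^ 2 ∧
      Real.sqrt (gam0 (Pf T) (Pf T) y) ≤ C1 / ε ^ 4 * (κ + 1 / y0 y) ∧
      |lap0 (Pf T) y| ≤ C1 / ε ^ 4 * (κ + 1 / y0 y) ∧
      |Dd (Pf T) y| ≤ C1 / ε ^ 4 * (κ + 1 / y0 y)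

/-- ALPHA: bounds for `α`. -/
def SpecAlpha : Prop :=
  ∀ (m : ℕ) (C : ℝ), ∃ C1 : ℝ, 1 ≤ C1 ∧ ∀ (T : Tw) (ε κ r1 r2 : ℝ), TwOK T C ε κ r1 r2 →
    ContDiff ℝ ∞ (al T (m := m)) ∧ ∀ y : E (m + 3), Jd (al T) y = 0 ∧ 0 < al T y ∧ al T y ≤ 1 ∧
      al T y ^ 2 * ((m + 2) + Nn T y * wsq y) = m + 2 ∧ 1 / al T y ^ 2 ≤ C1 / ε ^ 2 ∧
      Real.sqrt (gam0 (al T) (al T) y) ≤ al T y * (C1 / ε ^ 4 * (κ + 1 / y0 y)) ∧
      |lap0 (al T) y| ≤ al T y * (C1 / ε ^ 8 * (κ + 1 / y0 y)) ∧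
      |Dd (al T) y| ≤ al T y * (C1 / ε ^ 4 * (κ + 1 / y0 y))

/-- ENV: the energy density of `v = α y` for `gA`. -/
def SpecEnv : Prop :=
  ∀ (m : ℕ) (C : ℝ) (T : Tw) (ε κ r1 r2 : ℝ), TwOK T C ε κ r1 r2 → ∀ y : E (m + 3),
    y0 (vA T y) ^ 2 = 1 - al T y ^ 2 + al T y ^ 2 * y0 y ^ 2 ∧
    en (gA T) (vA T) y = (m + 3) - (1 - al T y ^ 2) / y0 (vA T y) ^ 2
      + (gam0 (al T) (al T) y * (y0 y ^ 2 - 1) + 2 * al T y * y0 y ^ 2 * Dd (al T) y)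
        / y0 (vA T y) ^ 2

/-- TVV: the tension vector of `v = α y` for `gA`. -/
def SpecTvv : Prop :=
  ∀ (m : ℕ) (C : ℝ) (T : Tw) (ε κ r1 r2 : ℝ), TwOK T C ε κ r1 r2 → ∀ (y : E (m + 3)) k,
    tv (gA T) (vA T) k y =
      (lap0 (al T) y + 2 * Dd (al T) y + al T y * (1 - al T y ^ 2) / y0 (vA T y) ^ 2
        - al T y * (gam0 (al T) (al T) y * (y0 y ^ 2 - 1)
          + 2 * al T y * y0 y ^ 2 * Dd (al T) y) / y0 (vA T y) ^ 2) * y k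
      + 2 * pd k (al T) y - 2 * bb T y * pd 0 (al T) y * Jv y k - al T y * dA T y * Jv y k
      - al T y * Nn T y * (if k = 1 ∨ k = 2 then y k else 0)

/-- The conclusion of TENS and COER with the constant `C1`. -/
def TensOK (m : ℕ) (C C1 : ℝ) : Prop :=
  ∀ (T : Tw) (ε κ r1 r2 : ℝ), TwOK T C ε κ r1 r2 → ∀ y : E (m + 3),
    tn (gA T) (vA T) y ≤ C1 / ε ^ 10 * (κ + 1 / y0 y) ∧
    (C1 / ε ^ 10 * (κ + 1 / y0 y) ≤ 1 → ∀ p : E (m + 3), 1 < q (vA T y) p →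
      1 / 2 ≤ perp (gA T) (vA T) p y)

/-- TN: bound of the tension of `v`. -/
def SpecTn : Prop :=
  ∀ (m : ℕ) (C : ℝ), ∃ C1 : ℝ, 1 ≤ C1 ∧ ∀ (T : Tw) (ε κ r1 r2 : ℝ), TwOK T C ε κ r1 r2 →
    ∀ y : E (m + 3), tn (gA T) (vA T) y ≤ C1 / ε ^ 10 * (κ + 1 / y0 y)

/-- COER: coercivity of the orthogonal energy of `v`. -/
def SpecCoer : Prop :=
  ∀ (m : ℕ) (C : ℝ), ∃ C1 : ℝ, 1 ≤ C1 ∧ ∀ (T : Tw) (ε κ r1 r2 : ℝ), TwOK T C ε κ r1 r2 →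
    ∀ y : E (m + 3), C1 / ε ^ 10 * (κ + 1 / y0 y) ≤ 1 → ∀ p : E (m + 3), 1 < q (vA T y) p →
      1 / 2 ≤ perp (gA T) (vA T) p y

/-- TENS (from TN and COER, trivial). -/
def SpecTens : Prop := ∀ (m : ℕ) (C : ℝ), ∃ C1 : ℝ, 1 ≤ C1 ∧ TensOK m C C1

/-- GAUGE: `gA T` is the pull-back of `gA {tau, lam - c}` under `Phi T c`. -/
def SpecGauge : Prop :=
  ∀ (m : ℕ) (T : Tw) (c : ℝ), ContDiff ℝ ∞ T.tau → ContDiff ℝ ∞ T.lam →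
    ContDiff ℝ ∞ (Phi T c (m := m)) ∧ ∀ y : E (m + 3),
      gA T y = (jac (Phi T c) y)ᵀ * gA ⟨T.tau, fun r => T.lam r - c⟩ (Phi T c y)
        * jac (Phi T c) y ∧
      (jac (Phi T c) y).det = 1 ∧ y0 (Phi T c y) = y0 y ∧ (Phi T c y) 0 = y 0

/-- TRIV: simple facts on `vA`, `Phi T 1`, `gA`. -/
def SpecTriv : Prop :=
  ∀ (m : ℕ) (C : ℝ) (T : Tw) (ε κ r1 r2 : ℝ), TwOK T C ε κ r1 r2 →
    ContDiff ℝ ∞ (vA T (m := m)) ∧ ∀ y : E (m + 3),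
      (ε ≤ |tk y| → Phi T 1 y = y ∧ vA T y = y) ∧
      (r2 ≤ rk y → vA T y = y ∧ gA T y = gH y) ∧
      y0 (vA T y) ≤ y0 y ∧
      (∀ i j, gA T (rh y) i j = (if i = 1 ∨ i = 2 then -1 else 1)
        * (if j = 1 ∨ j = 2 then -1 else 1) * gA T y i j)

/-- YH: the map `Y = Phi T 1` is harmonic where `λ = 1`. -/
def SpecYh : Prop :=
  ∀ (m : ℕ) (C : ℝ) (T : Tw) (ε κ r1 r2 : ℝ), TwOK T C ε κ r1 r2 → ∀ y : E (m + 3),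
    rk y < r1 → ∀ k, tv (gA T) (Phi T 1) k y = 0

/-- PULL: the 2-jet at `0` of the boosted metric (`lam` vanishes at the point). -/
def SpecPull : Prop :=
  ∀ (m : ℕ) (C : ℝ), ∃ C3 : ℝ, 1 ≤ C3 ∧ ∀ (T : Tw) (ε κ : ℝ),
    ContDiff ℝ ∞ T.tau → ContDiff ℝ ∞ T.lam → 0 < ε → ε ≤ 1 → 0 < κ → κ ≤ 1 →
    (∀ t, |deriv T.tau t| ≤ C / ε) → (∀ t, |deriv (deriv T.tau) t| ≤ C / ε ^ 2) →
    (∀ r, |deriv T.lam r| ≤ κ) → (∀ r, |deriv (deriv T.lam) r| ≤ κ) →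
    ∀ B : Matrix (Fin (m + 3 + 1)) (Fin (m + 3 + 1)) ℝ, IsLor B →
    T.lam (rk (act B (0 : E (m + 3)))) = 0 →
    ∀ G : MF (m + 3), G = (fun y => (jac (act B) y)ᵀ * gA T (act B y) * jac (act B) y) →
    G 0 = 1 ∧ (∀ i j k, |pd k (fun z => G z i j) 0| ≤ C3 * (κ / ε ^ 2)) ∧
    (∀ i j k l, |pd k (pd l (fun z => G z i j)) 0 + (if i = k ∧ j = l then 1 else 0)
      + (if i = l ∧ j = k then 1 else 0)| ≤ C3 * (κ / ε ^ 2))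

/-- CURVA: the sectional curvatures of `gA` are close to `-1` (from NAT, JET, GAUGE, PULL). -/
def SpecCurva : Prop :=
  ∀ (m : ℕ) (C : ℝ), ∃ C2 : ℝ, 1 ≤ C2 ∧ ∀ (T : Tw) (ε κ r1 r2 : ℝ), TwOK T C ε κ r1 r2 →
    ∀ (y : E (m + 3)) (X Y : Fin (m + 3) → ℝ), C2 * (κ / ε ^ 2) ≤ 1 →
      LinearIndependent ℝ ![X, Y] → |sec (gA T) y X Y + 1| ≤ C2 * (κ / ε ^ 2)

/-- BARS: the barrier `S`. -/
def SpecBars : Prop :=
  ∀ (m : ℕ) (T : Tw), ContDiff ℝ ∞ T.tau → ContDiff ℝ ∞ T.lam → ∀ δ B c : ℝ, 0 ≤ B → 0 ≤ c →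
    ContDiff ℝ ∞ (Sb δ B c (m := m)) ∧
    ∀ y : E (m + 3), lap (gA T) (Sb δ B c) y ≤ 2 * (m + 3) ^ 2 * B * c

/-- BARH: the barrier `H`. -/
def SpecBarh : Prop :=
  ∀ (m : ℕ) (T : Tw), ContDiff ℝ ∞ T.tau → ContDiff ℝ ∞ T.lam → ∀ ε : ℝ, 0 < ε → ε ≤ 1 / 8 →
    ContDiff ℝ ∞ (Hb ε (m := m)) ∧
    ∀ y : E (m + 3), lap (gA T) (Hb ε) y = 0 ∧ 0 ≤ Hb ε y ∧
      (|tk y| ≤ ε → 1 ≤ ε * y0 y → (1 / 2) ^ (m + 3) ≤ Hb ε y) ∧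
      (y0 y ≤ 2 → Hb ε y ≤ 9 * ε) ∧ (1 / 2 ≤ |tk y| → Hb ε y ≤ 9 * ε)

/-- TW: existence of twists. -/
def SpecTw : Prop :=
  ∃ C : ℝ, 1 ≤ C ∧ ∀ ε κ r1 : ℝ, 0 < ε → ε ≤ 1 / 8 → 0 < κ → κ ≤ 1 → 0 ≤ r1 →
    ∃ (T : Tw) (r2 : ℝ), TwOK T C ε κ r1 r2

theorem specTens (h1 : SpecTn) (h2 : SpecCoer) : SpecTens := by
  intro m C
  obtain ⟨A, hA, h1⟩ := h1 m C
  obtain ⟨B, hB, h2⟩ := h2 m C
  refine ⟨A + B, by linarith, ?_⟩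
  intro T ε κ r1 r2 hT y
  have hε : 0 < ε ^ 10 := pow_pos hT.hε.1 _
  have hy : 0 < y0 y := by
    unfold y0
    apply Real.sqrt_pos.mpr
    have : 0 ≤ ∑ i, y i ^ 2 := Finset.sum_nonneg fun i _ => sq_nonneg _
    linarith
  have hk : 0 ≤ κ + 1 / y0 y := by
    have := hT.hκ.1
    positivity
  have e1 : A / ε ^ 10 * (κ + 1 / y0 y) ≤ (A + B) / ε ^ 10 * (κ + 1 / y0 y) := by
    apply mul_le_mul_of_nonneg_right _ hk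
    apply div_le_div_of_nonneg_right _ hε.le
    linarith
  have e2 : B / ε ^ 10 * (κ + 1 / y0 y) ≤ (A + B) / ε ^ 10 * (κ + 1 / y0 y) := by
    apply mul_le_mul_of_nonneg_right _ hk
    apply div_le_div_of_nonneg_right _ hε.le
    linarith
  exact ⟨(h1 T ε κ r1 r2 hT y).trans e1,
    fun h p hp => h2 T ε κ r1 r2 hT y (e2.trans h) p hp⟩

end Pool.Agent.Lib.MPdbccd7
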