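import Pool.Agent.Lib.MP_dbccd7_gt.Statement

/-!
# Hyperbolic space in graph coordinates

`H^n = {(y₀, y) : y₀ = √(1+|y|²)} ⊂ ℝ^{n,1}`, a point is given by `y : E n`.
-/

open scoped Manifold ContDiff Matrix

namespace Pool.Agent.Lib.MPdbccd7

variable {n : ℕ}

/-- `y₀ = √(1+|y|²) = cosh d(o, y)`. -/
noncomputable def y0 (y : E n) : ℝ := Real.sqrt (1 + ∑ i, y i ^ 2)

/-- `q(x, y) = - ⟨x, y⟩ = cosh d(x, y)`. -/
noncomputable def q (x y : E n) : ℝ := y0 x * y0 y - ∑ i, x i * y i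

/-- The hyperbolic metric in graph coordinates, `δ_ij - y_i y_j / y₀²`. -/
noncomputable def gH (y : E n) : Matrix (Fin n) (Fin n) ℝ :=
  Matrix.of fun i j => (if i = j then 1 else 0) - y i * y j / y0 y ^ 2

/-- The point of `ℝ^{n+1}` (time coordinate first) given by `y`. -/
noncomputable def emb (y : E n) : Fin (n + 1) → ℝ := Fin.cons (y0 y) fun i => y i

/-- The Lorentz form, `diag(-1, 1, …, 1)`. -/
def eta (n : ℕ) : Matrix (Fin (n + 1)) (Fin (n + 1)) ℝ :=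
  Matrix.diagonal (Fin.cons (-1) fun _ => 1)

/-- Lorentz matrices preserving the upper sheet. -/
def IsLor (A : Matrix (Fin (n + 1)) (Fin (n + 1)) ℝ) : Prop := Aᵀ * eta n * A = eta n ∧ 0 < A 0 0

/-- The action of a matrix on `H^n`. -/
noncomputable def act (A : Matrix (Fin (n + 1)) (Fin (n + 1)) ℝ) (y : E n) : E n :=
  WithLp.toLp 2 fun i => (A *ᵥ emb y) i.succ

/-- The rotation by `π` in the plane of the coordinates `1, 2` (time coordinate first: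
the indices `2, 3`). -/
def rhoM (n : ℕ) : Matrix (Fin (n + 1)) (Fin (n + 1)) ℝ :=
  Matrix.diagonal fun i => if (i : ℕ) = 2 ∨ (i : ℕ) = 3 then -1 else 1

/-- A group of Lorentz matrices of the kind that we need: it acts freely, properly discontinuously
and cocompactly on `H^n`, is normalised by the rotation `rhoM`, and all the nontrivial elements
move the base point by more than `arcosh D`. -/
structure GoodLattice (n : ℕ) (D : ℝ) (Γ : Subgroup (Matrix.GeneralLinearGroup (Fin (n + 1)) ℝ)) :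
    Prop where
  lor : ∀ γ ∈ Γ, IsLor (γ : Matrix (Fin (n + 1)) (Fin (n + 1)) ℝ)
  disc : ∀ C : ℝ, {γ | γ ∈ Γ ∧ (γ : Matrix (Fin (n + 1)) (Fin (n + 1)) ℝ) 0 0 ≤ C}.Finite
  free : ∀ γ ∈ Γ, γ ≠ 1 → ∀ y : E n, act (γ : Matrix (Fin (n + 1)) (Fin (n + 1)) ℝ) y ≠ y
  cocpt : ∃ C : ℝ, ∀ y : E n, ∃ γ ∈ Γ, y0 (act (γ : Matrix (Fin (n + 1)) (Fin (n + 1)) ℝ) y) ≤ C
  disp : ∀ γ ∈ Γ, γ ≠ 1 → D < (γ : Matrix (Fin (n + 1)) (Fin (n + 1)) ℝ) 0 0
  rho : ∀ γ ∈ Γ, ∃ γ' ∈ Γ, (γ' : Matrix (Fin (n + 1)) (Fin (n + 1)) ℝ) = rhoM n * γ * rhoM n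

/-- A field of matrices on `H^n` is a `Γ`-invariant smooth metric. -/
structure InvMetric (n : ℕ) (Γ : Subgroup (Matrix.GeneralLinearGroup (Fin (n + 1)) ℝ))
    (g : MF n) : Prop where
  smooth : ∀ i j, ContDiff ℝ ∞ fun y => g y i j
  posDef : ∀ y, (g y).PosDef
  inv : ∀ γ ∈ Γ, ∀ y, g y = (jac (act (γ : Matrix (Fin (n + 1)) (Fin (n + 1)) ℝ)) y)ᵀ
    * g (act (γ : Matrix (Fin (n + 1)) (Fin (n + 1)) ℝ) y)
    * jac (act (γ : Matrix (Fin (n + 1)) (Fin (n + 1)) ℝ)) y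

/-- All sectional curvatures are in `s`. -/
def SecInE (g : MF n) (s : Set ℝ) : Prop :=
  ∀ y : E n, ∀ X Y : Fin n → ℝ, LinearIndependent ℝ ![X, Y] → sec g y X Y ∈ s

/-- The maps excluded by the analysis: smooth injective immersions, `Γ`-equivariant, harmonic. -/
structure EqHarm (n : ℕ) (Γ : Subgroup (Matrix.GeneralLinearGroup (Fin (n + 1)) ℝ))
    (g h : MF n) (u : E n → E n) : Prop where
  smooth : ContDiff ℝ ∞ u
  inj : Function.Injective u
  imm : ∀ y, Function.Injective (fderiv ℝ u y)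
  equiv : ∀ γ ∈ Γ, ∀ y, u (act (γ : Matrix (Fin (n + 1)) (Fin (n + 1)) ℝ) y)
    = act (γ : Matrix (Fin (n + 1)) (Fin (n + 1)) ℝ) (u y)
  harm : ∀ k y, tension g h u k y = 0

end Pool.Agent.Lib.MPdbccd7
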