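import Pool.Agent.Lib.MP_dbccd7_gt.SpecA
import Pool.Agent.Lib.MP_dbccd7_gt.Lat.Cocpt
import Pool.Agent.Lib.MP_dbccd7_gt.HypFin
import Pool.Agent.Lib.MP_dbccd7_gt.R.Red
import Pool.Agent.Lib.MP_dbccd7_gt.B.Pbd
import Pool.Agent.Lib.MP_dbccd7_gt.B.Tvv
import Pool.Agent.Lib.MP_dbccd7_gt.B.Coer
import Pool.Agent.Lib.MP_dbccd7_gt.B.Jet
import Pool.Agent.Lib.MP_dbccd7_gt.B.Nat
import Pool.Agent.Lib.MP_dbccd7_gt.B.Tn
import Pool.Agent.Lib.MP_dbccd7_gt.B.Triv
import Pool.Agent.Lib.MP_dbccd7_gt.B.Tw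
import Pool.Agent.Lib.MP_dbccd7_gt.B.Yh
import Pool.Agent.Lib.MP_dbccd7_gt.D.Wtop

section
/-!
# Good lattices: congruence subgroups of the orthogonal group of `-√2 x₀² + ∑ x_i²` over `ℤ[√2]`
-/
set_option autoImplicit false

namespace Pool.Agent.Lib.MPdbccd7

namespace LatM

open Matrix

variable {n : ℕ}

theorem det_FO_ne : (FO n).det ≠ 0 := by
  rw [FO, Matrix.det_diagonal, Fin.prod_univ_succ]
  simp only [Fin.cons_zero, Fin.cons_succ, Finset.prod_const_one, mul_one]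
  decide

theorem isUnit_det {A : Matrix (Fin (n + 1)) (Fin (n + 1)) O} (hA : Aᵀ * FO n * A = FO n) :
    IsUnit A.det := by
  have h := congrArg Matrix.det hA
  rw [Matrix.det_mul, Matrix.det_mul, Matrix.det_transpose] at h
  have h2 : (A.det * A.det) * (FO n).det = 1 * (FO n).det := by rw [one_mul]; linear_combination h
  have h3 : A.det * A.det = 1 := by
    apply s1_inj
    have h4 := congrArg s1 h2
    rw [map_mul, map_mul s1 1] at h4
    exact mul_right_cancel₀ (s1_ne_zero det_FO_ne) h4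
  exact IsUnit.of_mul_eq_one _ h3

theorem fo_mulVec {A : Matrix (Fin (n + 1)) (Fin (n + 1)) O} (hA : Aᵀ * FO n * A = FO n)
    (x y : Fin (n + 1) → O) : fo (A *ᵥ x) (A *ᵥ y) = fo x y := by
  rw [fo_eq, fo_eq, ← Matrix.vecMul_transpose, ← Matrix.dotProduct_mulVec, Matrix.mulVec_mulVec,
    Matrix.mulVec_mulVec, hA]

theorem IsO.one : IsO (1 : Matrix (Fin (n + 1)) (Fin (n + 1)) O) := by
  refine ⟨by simp, ?_⟩
  rw [Matrix.one_apply_eq, map_one]
  exact one_pos

theorem IsO.mul {A B : Matrix (Fin (n + 1)) (Fin (n + 1)) O} (hA : IsO A) (hB : IsO B) :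
    IsO (A * B) := by
  constructor
  · calc (A * B)ᵀ * FO n * (A * B) = Bᵀ * (Aᵀ * FO n * A) * B := by
          simp only [Matrix.transpose_mul, Matrix.mul_assoc]
      _ = FO n := by rw [hA.1, hB.1]
  · have h := (IsLor.mul hA.isLor hB.isLor).2
    rw [← cj_mul, cj_zz] at h
    exact h

theorem cj_inv {A : Matrix (Fin (n + 1)) (Fin (n + 1)) O} (hA : Aᵀ * FO n * A = FO n) :
    cj A⁻¹ = li (cj A) := by
  have h1 : cj A⁻¹ * cj A = 1 := by
    rw [← cj_mul, Matrix.nonsing_inv_mul _ (isUnit_det hA), cj_one]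
  have h2 : cj A * li (cj A) = 1 := mul_inv_lor (cj_lor hA)
  calc cj A⁻¹ = cj A⁻¹ * (cj A * li (cj A)) := by rw [h2, Matrix.mul_one]
    _ = (cj A⁻¹ * cj A) * li (cj A) := by rw [Matrix.mul_assoc]
    _ = li (cj A) := by rw [h1, Matrix.one_mul]

theorem IsO.inv {A : Matrix (Fin (n + 1)) (Fin (n + 1)) O} (hA : IsO A) : IsO A⁻¹ := by
  have h1 := Matrix.mul_nonsing_inv _ (isUnit_det hA.1)
  constructor
  · have h2 : (A⁻¹)ᵀ * Aᵀ = 1 := by rw [← Matrix.transpose_mul, h1, Matrix.transpose_one]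
    calc (A⁻¹)ᵀ * FO n * A⁻¹ = (A⁻¹)ᵀ * (Aᵀ * FO n * A) * A⁻¹ := by rw [hA.1]
      _ = ((A⁻¹)ᵀ * Aᵀ) * FO n * (A * A⁻¹) := by simp only [Matrix.mul_assoc]
      _ = FO n := by rw [h1, h2, Matrix.one_mul, Matrix.mul_one]
  · have h := (IsLor.li hA.isLor).2
    rw [← cj_inv hA.1, cj_zz] at h
    exact h

/-- congruence modulo `N` -/
def Cg (N : ℕ) (A B : Matrix (Fin (n + 1)) (Fin (n + 1)) O) : Prop :=
  ∀ i j, (N : O) ∣ A i j - B i j

theorem Cg.mul_left {N : ℕ} {A B : Matrix (Fin (n + 1)) (Fin (n + 1)) O} (h : Cg N A B)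
    (C : Matrix (Fin (n + 1)) (Fin (n + 1)) O) : Cg N (C * A) (C * B) := by
  intro i j
  rw [Matrix.mul_apply, Matrix.mul_apply, ← Finset.sum_sub_distrib]
  refine Finset.dvd_sum fun k _ => ?_
  rw [← mul_sub]
  exact Dvd.dvd.mul_left (h k j) _

theorem Cg.mul_right {N : ℕ} {A B : Matrix (Fin (n + 1)) (Fin (n + 1)) O} (h : Cg N A B)
    (C : Matrix (Fin (n + 1)) (Fin (n + 1)) O) : Cg N (A * C) (B * C) := by
  intro i j
  rw [Matrix.mul_apply, Matrix.mul_apply, ← Finset.sum_sub_distrib]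
  refine Finset.dvd_sum fun k _ => ?_
  rw [← sub_mul]
  exact Dvd.dvd.mul_right (h i k) _

theorem Cg.trans {N : ℕ} {A B C : Matrix (Fin (n + 1)) (Fin (n + 1)) O} (h : Cg N A B)
    (h' : Cg N B C) : Cg N A C := by
  intro i j
  have := dvd_add (h i j) (h' i j)
  rwa [sub_add_sub_cancel] at this

theorem Cg.symm {N : ℕ} {A B : Matrix (Fin (n + 1)) (Fin (n + 1)) O} (h : Cg N A B) :
    Cg N B A := by
  intro i j
  have := (dvd_neg (a := (N : O))).2 (h i j)
  rwa [neg_sub] at this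

theorem Cg.refl {N : ℕ} (A : Matrix (Fin (n + 1)) (Fin (n + 1)) O) : Cg N A A := by
  intro i j
  rw [sub_self]
  exact dvd_zero _

/-- the group -/
noncomputable def Ga (n N : ℕ) : Subgroup (Matrix.GeneralLinearGroup (Fin (n + 1)) ℝ) where
  carrier := {g | ∃ A : Matrix (Fin (n + 1)) (Fin (n + 1)) O, IsO A ∧ Cg N A 1 ∧
    (g : Matrix (Fin (n + 1)) (Fin (n + 1)) ℝ) = cj A}
  mul_mem' := by
    rintro g h ⟨A, hA, hA1, hgA⟩ ⟨B, hB, hB1, hhB⟩
    refine ⟨A * B, hA.mul hB, ?_, ?_⟩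
    · have := (hB1.mul_left A)
      rw [Matrix.mul_one] at this
      exact this.trans hA1
    · rw [Units.val_mul, hgA, hhB, cj_mul]
  one_mem' := ⟨1, IsO.one, Cg.refl 1, by rw [Units.val_one, cj_one]⟩
  inv_mem' := by
    rintro g ⟨A, hA, hA1, hgA⟩
    refine ⟨A⁻¹, hA.inv, ?_, ?_⟩
    · have := (hA1.mul_left A⁻¹)
      rw [Matrix.mul_one, Matrix.nonsing_inv_mul _ (isUnit_det hA.1)] at this
      exact this.symm
    · rw [cj_inv hA.1]
      have h1 : (g⁻¹ : Matrix.GeneralLinearGroup (Fin (n + 1)) ℝ).1 * cj A = 1 := by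
        rw [← hgA]; exact g.inv_mul
      have h2 : cj A * li (cj A) = 1 := mul_inv_lor (cj_lor hA.1)
      calc (g⁻¹ : Matrix.GeneralLinearGroup (Fin (n + 1)) ℝ).1
          = (g⁻¹ : Matrix.GeneralLinearGroup (Fin (n + 1)) ℝ).1 * (cj A * li (cj A)) := by
            rw [h2, Matrix.mul_one]
        _ = li (cj A) := by rw [← Matrix.mul_assoc, h1, Matrix.one_mul]

/-- an element of the big group as an invertible matrix -/
noncomputable def toGL {A : Matrix (Fin (n + 1)) (Fin (n + 1)) O} (hA : IsO A) :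
    Matrix.GeneralLinearGroup (Fin (n + 1)) ℝ :=
  ⟨cj A, li (cj A), mul_inv_lor (cj_lor hA.1), inv_mul_lor (cj_lor hA.1)⟩

theorem r4_bounds : 1 ≤ r4 ∧ r4 ≤ 2 := by
  have h1 : 1 ≤ Real.sqrt 2 := by rw [Real.one_le_sqrt]; norm_num
  have h2 : Real.sqrt 2 ≤ 2 := by
    rw [Real.sqrt_le_left (by norm_num)]; norm_num
  constructor
  · rw [r4, Real.one_le_sqrt]; exact h1
  · rw [r4, Real.sqrt_le_left (by norm_num)]; linarith

theorem tt_bounds (j : Fin (n + 1)) : 1 ≤ (tt j : ℝ) ∧ (tt j : ℝ) ≤ 2 := by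
  refine Fin.cases ?_ (fun i => ?_) j
  · exact r4_bounds
  · exact ⟨le_refl 1, one_le_two⟩

theorem lor_entry {L : Matrix (Fin (n + 1)) (Fin (n + 1)) ℝ} (hL : IsLor L) {C : ℝ}
    (hC : L 0 0 ≤ C) (i j : Fin (n + 1)) : |L i j| ≤ 1 + C := by
  have h1 := one_le_zz hL
  have h0j : L 0 j ^ 2 ≤ C ^ 2 := by
    have h2 := row_zero hL.1
    refine Fin.cases ?_ (fun j => ?_) j
    · nlinarith
    · have h3 : L 0 j.succ ^ 2 ≤ ∑ i : Fin n, L 0 i.succ ^ 2 :=
        Finset.single_le_sum (f := fun i : Fin n => L 0 i.succ ^ 2) (fun i _ => sq_nonneg _)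
          (Finset.mem_univ j)
      nlinarith
  have h4 := col_lf hL.1 j
  rw [lf] at h4
  have h5 : eta n j j ≤ 1 := by
    rw [eta, Matrix.diagonal_apply_eq]
    refine Fin.cases ?_ (fun j => ?_) j
    · simp
    · simp
  have h6 : ∀ i, L i j ^ 2 ≤ (1 + C) ^ 2 := by
    intro i
    refine Fin.cases ?_ (fun i => ?_) i
    · nlinarith
    · have h7 : L i.succ j * L i.succ j ≤ ∑ i : Fin n, L i.succ j * L i.succ j :=
        Finset.single_le_sum (f := fun i : Fin n => L i.succ j * L i.succ j)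
          (fun i _ => mul_self_nonneg _) (Finset.mem_univ i)
      nlinarith
  exact abs_le_of_sq_le_sq (h6 i) (by linarith)

theorem s1_entry {A : Matrix (Fin (n + 1)) (Fin (n + 1)) O} (hA : IsO A) {C : ℝ}
    (hC : s1 (A 0 0) ≤ C) (i j : Fin (n + 1)) : |s1 (A i j)| ≤ 2 * (1 + C) := by
  have h1 := lor_entry hA.isLor (C := C) (by rw [cj_zz]; exact hC) i j
  have h2 : s1 (A i j) = cj A i j * tt j * (tt i)⁻¹ := by
    rw [cj_apply]
    have := tt_ne_zero i
    have := tt_ne_zero j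
    field_simp
  have hi := tt_bounds i
  have hj := tt_bounds j
  rw [h2, abs_mul, abs_mul, abs_of_pos (show (0 : ℝ) < tt j by linarith),
    abs_of_pos (inv_pos.2 (show (0 : ℝ) < tt i by linarith))]
  have h3 : (tt i : ℝ)⁻¹ ≤ 1 := inv_le_one_of_one_le₀ hi.1
  have h4 : 0 ≤ 1 + C := (abs_nonneg _).trans h1
  calc |cj A i j| * tt j * (tt i)⁻¹ ≤ (1 + C) * 2 * 1 := by
        apply mul_le_mul _ h3 (inv_nonneg.2 (by linarith)) (by positivity)
        exact mul_le_mul h1 hj.2 (by linarith) h4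
    _ = 2 * (1 + C) := by ring

theorem s2_entry {A : Matrix (Fin (n + 1)) (Fin (n + 1)) O} (hA : Aᵀ * FO n * A = FO n)
    (i j : Fin (n + 1)) : |s2 (A i j)| ≤ 2 := by
  have h1 : fo (A *ᵥ Pi.single j 1) (A *ᵥ Pi.single j 1) = fo (Pi.single j 1) (Pi.single j 1) :=
    fo_mulVec hA _ _
  have h2 := dot_v2 (A *ᵥ Pi.single j 1) (A *ᵥ Pi.single j 1)
  rw [h1, ← dot_v2] at h2
  have h3 : v2 (Pi.single j 1 : Fin (n + 1) → O) ⬝ᵥ v2 (Pi.single j 1) ≤ 4 := by
    have e : v2 (Pi.single j 1 : Fin (n + 1) → O) = Pi.single j (tt j) := by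
      funext k
      rw [v2, sc_apply]
      by_cases hk : k = j
      · subst hk; simp
      · rw [Pi.single_eq_of_ne hk, Pi.single_eq_of_ne hk, map_zero, mul_zero]
    rw [e, dotProduct_single, Pi.single_eq_same]
    have := tt_bounds j
    nlinarith
  have h4 : v2 (A *ᵥ Pi.single j 1) i ^ 2 ≤ 4 := by
    have : v2 (A *ᵥ Pi.single j 1) i * v2 (A *ᵥ Pi.single j 1) i ≤
        v2 (A *ᵥ Pi.single j 1) ⬝ᵥ v2 (A *ᵥ Pi.single j 1) :=
      Finset.single_le_sum (f := fun i => v2 (A *ᵥ Pi.single j 1) i * v2 (A *ᵥ Pi.single j 1) i)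
        (fun i _ => mul_self_nonneg _) (Finset.mem_univ i)
    rw [sq]
    linarith
  have h5 : v2 (A *ᵥ Pi.single j 1) i = tt i * s2 (A i j) := by
    rw [v2, sc_apply, Matrix.mulVec_single_one]
    rfl
  rw [h5] at h4
  have h6 := tt_bounds i
  have h7 : s2 (A i j) ^ 2 ≤ 2 ^ 2 := by
    have : s2 (A i j) ^ 2 ≤ (tt i * s2 (A i j)) ^ 2 := by
      rw [mul_pow]
      have : 1 ≤ (tt i : ℝ) ^ 2 := by nlinarith
      nlinarith [sq_nonneg (s2 (A i j))]
    linarith
  exact abs_le_of_sq_le_sq h7 (by norm_num)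

theorem finite_big (n : ℕ) (C : ℝ) :
    {A : Matrix (Fin (n + 1)) (Fin (n + 1)) O | IsO A ∧ s1 (A 0 0) ≤ C}.Finite := by
  refine Set.Finite.subset (s := Set.pi Set.univ fun _ => Set.pi Set.univ fun _ =>
    {z : O | |s1 z| ≤ max (2 * (1 + C)) 2 ∧ |s2 z| ≤ max (2 * (1 + C)) 2}) ?_ ?_
  · exact Set.Finite.pi fun _ => Set.Finite.pi fun _ => finite_O _
  · rintro A ⟨hA, hC⟩ i _ j _
    exact ⟨(s1_entry hA hC i j).trans (le_max_left _ _), (s2_entry hA.1 i j).trans (le_max_right _ _)⟩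

theorem disp_big {N : ℕ} {D : ℝ} (hN : 3 * (3 + 2 * D) < (N : ℝ) ^ 2)
    {A : Matrix (Fin (n + 1)) (Fin (n + 1)) O} (hA : IsO A) (hA1 : Cg N A 1)
    (hD : s1 (A 0 0) ≤ D) : A = 1 := by
  ext1 i j
  by_contra hne
  obtain ⟨b, hb⟩ := hA1 i j
  have hb0 : b ≠ 0 := by
    rintro rfl
    rw [mul_zero] at hb
    exact hne (sub_eq_zero.1 hb)
  have h1 := one_le_norm hb0
  have h2 := s1_entry hA hD i j
  have h3 := s2_entry hA.1 i j
  have e1 : |s1 ((1 : Matrix (Fin (n + 1)) (Fin (n + 1)) O) i j)| ≤ 1 := by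
    rw [Matrix.one_apply]
    split_ifs <;> simp
  have e2 : |s2 ((1 : Matrix (Fin (n + 1)) (Fin (n + 1)) O) i j)| ≤ 1 := by
    rw [Matrix.one_apply]
    split_ifs <;> simp
  have h4 : (N : ℝ) * |s1 b| ≤ 3 + 2 * D := by
    have : s1 ((N : O) * b) = N * s1 b := by rw [map_mul, map_natCast]
    rw [← hb, map_sub] at this
    have h5 : (N : ℝ) * |s1 b| = |s1 (A i j) - s1 ((1 : Matrix (Fin (n + 1)) (Fin (n + 1)) O) i j)| := by
      rw [this, abs_mul, Nat.abs_cast]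
    rw [h5]
    exact (abs_sub _ _).trans (by linarith)
  have h4' : (N : ℝ) * |s2 b| ≤ 3 := by
    have : s2 ((N : O) * b) = N * s2 b := by rw [map_mul, map_natCast]
    rw [← hb, map_sub] at this
    have h5 : (N : ℝ) * |s2 b| = |s2 (A i j) - s2 ((1 : Matrix (Fin (n + 1)) (Fin (n + 1)) O) i j)| := by
      rw [this, abs_mul, Nat.abs_cast]
    rw [h5]
    exact (abs_sub _ _).trans (by linarith)
  have h6 : (N : ℝ) * |s1 b| * (N * |s2 b|) ≤ (3 + 2 * D) * 3 := by
    apply mul_le_mul h4 h4' (by positivity)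
    exact (by positivity : (0 : ℝ) ≤ (N : ℝ) * |s1 b|).trans h4
  have h7 : (N : ℝ) ^ 2 * 1 ≤ (N : ℝ) ^ 2 * (|s1 b| * |s2 b|) :=
    mul_le_mul_of_nonneg_left h1 (by positivity)
  nlinarith

theorem zz_le {L : Matrix (Fin (n + 1)) (Fin (n + 1)) ℝ} (hL : IsLor L) (z : E n) :
    L 0 0 ≤ 2 * y0 (act L z) * y0 z := by
  -- `L = (L b⁻¹) b` with the boost `b`
  have hb := isLor_boost z
  have hz : ∀ B : Matrix (Fin (n + 1)) (Fin (n + 1)) ℝ, (B *ᵥ emb (0 : E n)) 0 = B 0 0 := by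
    intro B
    rw [mulVec_zero', emb_zero]
    have : y0 (0 : E n) = 1 := by simp [y0]
    rw [this]
    simp [emb_succ]
  have h1 : L = (L * li (boost z)) * boost z := by
    rw [Matrix.mul_assoc]
    have : li (boost z) * boost z = 1 := inv_mul_lor hb.1
    rw [this, Matrix.mul_one]
  have hM : IsLor (L * li (boost z)) := IsLor.mul hL (IsLor.li hb)
  have h2 : act (boost z) z = 0 := by
    unfold act
    rw [act_boost]
    ext i
    simp [Fin.succ_ne_zero]
  have h3 : act (li (boost z)) 0 = z := by rw [← h2]; exact act_li hb z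
  have h4 : (L * li (boost z)) 0 0 = y0 (act L z) := by
    rw [← hz (L * li (boost z)), ← y0_act hM, act_mul (IsLor.li hb), h3]
  have h5 : boost z 0 0 = y0 z := boost_zz z
  calc L 0 0 = y0 (act L 0) := by rw [y0_act hL, hz]
    _ = y0 (act (L * li (boost z)) (act (boost z) 0)) := by rw [← act_mul hb, ← h1]
    _ ≤ 2 * (L * li (boost z)) 0 0 * y0 (act (boost z) 0) := y0_act_le hM _
    _ = 2 * y0 (act L z) * y0 z := by rw [h4, y0_act hb, hz, h5]

/-- reduction of matrices -/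
def red (N : ℕ) (A : Matrix (Fin (n + 1)) (Fin (n + 1)) O) :
    Fin (n + 1) → Fin (n + 1) → ZMod N × ZMod N := fun i j => ((A i j).re, (A i j).im)

theorem cg_of_red {N : ℕ} {A B : Matrix (Fin (n + 1)) (Fin (n + 1)) O} (h : red N A = red N B) :
    Cg N A B := by
  intro i j
  have h1 := congrFun (congrFun h i) j
  have h2 : ((A i j).re : ZMod N) = (B i j).re := congrArg Prod.fst h1
  have h3 : ((A i j).im : ZMod N) = (B i j).im := congrArg Prod.snd h1
  rw [ZMod.intCast_eq_intCast_iff, Int.modEq_iff_dvd] at h2 h3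
  obtain ⟨a, ha⟩ := h2
  obtain ⟨b, hb⟩ := h3
  refine ⟨⟨-a, -b⟩, ?_⟩
  ext
  · simp
    linarith
  · simp
    linarith

theorem cocpt_N (n : ℕ) {N : ℕ} (hN : 0 < N) {C : ℝ}
    (hC : ∀ y : E n, ∃ A : Matrix (Fin (n + 1)) (Fin (n + 1)) O,
      IsO A ∧ y0 (act (li (cj A)) y) ≤ C) :
    ∃ C' : ℝ, ∀ y : E n, ∃ A : Matrix (Fin (n + 1)) (Fin (n + 1)) O,
      IsO A ∧ Cg N A 1 ∧ y0 (act (cj A) y) ≤ C' := by
  have : NeZero N := ⟨hN.ne'⟩
  have hC0 : 0 ≤ C := by
    obtain ⟨A, -, h⟩ := hC 0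
    exact (y0_pos _).le.trans h
  have hfin : (red N '' {A : Matrix (Fin (n + 1)) (Fin (n + 1)) O | IsO A}).Finite :=
    Set.toFinite _
  choose! rep hrep hrep2 using fun t (ht : t ∈ red N '' {A | IsO (n := n) A}) => ht
  obtain ⟨M, hM⟩ := (hfin.image fun t => cj (rep t) 0 0).bddAbove
  refine ⟨2 * M * C, fun y => ?_⟩
  obtain ⟨A, hA, hAy⟩ := hC y
  have ht : red N A ∈ red N '' {A | IsO (n := n) A} := ⟨A, hA, rfl⟩
  have hB : IsO (rep (red N A)) := hrep _ ht
  have hBA : Cg N (rep (red N A)) A := cg_of_red (hrep2 _ ht)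
  have hBM : cj (rep (red N A)) 0 0 ≤ M := hM ⟨_, ht, rfl⟩
  refine ⟨rep (red N A) * A⁻¹, hB.mul hA.inv, ?_, ?_⟩
  · have := hBA.mul_right A⁻¹
    rwa [Matrix.mul_nonsing_inv _ (isUnit_det hA.1)] at this
  · rw [cj_mul, cj_inv hA.1, act_mul (IsLor.li hA.isLor)]
    refine (y0_act_le hB.isLor _).trans ?_
    have h1 := one_le_zz hB.isLor
    calc 2 * cj (rep (red N A)) 0 0 * y0 (act (li (cj A)) y)
        ≤ 2 * M * C := by
          apply mul_le_mul (by linarith) hAy (y0_pos _).le (by linarith)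

/-- the sign changes -/
def RO (n : ℕ) : Matrix (Fin (n + 1)) (Fin (n + 1)) O :=
  Matrix.diagonal fun i => if (i : ℕ) = 2 ∨ (i : ℕ) = 3 then -1 else 1

theorem RO_sq : RO n * RO n = 1 := by
  rw [RO, Matrix.diagonal_mul_diagonal, ← Matrix.diagonal_one]
  congr 1
  funext i
  split_ifs <;> simp

theorem RO_FO : RO n * FO n * RO n = FO n := by
  rw [RO, FO, Matrix.diagonal_mul_diagonal, Matrix.diagonal_mul_diagonal]
  congr 1
  funext i
  split_ifs <;> simp

theorem RO_isO : IsO (RO n) := by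
  constructor
  · have : (RO n)ᵀ = RO n := by rw [RO, Matrix.diagonal_transpose]
    rw [this, RO_FO]
  · rw [RO, Matrix.diagonal_apply_eq]
    simp

theorem cj_RO : cj (RO n) = rhoM n := by
  ext i j
  rw [cj_apply, RO, rhoM]
  by_cases hij : i = j
  · subst hij
    rw [Matrix.diagonal_apply_eq, Matrix.diagonal_apply_eq]
    have := tt_ne_zero i
    split_ifs
    · rw [map_neg, map_one]; field_simp
    · rw [map_one]; field_simp
  · rw [Matrix.diagonal_apply_ne _ hij, Matrix.diagonal_apply_ne _ hij, map_zero]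
    ring

end LatM

open LatM in
/-- **LAT** -/
theorem specLat : SpecLat := by
  intro n _ D
  obtain ⟨C1, hC1⟩ := cocpt n
  have hC0 : 0 ≤ C1 := by
    obtain ⟨A, -, h⟩ := hC1 0
    exact (y0_pos _).le.trans h
  obtain ⟨N, hN⟩ : ∃ N : ℕ, 3 * (3 + 2 * (max D (2 * C1 * C1))) < (N : ℝ) := exists_nat_gt _
  have hmax : 0 ≤ max D (2 * C1 * C1) := le_trans (by positivity) (le_max_right _ _)
  have hN0 : 1 ≤ N := by
    have : (0 : ℝ) < N := by linarith
    exact_mod_cast this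
  have hN2 : 3 * (3 + 2 * (max D (2 * C1 * C1))) < (N : ℝ) ^ 2 := by
    have : (1 : ℝ) ≤ N := by exact_mod_cast hN0
    nlinarith
  have key : ∀ γ ∈ Ga n N, γ ≠ 1 → max D (2 * C1 * C1) <
      (γ : Matrix (Fin (n + 1)) (Fin (n + 1)) ℝ) 0 0 := by
    rintro γ ⟨A, hA, hA1, hγ⟩ hne
    by_contra hle
    push Not at hle
    rw [hγ, cj_zz] at hle
    have := disp_big hN2 hA hA1 hle
    rw [this, cj_one] at hγ
    exact hne (Units.ext hγ)
  refine ⟨Ga n N, ?_, ?_, ?_, ?_, ?_, ?_⟩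
  · rintro γ ⟨A, hA, -, hγ⟩
    rw [hγ]
    exact hA.isLor
  · intro C
    have h1 := (finite_big n C).image cj
    refine Set.Finite.of_finite_image (f := fun γ : Matrix.GeneralLinearGroup (Fin (n + 1)) ℝ =>
      (γ : Matrix (Fin (n + 1)) (Fin (n + 1)) ℝ)) (h1.subset ?_) (Units.val_injective.injOn)
    rintro _ ⟨γ, ⟨⟨A, hA, -, hγ⟩, hC⟩, rfl⟩
    refine ⟨A, ⟨hA, ?_⟩, hγ.symm⟩
    rw [hγ, cj_zz] at hC
    exact hC
  · rintro γ ⟨A, hA, hA1, hγ⟩ hne y hy
    obtain ⟨B, hB, hBy⟩ := hC1 y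
    -- conjugate
    have hG : IsO (B⁻¹ * A * B) := (hB.inv.mul hA).mul hB
    have hG1 : Cg N (B⁻¹ * A * B) 1 := by
      have h1 := (hA1.mul_left B⁻¹).mul_right B
      rwa [Matrix.mul_one, Matrix.nonsing_inv_mul _ (isUnit_det hB.1)] at h1
    have hne' : toGL hG ≠ 1 := by
      intro h
      have h1 : cj (B⁻¹ * A * B) = 1 := congrArg Units.val h
      apply hne
      apply Units.ext
      rw [hγ, Units.val_one]
      rw [cj_mul, cj_mul, cj_inv hB.1] at h1
      have h2 : cj B * li (cj B) = 1 := mul_inv_lor (cj_lor hB.1)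
      calc cj A = (cj B * li (cj B)) * cj A * (cj B * li (cj B)) := by
            rw [h2, Matrix.one_mul, Matrix.mul_one]
        _ = cj B * (li (cj B) * cj A * cj B) * li (cj B) := by simp only [Matrix.mul_assoc]
        _ = 1 := by rw [h1, Matrix.mul_one, h2]
    have h1 := key (toGL hG) ⟨_, hG, hG1, rfl⟩ hne'
    have h2 : act (cj (B⁻¹ * A * B)) (act (li (cj B)) y) = act (li (cj B)) y := by
      rw [cj_mul, act_mul hB.isLor, cj_mul, act_mul hA.isLor, cj_inv hB.1]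
      have h3 : act (cj B) (act (li (cj B)) y) = y := by
        rw [← act_mul (IsLor.li hB.isLor)]
        have : cj B * li (cj B) = 1 := mul_inv_lor (cj_lor hB.1)
        rw [this, act_one]
      rw [h3, ← hγ, hy]
    have h3 := zz_le hG.isLor (act (li (cj B)) y)
    rw [h2] at h3
    have h4 : 2 * y0 (act (li (cj B)) y) * y0 (act (li (cj B)) y) ≤ 2 * C1 * C1 := by
      have := y0_pos (act (li (cj B)) y)
      apply mul_le_mul (by linarith) hBy this.le (by linarith)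
    have h5 : (2 * C1 * C1 : ℝ) < cj (B⁻¹ * A * B) 0 0 := lt_of_le_of_lt (le_max_right _ _) h1
    linarith
  · obtain ⟨C', hC'⟩ := cocpt_N n hN0 hC1
    refine ⟨C', fun y => ?_⟩
    obtain ⟨A, hA, hA1, hy⟩ := hC' y
    exact ⟨toGL hA, ⟨A, hA, hA1, rfl⟩, hy⟩
  · intro γ hγ hne
    exact lt_of_le_of_lt (le_max_left _ _) (key γ hγ hne)
  · rintro γ ⟨A, hA, hA1, hγ⟩
    have hG : IsO (RO n * A * RO n) := (RO_isO.mul hA).mul RO_isO
    refine ⟨toGL hG, ⟨_, hG, ?_, rfl⟩, ?_⟩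
    · have h1 := (hA1.mul_left (RO n)).mul_right (RO n)
      rwa [Matrix.mul_one, RO_sq] at h1
    · change cj (RO n * A * RO n) = _
      rw [cj_mul, cj_mul, cj_RO, hγ]

end Pool.Agent.Lib.MPdbccd7
end

section
/-!
# Assembly
-/
namespace Pool.Agent.Lib.MPdbccd7

theorem main_of_jet (hJet : SpecJet) : MainStatement := by
  have hTriv : SpecTriv := specTriv
  have hBoc := specBoc specCal specLor
  have hPerp := specPerp specLor
  have hAlpha := specAlpha specPbd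
  have hEnv := specEnv specMat hAlpha
  have hTvv := specTvv specCal specMat specLapa hAlpha hEnv
  have hTens := specTens (specTn hAlpha hTvv) (specCoer specMat hAlpha hEnv)
  have hCurva := specCurva specNat hJet specMat specGauge specPull
  have hBars := specBars specLapa
  have hBarh := specBarh specLapa
  have hFar := specFar specCal specHeq hBoc hPerp hTriv hBars specMaxp
  have hNear := specNear specCal specHeq hBoc hPerp hTriv hBarh specYh specGauge
  have hSym := specSym specCal specHeq hBoc hPerp specMaxi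
  have hGt := specGt specMat hTriv specNat
  have hWind := specWind specWtop (specWclose specLor) hTriv hBarh
  exact main_of specLat specRed specHyp
    (specUp specHyp specTw hTens hCurva specPar hGt hSym hFar hNear hWind)

theorem mainStatement : MainStatement := main_of_jet specJet

end Pool.Agent.Lib.MPdbccd7
end
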