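import Pool.Agent.Lib.MP_dbccd7_gt.SpecB

/-!
# Exact statements of the modules (global part)
-/

open scoped Manifold ContDiff Matrix

namespace Pool.Agent.Lib.MPdbccd7

/-- Square matrices of size `n + 1`. -/
abbrev Mx (n : ℕ) := Matrix (Fin (n + 1)) (Fin (n + 1)) ℝ

/-- The general linear group. -/
abbrev GLn (n : ℕ) := Matrix.GeneralLinearGroup (Fin (n + 1)) ℝ

/-! ## Maxima -/

/-- MAXI: continuous invariant functions attain their maximum. -/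
def SpecMaxi : Prop :=
  ∀ (n : ℕ) (D : ℝ) (Γ : Subgroup (GLn n)), GoodLattice n D Γ → ∀ F : E n → ℝ, Continuous F →
    (∀ γ ∈ Γ, ∀ y, F (act (γ : Mx n) y) = F y) → ∃ p, ∀ y, F y ≤ F p

/-- MAXP: maxima of functions which are invariant outside a ball. -/
def SpecMaxp : Prop :=
  ∀ (n : ℕ) (D : ℝ) (Γ : Subgroup (GLn n)), GoodLattice n D Γ → ∀ R : ℝ, 1 ≤ R → 4 * R ^ 2 ≤ D →
    ∀ F : E n → ℝ, Continuous F →
    (∀ γ ∈ Γ, ∀ y, R ≤ y0 y → R ≤ y0 (act (γ : Mx n) y) → F (act (γ : Mx n) y) = F y) →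
    ∃ p, IsLocalMax F p ∧ (∀ y, y0 y ≤ R → F y ≤ F p) ∧
      (y0 p ≤ R ∨ ∀ γ ∈ Γ, R < y0 (act (γ : Mx n) p))

/-! ## The periodic metric -/

/-- The periodic metric built from `gA T`. -/
structure PerMet (m : ℕ) (Γ : Subgroup (GLn (m + 3))) (T : Tw) (R : ℝ) (g : MF (m + 3)) :
    Prop where
  inv : InvMetric (m + 3) Γ g
  ball : ∀ y, y0 y < 2 * R → g y = gA T y
  out : ∀ p, (∀ γ ∈ Γ, R < y0 (act (γ : Mx (m + 3)) p)) → ∀ᶠ y in nhds p, g y = gH y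
  rho : ∀ y i j, g (rh y) i j = (if i = 1 ∨ i = 2 then -1 else 1)
    * (if j = 1 ∨ j = 2 then -1 else 1) * g y i j

/-- GT: existence of the periodic metric. -/
def SpecGt : Prop :=
  ∀ (m : ℕ) (C : ℝ) (T : Tw) (ε κ r1 r2 : ℝ), TwOK T C ε κ r1 r2 →
    ∀ (R D : ℝ) (Γ : Subgroup (GLn (m + 3))), Real.exp r2 < R → 16 * R ^ 2 ≤ D →
      GoodLattice (m + 3) D Γ →
      ∃ g : MF (m + 3), PerMet m Γ T R g ∧
        ∀ s : Set ℝ, SecInE (gA (m := m) T) s → SecInE (gH (n := m + 3)) s → SecInE g s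

/-! ## Parameters -/

/-- The inequalities between the parameters. -/
structure ParOK (m : ℕ) (C1 C2 δ ε κ Ya Yb r1 r2 R : ℝ) : Prop where
  hYa : 1 ≤ Ya
  h20 : 20 * Ya ≤ R
  hab : 4 * Ya ≤ Yb
  hbR : Yb ≤ R
  hr1 : Real.log Yb < r1
  hr2 : 2 * Real.exp r2 < R
  hten : C1 / ε ^ 10 * (κ + 1 / Ya) ≤ 1 / 6400
  hbar : 2 * (m + 3) ^ 2 * ((3 * Real.log Ya + 4) * Ya ^ (m + 2)) * (1 / R) ≤ 1 / 6400
  hSb : (3 * Real.log Ya + 4) * (Ya / Yb) ^ 2 ≤ 1 / 400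
  hHb : 1 ≤ ε * Yb
  hCb : (2 * Real.log Yb + 2) * 2 ^ (m + 3) * (9 * ε) ≤ 1 / 100
  hcur : C2 * (κ / ε ^ 2) < δ
  hcur1 : C2 * (κ / ε ^ 2) ≤ 1

/-- PAR: the parameters exist. -/
def SpecPar : Prop :=
  ∀ (m : ℕ) (C1 C2 δ : ℝ), 1 ≤ C1 → 1 ≤ C2 → 0 < δ →
    ∃ ε κ Ya Yb r1 : ℝ, 0 < ε ∧ ε ≤ 1 / 8 ∧ 0 < κ ∧ κ ≤ 1 ∧ 0 ≤ r1 ∧
      ∀ r2 : ℝ, ∃ R : ℝ, ParOK m C1 C2 δ ε κ Ya Yb r1 r2 R

/-- The situation of the global argument. -/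
structure Ctx (m : ℕ) (C C1 C2 δ ε κ Ya Yb r1 r2 R D : ℝ) (T : Tw)
    (Γ : Subgroup (GLn (m + 3))) (g : MF (m + 3)) (u : E (m + 3) → E (m + 3)) : Prop where
  tw : TwOK T C ε κ r1 r2
  tens : TensOK m C C1
  hC1 : 1 ≤ C1
  par : ParOK m C1 C2 δ ε κ Ya Yb r1 r2 R
  hD : 16 * R ^ 2 ≤ D
  lat : GoodLattice (m + 3) D Γ
  per : PerMet m Γ T R g
  harm : EqHarm (m + 3) Γ g gH u

/-- The value `B` of the barrier. -/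
noncomputable def Bc (m : ℕ) (Ya : ℝ) : ℝ := (3 * Real.log Ya + 4) * Ya ^ (m + 2)

/-- SYM: `u` commutes with `ρ`. -/
def SpecSym : Prop :=
  ∀ (m : ℕ) (D R : ℝ) (T : Tw) (Γ : Subgroup (GLn (m + 3))) (g : MF (m + 3))
    (u : E (m + 3) → E (m + 3)), GoodLattice (m + 3) D Γ → PerMet m Γ T R g →
    EqHarm (m + 3) Γ g gH u → ∀ y, u (rh y) = rh (u y)

/-- The conclusion of FAR. -/
def FarC (m : ℕ) (Ya R : ℝ) (T : Tw) (u : E (m + 3) → E (m + 3)) : Prop :=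
  ∀ y : E (m + 3), 4 * Ya ≤ y0 y → y0 y ≤ R →
    Real.log (q (u y) (vA T y)) ≤ Sb (1 / 400) (Bc m Ya) (1 / R) y

/-- The conclusion of NEAR. -/
def NearC (m : ℕ) (ε Yb : ℝ) (T : Tw) (u : E (m + 3) → E (m + 3)) : Prop :=
  ∀ y : E (m + 3), y0 y ≤ Yb →
    Real.log (q (u y) (Phi T 1 y)) ≤ 1 / 200 + (2 * Real.log Yb + 2) * 2 ^ (m + 3) * Hb ε y

/-- FAR: comparison far out. -/
def SpecFar : Prop :=
  ∀ (m : ℕ) (C C1 C2 δ ε κ Ya Yb r1 r2 R D : ℝ) (T : Tw)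
    (Γ : Subgroup (GLn (m + 3))) (g : MF (m + 3)) (u : E (m + 3) → E (m + 3)),
    Ctx m C C1 C2 δ ε κ Ya Yb r1 r2 R D T Γ g u → FarC m Ya R T u

/-- NEAR: comparison inside. -/
def SpecNear : Prop :=
  ∀ (m : ℕ) (C C1 C2 δ ε κ Ya Yb r1 r2 R D : ℝ) (T : Tw)
    (Γ : Subgroup (GLn (m + 3))) (g : MF (m + 3)) (u : E (m + 3) → E (m + 3)),
    Ctx m C C1 C2 δ ε κ Ya Yb r1 r2 R D T Γ g u → FarC m Ya R T u → NearC m ε Yb T u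

/-- WCLOSE: the `w`-coordinates of two close points. -/
def SpecWclose : Prop :=
  ∀ (m : ℕ) (a b : E (m + 3)), Real.log (q a b) ≤ 1 / 64 → 1 ≤ wsq b →
    (a 1 - b 1) ^ 2 + (a 2 - b 2) ^ 2 < wsq b

/-- WTOP: the topological lemma. -/
def SpecWtop : Prop :=
  ∀ (S1 : ℝ) (F : ℝ × ℝ → ℂ) (ψ : ℝ → ℝ), 1 ≤ S1 →
    ContinuousOn F (Set.Icc 1 S1 ×ˢ Set.Icc (-1) 1) →
    (∀ p ∈ Set.Icc (1 : ℝ) S1 ×ˢ Set.Icc (-1 : ℝ) 1, F p ≠ 0) →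
    (∀ s ∈ Set.Icc (1 : ℝ) S1, 0 < (F (s, 1)).re ∧ 0 < (F (s, -1)).re) →
    (∀ r ∈ Set.Icc (-1 : ℝ) 1, 0 < (F (S1, r)).re) →
    Continuous ψ → ψ (-1) = 2 * Real.pi → ψ 1 = 0 →
    (∀ r ∈ Set.Icc (-1 : ℝ) 1, ‖F (1, r) - Complex.exp (ψ r * Complex.I)‖ < 1) → False

/-- WIND: the contradiction. -/
def SpecWind : Prop :=
  ∀ (m : ℕ) (C C1 C2 δ ε κ Ya Yb r1 r2 R D : ℝ) (T : Tw)
    (Γ : Subgroup (GLn (m + 3))) (g : MF (m + 3)) (u : E (m + 3) → E (m + 3)),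
    Ctx m C C1 C2 δ ε κ Ya Yb r1 r2 R D T Γ g u → FarC m Ya R T u → NearC m ε Yb T u →
    (∀ y, u (rh y) = rh (u y)) → False

/-- Assembly of the analysis. -/
theorem specUp (hH : SpecHyp) (hTw : SpecTw) (hTens : SpecTens) (hCur : SpecCurva)
    (hPar : SpecPar) (hGt : SpecGt) (hSym : SpecSym) (hFar : SpecFar) (hNear : SpecNear)
    (hWind : SpecWind) : SpecUp := by
  intro n hn δ hδ
  obtain ⟨m, rfl⟩ := Nat.exists_eq_add_of_le' hn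
  obtain ⟨C, hC, hTw⟩ := hTw
  obtain ⟨C1, hC1, hTens⟩ := hTens m C
  obtain ⟨C2, hC2, hCur⟩ := hCur m C
  obtain ⟨ε, κ, Ya, Yb, r1, hε, hε8, hκ, hκ1, hr1, hPar⟩ := hPar m C1 C2 δ hC1 hC2 hδ
  obtain ⟨T, r2, hT⟩ := hTw ε κ r1 hε hε8 hκ hκ1 hr1
  obtain ⟨R, hR⟩ := hPar r2
  refine ⟨16 * R ^ 2, ?_⟩
  intro Γ hΓ
  obtain ⟨g, hg, hs⟩ := hGt m C T ε κ r1 r2 hT R (16 * R ^ 2) Γ
    (by linarith [hR.hr2, Real.exp_pos r2]) le_rfl hΓ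
  refine ⟨g, hg.inv, ?_, ?_⟩
  · apply hs
    · intro y X Y hXY
      have h := hCur T ε κ r1 r2 hT y X Y hR.hcur1 hXY
      have h2 := hR.hcur
      rw [abs_le] at h
      constructor <;> linarith [h.1, h.2]
    · intro y X Y hXY
      have h := (hH (m + 3) (by omega) _ Γ hΓ).2 y X Y hXY
      rw [Set.mem_singleton_iff] at h
      rw [h]
      constructor <;> linarith
  · intro u hu
    have hc : Ctx m C C1 C2 δ ε κ Ya Yb r1 r2 R (16 * R ^ 2) T Γ g u :=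
      ⟨hT, hTens, hC1, hR, le_rfl, hΓ, hg, hu⟩
    have hF := hFar _ _ _ _ _ _ _ _ _ _ _ _ _ _ _ _ _ hc
    have hN := hNear _ _ _ _ _ _ _ _ _ _ _ _ _ _ _ _ _ hc hF
    exact hWind _ _ _ _ _ _ _ _ _ _ _ _ _ _ _ _ _ hc hF hN
      (hSym m _ R T Γ g u hΓ hg hu)

end Pool.Agent.Lib.MPdbccd7
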