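import Mathlib

/-!
# The Lawson-Yau problem: definitions and statement

`E n` is Euclidean `n`-space, the model space of our manifolds.  A Riemannian metric on a manifold
is given, as in classical differential geometry, by its matrices `g_e` in all the charts `e` of the
atlas.
-/

open scoped Manifold ContDiff Matrix

namespace Pool.Agent.Lib.MPdbccd7

/-- Euclidean `n`-space. -/
abbrev E (n : ℕ) := EuclideanSpace ℝ (Fin n)

/-- The partial derivative `∂_i f`. -/
noncomputable def pd {n : ℕ} (i : Fin n) (f : E n → ℝ) (y : E n) : ℝ :=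
  fderiv ℝ f y (EuclideanSpace.single i 1)

/-- The Jacobian matrix `(∂_j F_i)_{ij}` of a map. -/
noncomputable def jac {n : ℕ} (F : E n → E n) (y : E n) : Matrix (Fin n) (Fin n) ℝ :=
  Matrix.of fun i j => pd j (fun z => F z i) y

/-- Fields of matrices. -/
abbrev MF (n : ℕ) := E n → Matrix (Fin n) (Fin n) ℝ

/-- The Christoffel symbol `Γ^k_{ij}` of the metric `g` (given by its matrices in a chart). -/
noncomputable def chr {n : ℕ} (g : MF n) (k i j : Fin n) (y : E n) : ℝ :=
  (1 / 2) * ∑ l, (g y)⁻¹ k l *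
    (pd i (fun z => g z j l) y + pd j (fun z => g z i l) y - pd l (fun z => g z i j) y)

/-- The curvature tensor: `R(∂_i, ∂_j) ∂_k = ∑_l (riem g l k i j) ∂_l`. -/
noncomputable def riem {n : ℕ} (g : MF n) (l k i j : Fin n) (y : E n) : ℝ :=
  pd i (chr g l j k) y - pd j (chr g l i k) y
    + ∑ m, (chr g l i m y * chr g m j k y - chr g l j m y * chr g m i k y)

/-- The inner product `g_y(X, Y)`. -/
noncomputable def ip {n : ℕ} (g : MF n) (y : E n) (X Y : Fin n → ℝ) : ℝ :=
  ∑ i, ∑ j, g y i j * X i * Y j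

/-- `g(R(X, Y) Y, X)`. -/
noncomputable def secNum {n : ℕ} (g : MF n) (y : E n) (X Y : Fin n → ℝ) : ℝ :=
  ∑ i, ∑ j, ∑ k, ∑ l, ∑ m, g y l m * riem g l k i j y * X i * Y j * Y k * X m

/-- The sectional curvature of the plane spanned by `X` and `Y`. -/
noncomputable def sec {n : ℕ} (g : MF n) (y : E n) (X Y : Fin n → ℝ) : ℝ :=
  secNum g y X Y / (ip g y X X * ip g y Y Y - ip g y X Y ^ 2)

/-- The Laplace-Beltrami operator
`Δ_g f = (det g)^{-1/2} ∑_{ij} ∂_i ((det g)^{1/2} g^{ij} ∂_j f)`. -/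
noncomputable def lap {n : ℕ} (g : MF n) (f : E n → ℝ) (y : E n) : ℝ :=
  (Real.sqrt (g y).det)⁻¹ *
    ∑ i, ∑ j, pd i (fun z => Real.sqrt (g z).det * (g z)⁻¹ i j * pd j f z) y

/-- The `k`-th component of the tension field of the map `u`, `g` the metric of the domain, `h` the
metric of the target:
`τ(u)^k = Δ_g u^k + ∑ g^{ij} Γ(h)^k_{ab}(u) ∂_i u^a ∂_j u^b`. -/
noncomputable def tension {n : ℕ} (g h : MF n) (u : E n → E n) (k : Fin n) (y : E n) : ℝ :=
  lap g (fun z => u z k) y
    + ∑ i, ∑ j, ∑ a, ∑ b, (g y)⁻¹ i j * chr h k a b (u y)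
        * pd i (fun z => u z a) y * pd j (fun z => u z b) y

/-- A smooth Riemannian metric on a manifold `M` (modelled on `E n`): matrices in all the charts of
the atlas, smooth, symmetric positive definite, and compatible under changes of charts. -/
structure RMetric (n : ℕ) (M : Type) [TopologicalSpace M] [ChartedSpace (E n) M] where
  /-- the matrices of the metric in the charts -/
  mat : OpenPartialHomeomorph M (E n) → MF n
  smooth : ∀ e ∈ atlas (E n) M, ∀ i j, ContDiffOn ℝ ∞ (fun y => mat e y i j) e.target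
  posDef : ∀ e ∈ atlas (E n) M, ∀ y ∈ e.target, (mat e y).PosDef
  compat : ∀ e ∈ atlas (E n) M, ∀ e' ∈ atlas (E n) M, ∀ y ∈ (e.symm.trans e').source,
    mat e y = (jac (e.symm.trans e') y)ᵀ * mat e' ((e.symm.trans e') y)
      * jac (e.symm.trans e') y

/-- All sectional curvatures of the metric lie in the set `s`. -/
def RMetric.SecIn {n : ℕ} {M : Type} [TopologicalSpace M] [ChartedSpace (E n) M]
    (g : RMetric n M) (s : Set ℝ) : Prop :=
  ∀ e ∈ atlas (E n) M, ∀ y ∈ e.target, ∀ X Y : Fin n → ℝ, LinearIndependent ℝ ![X, Y] →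
    sec (g.mat e) y X Y ∈ s

/-- `u : (N, g) → (M, h)` is a (smooth) harmonic map: its tension field vanishes. -/
def IsHarmonicMap {n : ℕ} {N M : Type} [TopologicalSpace N] [ChartedSpace (E n) N]
    [TopologicalSpace M] [ChartedSpace (E n) M] (g : RMetric n N) (h : RMetric n M)
    (u : N → M) : Prop :=
  ContMDiff (𝓡 n) (𝓡 n) ∞ u ∧
  ∀ e ∈ atlas (E n) N, ∀ e' ∈ atlas (E n) M, ∀ y ∈ e.target, u (e.symm y) ∈ e'.source →
    ∀ k, tension (g.mat e) (h.mat e') (fun z => e' (u (e.symm z))) k y = 0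

/-- **Main statement.** For every `n ≥ 3` and `δ > 0` there is a closed connected smooth manifold
`M` of dimension `n` with a hyperbolic metric `h` (all sectional curvatures `-1`) and a metric `g`
whose sectional curvatures are all in `(-1-δ, -1+δ)`, such that no harmonic map
`(M, g) → (M, h)` homotopic to the identity is a diffeomorphism. -/
def MainStatement : Prop :=
  ∀ n : ℕ, 3 ≤ n → ∀ δ : ℝ, 0 < δ →
    ∃ (M : Type) (_ : TopologicalSpace M) (_ : ChartedSpace (E n) M),
      IsManifold (𝓡 n) ∞ M ∧ T2Space M ∧ SecondCountableTopology M ∧ CompactSpace M ∧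
      ConnectedSpace M ∧
      ∃ g h : RMetric n M, g.SecIn (Set.Ioo (-1 - δ) (-1 + δ)) ∧ h.SecIn {-1} ∧
        ∀ u : M → M, IsHarmonicMap g h u →
          (∃ hu : Continuous u, ContinuousMap.Homotopic ⟨u, hu⟩ (ContinuousMap.id M)) →
          ¬ ∃ Φ : M ≃ₘ^∞⟮𝓡 n, 𝓡 n⟯ M, (Φ : M → M) = u

end Pool.Agent.Lib.MPdbccd7
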